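import Pool.Agent.Lib.H56M.C3

/-!
# C4: cut-off functions
-/

namespace Pool.Agent.Lib.H56M

open Matrix hiding J
open MeasureTheory Topology Filter
open Pool.Agent.Lib.H56.Picard hiding O Gam mem_Gam star_mem_O T_mem sg_mem
open Pool.Agent.Lib.H56.Gen
open Pool.Agent.Lib.H56D hiding om wG rho Eig Good K0
open scoped ENNReal

noncomputable section

/-- The cut-off profile. -/
def c4_F (a l p : ℝ) : ℝ := Real.smoothTransition (3 + 4 * Real.log (p + a) / l)

/-- The profile of the test function. -/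
def c4_g (a l p : ℝ) : ℝ := c4_F a l p ^ 2 / p

theorem c4_K : ∃ K : ℝ, 0 ≤ K ∧ ∀ x, |deriv Real.smoothTransition x| ≤ K := by
  have hs : ContDiff ℝ 1 Real.smoothTransition := Real.smoothTransition.contDiff (n := 1)
  have hcont : Continuous (deriv Real.smoothTransition) := hs.continuous_deriv (by norm_num)
  obtain ⟨K, hK⟩ := (isCompact_Icc (a := (0:ℝ)) (b := 1)).exists_bound_of_continuousOn
    hcont.continuousOn
  refine ⟨max K 0, le_max_right _ _, fun x => ?_⟩
  by_cases hx0 : x < 0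
  · have h1 : Real.smoothTransition =ᶠ[𝓝 x] fun _ => 0 := by
      filter_upwards [Iio_mem_nhds hx0] with y hy
      exact Real.smoothTransition.zero_of_nonpos (le_of_lt hy)
    rw [h1.deriv_eq, deriv_const, abs_zero]
    exact le_max_right _ _
  by_cases hx1 : 1 < x
  · have h1 : Real.smoothTransition =ᶠ[𝓝 x] fun _ => 1 := by
      filter_upwards [Ioi_mem_nhds hx1] with y hy
      exact Real.smoothTransition.one_of_one_le (le_of_lt hy)
    rw [h1.deriv_eq, deriv_const, abs_zero]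
    exact le_max_right _ _
  push Not at hx0 hx1
  have h1 := hK x ⟨hx0, hx1⟩
  rw [Real.norm_eq_abs] at h1
  exact h1.trans (le_max_left _ _)

theorem c4_arg {a l p : ℝ} (h : 0 < p + a) :
    ContDiffAt ℝ 1 (fun p => 3 + 4 * Real.log (p + a) / l) p := by
  have h1 : ContDiffAt ℝ 1 (fun p => Real.log (p + a)) p :=
    (contDiffAt_id.add contDiffAt_const).log h.ne'
  exact contDiffAt_const.add ((contDiffAt_const.mul h1).div_const l)

theorem c4_F_contDiffAt {a l p : ℝ} (h : 0 < p + a) : ContDiffAt ℝ 1 (c4_F a l) p :=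
  (Real.smoothTransition.contDiffAt (n := 1)).comp p (c4_arg h)

theorem c4_F_deriv {a l K p : ℝ} (hl : 0 < l) (hK : ∀ x, |deriv Real.smoothTransition x| ≤ K)
    (h : 0 < p + a) : |deriv (c4_F a l) p| ≤ 4 * K / l * (p + a)⁻¹ := by
  have h0 : HasDerivAt (fun p => p + a) 1 p := (hasDerivAt_id p).add_const a
  have h1 : HasDerivAt (fun p => Real.log (p + a)) (p + a)⁻¹ p := by
    have h00 : HasDerivAt (fun p => Real.log (p + a)) (1 / (p + a)) p := h0.log h.ne'
    rw [one_div] at h00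
    exact h00
  have h2 : HasDerivAt (fun p => 3 + 4 * Real.log (p + a) / l) (4 * (p + a)⁻¹ / l) p :=
    ((h1.const_mul 4).div_const l).const_add 3
  have h3 : HasDerivAt Real.smoothTransition
      (deriv Real.smoothTransition (3 + 4 * Real.log (p + a) / l)) (3 + 4 * Real.log (p + a) / l) :=
    (((Real.smoothTransition.contDiff (n := 1)).differentiable (by norm_num)).differentiableAt).hasDerivAt
  have h4 : HasDerivAt (c4_F a l) (deriv Real.smoothTransition (3 + 4 * Real.log (p + a) / l) *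
      (4 * (p + a)⁻¹ / l)) p := h3.comp p h2
  have h5 : 0 < (p + a)⁻¹ := inv_pos.2 h
  rw [h4.deriv, abs_mul, abs_of_pos (show 0 < 4 * (p + a)⁻¹ / l by positivity)]
  calc _ ≤ K * (4 * (p + a)⁻¹ / l) := mul_le_mul_of_nonneg_right (hK _) (by positivity)
    _ = _ := by ring

theorem c4_F_zero {a l : ℝ} (ha : 0 < a) (hl : 0 < l) (hal : Real.log a = -l) :
    ∀ᶠ p in 𝓝 (0 : ℝ), c4_F a l p = 0 := by
  have h1 : ContinuousAt (fun p => 3 + 4 * Real.log (p + a) / l) 0 :=
    (c4_arg (a := a) (l := l) (p := 0) (by linarith)).continuousAt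
  have h2 : 3 + 4 * Real.log (0 + a) / l < 0 := by
    rw [zero_add, hal]
    have : 4 * -l / l = -4 := by field_simp
    rw [this]
    norm_num
  filter_upwards [h1.eventually_lt_const h2] with p hp
  exact Real.smoothTransition.zero_of_nonpos hp.le

theorem c4_F_one {a l p : ℝ} (hl : 0 < l) (h : -l / 2 ≤ Real.log (p + a)) : c4_F a l p = 1 := by
  apply Real.smoothTransition.one_of_one_le
  have h1 : -2 ≤ 4 * Real.log (p + a) / l := by
    rw [le_div_iff₀ hl]
    linarith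
  linarith

theorem c4_g_contDiffAt {a l p : ℝ} (ha : 0 < a) (hl : 0 < l) (hal : Real.log a = -l) (hp : 0 ≤ p) :
    ContDiffAt ℝ 1 (c4_g a l) p := by
  rcases eq_or_lt_of_le hp with h | h
  · rw [← h]
    refine (contDiffAt_const (c := (0 : ℝ))).congr_of_eventuallyEq ?_
    filter_upwards [c4_F_zero ha hl hal] with x hx
    unfold c4_g
    rw [hx]
    simp
  · exact ((c4_F_contDiffAt (by linarith)).pow 2).div contDiffAt_id h.ne'

theorem c4_g_mul {a l : ℝ} (ha : 0 < a) (hl : 0 < l) (hal : Real.log a = -l) (p : ℝ) :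
    c4_g a l p * p = c4_F a l p ^ 2 := by
  unfold c4_g
  by_cases h : p = 0
  · rw [h, mul_zero, (c4_F_zero ha hl hal).self_of_nhds]
    simp
  · rw [div_mul_cancel₀ _ h]

section

variable {q : QD} {G : Subgroup SU21}

theorem c4_supp {R : ℝ} : HasCompactSupport (hR R) ∧ tsupport (hR R) ⊆ U :=
  ⟨(isCompact_ball o_mem R).of_isClosed_subset (isClosed_tsupport _) hR_tsupport,
    hR_tsupport.trans (ball_subset_U _ _)⟩

theorem c4_P_nonneg {R : ℝ} (hR1 : 1 ≤ R) (z : ℂ × ℂ) : 0 ≤ Per G (hR R) z :=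
  tsum_nonneg fun _ => hR_nonneg hR1 _

theorem c4_P_contDiff (hG : G ≤ Gam q) {R : ℝ} (hR1 : 1 ≤ R) : ContDiffOn ℝ 1 (Per G (hR R)) U :=
  contDiffOn_per (c3_hGd hG) (hR_contDiff hR1) c4_supp.1 c4_supp.2

theorem c4_P_ge (hG : G ≤ Gam q) {R : ℝ} (hR1 : 1 ≤ R) {z : ℂ × ℂ} (hz : z ∈ U) :
    hR R z ≤ Per G (hR R) z := by
  classical
  obtain ⟨S, hS1, hS2, -⟩ := fderiv_per (G := G) (c3_hGd hG) (hR_contDiff hR1) c4_supp.1 c4_supp.2 hz
  have e1 : act (mat (1 : G).1) z = z := act_one z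
  by_cases h : (1 : G) ∈ S
  · rw [hS2]
    have := Finset.single_le_sum (f := fun γ : G => hR R (act (mat γ.1) z))
      (fun _ _ => hR_nonneg hR1 _) h
    simp only [e1] at this
    exact this
  · have h1 := hS1 1 h
    rw [e1] at h1
    rw [image_eq_zero_of_notMem_tsupport h1]
    exact c4_P_nonneg hR1 z

/-- The test function. -/
def c4_h (G : Subgroup SU21) (R a l : ℝ) (z : ℂ × ℂ) : ℝ := c4_g a l (Per G (hR R) z) * hR R z

theorem c4_h_supp {R a l : ℝ} : HasCompactSupport (c4_h G R a l) ∧ tsupport (c4_h G R a l) ⊆ U := by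
  have h1 : tsupport (c4_h G R a l) ⊆ ball o R := by
    refine closure_minimal ?_ (isCompact_ball o_mem R).isClosed
    intro w hw
    by_contra hcon
    apply hw
    unfold c4_h
    rw [hR_zero hcon, mul_zero]
  exact ⟨(isCompact_ball o_mem R).of_isClosed_subset (isClosed_tsupport _) h1,
    h1.trans (ball_subset_U _ _)⟩

theorem c4_h_contDiff (hG : G ≤ Gam q) {R a l : ℝ} (hR1 : 1 ≤ R) (ha : 0 < a) (hl : 0 < l)
    (hal : Real.log a = -l) : ContDiff ℝ 1 (c4_h G R a l) := by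
  rw [contDiff_iff_contDiffAt]
  intro w
  by_cases hw : w ∈ U
  · have h1 : ContDiffAt ℝ 1 (Per G (hR R)) w :=
      (c4_P_contDiff hG hR1).contDiffAt (isOpen_U.mem_nhds hw)
    have h2 : ContDiffAt ℝ 1 (fun z => c4_g a l (Per G (hR R) z)) w :=
      (c4_g_contDiffAt ha hl hal (c4_P_nonneg hR1 w)).comp w h1
    exact h2.mul (hR_contDiff hR1).contDiffAt
  · have h1 : w ∈ (ball o R)ᶜ := fun h => hw (ball_subset_U o R h)
    have h2 : IsOpen (ball o R)ᶜ := (isCompact_ball o_mem R).isClosed.isOpen_compl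
    refine (contDiffAt_const (c := (0 : ℝ))).congr_of_eventuallyEq ?_
    filter_upwards [h2.mem_nhds h1] with z hz
    unfold c4_h
    rw [hR_zero hz, mul_zero]

theorem c4_h_per {R a l : ℝ} (ha : 0 < a) (hl : 0 < l)
    (hal : Real.log a = -l) {z : ℂ × ℂ} (hz : z ∈ U) :
    Per G (c4_h G R a l) z = c4_F a l (Per G (hR R) z) ^ 2 := by
  rw [← c4_g_mul ha hl hal]
  conv_lhs => unfold Pool.Agent.Lib.H56.Gen.Per
  conv_rhs => rw [show Per G (hR R) z = ∑' γ : G, hR R (act (mat γ.1) z) from rfl]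
  rw [← tsum_mul_left]
  refine tsum_congr fun γ => ?_
  unfold c4_h
  rw [per_act _ γ hz]
  rfl

theorem c4_grad {C K R a l : ℝ} (hC : 1 ≤ C) (hK0 : 0 ≤ K)
    (hK : ∀ x, |deriv Real.smoothTransition x| ≤ K) (hR1 : 1 ≤ R) (ha : a = (R ^ 2)⁻¹) (hl : 0 < l)
    (hG : G ≤ Gam q)
    (hgr : ∀ z ∈ U, normL z (fderiv ℝ (Per G (hR R)) z) ≤ (C * (Per G (hR R) z + (R ^ 2)⁻¹)) ^ 2)
    {z : ℂ × ℂ} (hz : z ∈ U) :
    normL z (fderiv ℝ (fun z => c4_F a l (Per G (hR R) z)) z) ≤ (4 * K / l * C) ^ 2 := by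
  have hR0 : 0 < R := by linarith
  have ha0 : 0 < a := by rw [ha]; positivity
  obtain ⟨p, hp⟩ : ∃ p, p = Per G (hR R) z := ⟨_, rfl⟩
  have hp0 : 0 ≤ p := by rw [hp]; exact c4_P_nonneg hR1 z
  have h1 : DifferentiableAt ℝ (Per G (hR R)) z :=
    ((c4_P_contDiff hG hR1).contDiffAt (isOpen_U.mem_nhds hz)).differentiableAt (by norm_num)
  have h2 : DifferentiableAt ℝ (c4_F a l) (Per G (hR R) z) := by
    rw [← hp]
    exact (c4_F_contDiffAt (by linarith)).differentiableAt (by norm_num)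
  have h3 := h2.hasDerivAt.comp_hasFDerivAt z h1.hasFDerivAt
  have h4 : HasFDerivAt (fun z => c4_F a l (Per G (hR R) z)) _ z := h3
  rw [h4.fderiv, normL_smul]
  have h5 := hgr z hz
  rw [← hp, ← ha] at h5
  rw [← hp]
  have h6 := c4_F_deriv hl hK (show 0 < p + a by linarith)
  have h7 : deriv (c4_F a l) p ^ 2 ≤ (4 * K / l * (p + a)⁻¹) ^ 2 := by
    rw [← sq_abs]
    exact pow_le_pow_left₀ (abs_nonneg _) h6 2
  calc deriv (c4_F a l) p ^ 2 * normL z (fderiv ℝ (Per G (hR R)) z)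
      ≤ (4 * K / l * (p + a)⁻¹) ^ 2 * (C * (p + a)) ^ 2 :=
        mul_le_mul h7 h5 (normL_nonneg (le_of_lt hz) _) (sq_nonneg _)
    _ = (4 * K / l * C) ^ 2 := by
        have : p + a ≠ 0 := by linarith
        field_simp

end

theorem c4_log {R : ℝ} (hR : 1 < R) : 0 < 2 * Real.log R ∧ Real.log (R ^ 2)⁻¹ = -(2 * Real.log R) := by
  refine ⟨by have := Real.log_pos hR; linarith, ?_⟩
  rw [Real.log_inv, Real.log_pow]
  norm_num

theorem c4_pow20 {s R : ℝ} (hs : 1 ≤ s) (h : (2 * s) ^ 20 ≤ R) :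
    R⁻¹ ≤ (max (s⁻¹ - R⁻¹) 0) ^ 20 := by
  have h1 : 1 ≤ 2 * s := by linarith
  have h2 : 2 * s ≤ (2 * s) ^ 20 := le_self_pow₀ h1 (by norm_num)
  have hR0 : 0 < R := by linarith
  have h3 : (2 * s)⁻¹ ≤ s⁻¹ - R⁻¹ := by
    have h4 : R⁻¹ ≤ (2 * s)⁻¹ := inv_anti₀ (by linarith) (h2.trans h)
    have h5 : s⁻¹ = (2 * s)⁻¹ + (2 * s)⁻¹ := by
      field_simp
      norm_num
    linarith
  have h4 : R⁻¹ ≤ (2 * s)⁻¹ ^ 20 := by
    rw [inv_pow]
    exact inv_anti₀ (pow_pos (by linarith) _) h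
  exact h4.trans (pow_le_pow_left₀ (inv_nonneg.2 (by linarith)) (h3.trans (le_max_left _ _)) 20)

/-- PROOF. For `R ≥ 2` put `a = R⁻²`, `L = 2 log R = -log a > 0`, `P = Per G (hR R)` (`C¹` on `U`: `contDiffOn_per`,
invariant: `per_act`, `≥ 0`), `F(p) = smoothTransition (3 + 4 log(p + a)/L)` for `p ≥ 0` (use `max p 0` or restrict
to `p > -a`); `F(p) = 0` for `0 ≤ p ≤ a^(3/4) - a`, a neighbourhood of `0` in `[0,∞)`, `F(p) = 1` for
`p ≥ a^(1/2)`. `η = F ∘ P`, `h = (F(P)²/P) hR` (`0` where `P = 0`): `C¹` everywhere (near points with `P = 0` and off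
`ball o R` it vanishes identically), support in `ball o R` (compact, in `U`), `Per G h = F(P)²/P · P = η²` by
invariance of `P`. `|F'(p)| ≤ 4K/(L(p + a))`, `K = sup |smoothTransition'|` (continuous, zero outside `[0,1]`), so with
`grad_per`: `normL (dη) = F'(P)² normL (dP) ≤ (4KC/L)² =: δ`. Take `R = n + 3`: `δ n → 0`. `ev`: for `R ≥ 2 σ(o,z)`:
`P(z) ≥ hR R z ≥ (2 σ(o,z))⁻²⁰`, so `P(z) ≥ a^(1/2) = 1/R` for `n` large and `η = 1`. (Outside `U` define
`η = F(P)` as well; only values in `[0,1]` are needed there.) -/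
theorem exists_cut {q : QD} {G : Subgroup SU21} (hG : G ≤ Gam q) : Nonempty (Cut G) := by
  obtain ⟨C, hC, hgr⟩ := grad_per hG
  obtain ⟨K, hK0, hK⟩ := c4_K
  obtain ⟨R, hRdef⟩ : ∃ R : ℕ → ℝ, ∀ n, R n = n + 3 := ⟨_, fun _ => rfl⟩
  have hR1 : ∀ n, 1 < R n := fun n => by
    have : (0 : ℝ) ≤ n := Nat.cast_nonneg n
    rw [hRdef]
    linarith
  have ha : ∀ n, 0 < (R n ^ 2)⁻¹ := fun n => inv_pos.2 (pow_pos (by linarith [hR1 n]) 2)
  refine ⟨{
    η := fun n z => c4_F (R n ^ 2)⁻¹ (2 * Real.log (R n)) (Per G (hR (R n)) z)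
    h := fun n => c4_h G (R n) (R n ^ 2)⁻¹ (2 * Real.log (R n))
    hh := fun n => c4_h_contDiff hG (hR1 n).le (ha n) (c4_log (hR1 n)).1 (c4_log (hR1 n)).2
    hcs := fun n => c4_h_supp.1
    hs := fun n => c4_h_supp.2
    hη := ?_
    hP := fun n z hz => c4_h_per (ha n) (c4_log (hR1 n)).1 (c4_log (hR1 n)).2 hz
    mem := fun n z => ⟨Real.smoothTransition.nonneg _, Real.smoothTransition.le_one _⟩
    ev := ?_
    δ := fun n => (4 * K / (2 * Real.log (R n)) * C) ^ 2
    δ0 := fun n => sq_nonneg _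
    δlim := ?_
    grad := fun n z hz => c4_grad hC hK0 hK (hR1 n).le rfl (c4_log (hR1 n)).1 hG
      (hgr (R n) (hR1 n).le) hz }⟩
  · intro n z hz
    have h1 : ContDiffAt ℝ 1 (Per G (hR (R n))) z :=
      (c4_P_contDiff hG (hR1 n).le).contDiffAt (isOpen_U.mem_nhds hz)
    have h2 := c4_P_nonneg (G := G) (hR1 n).le z
    exact ((c4_F_contDiffAt (l := 2 * Real.log (R n)) (by linarith [ha n])).comp z h1).contDiffWithinAt
  · intro z hz
    have hs := one_le_sgm o_mem hz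
    obtain ⟨N, hN⟩ := exists_nat_ge ((2 * sgm o z) ^ 20)
    filter_upwards [Filter.eventually_ge_atTop N] with n hn
    have hnR : (2 * sgm o z) ^ 20 ≤ R n := by
      have h1 : (N : ℝ) ≤ n := Nat.cast_le.2 hn
      rw [hRdef]
      linarith
    have h1 := c4_pow20 hs hnR
    rw [← hR_eq (hR1 n).le hz] at h1
    have h2 := h1.trans (c4_P_ge hG (hR1 n).le hz)
    apply c4_F_one (c4_log (hR1 n)).1
    have h3 : -(2 * Real.log (R n)) / 2 = Real.log (R n)⁻¹ := by
      rw [Real.log_inv]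
      ring
    rw [h3]
    apply Real.log_le_log (inv_pos.2 (by linarith [hR1 n]))
    linarith [ha n]
  · have h1 : Tendsto R atTop atTop := by
      have h2 : R = fun n : ℕ => (n : ℝ) + 3 := funext hRdef
      rw [h2]
      exact tendsto_atTop_add_const_right _ _ tendsto_natCast_atTop_atTop
    have h2 : Tendsto (fun n => 2 * Real.log (R n)) atTop atTop :=
      (Real.tendsto_log_atTop.comp h1).const_mul_atTop (by norm_num)
    have h3 : Tendsto (fun n => 4 * K / (2 * Real.log (R n)) * C) atTop (𝓝 (0 * C)) :=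
      (h2.const_div_atTop (4 * K)).mul_const C
    have h4 := h3.pow 2
    simpa using h4

end

end Pool.Agent.Lib.H56M
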