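import Pool.Agent.Lib.H56M.N1
import Pool.Agent.Lib.H56M.O5
import Pool.Agent.Lib.H56M.C4

/-!
# N3: the energy inequality at level G
-/

namespace Pool.Agent.Lib.H56M

open Matrix hiding J
open MeasureTheory Topology Filter
open Pool.Agent.Lib.H56.Picard hiding O Gam mem_Gam star_mem_O T_mem sg_mem
open Pool.Agent.Lib.H56.Gen
open Pool.Agent.Lib.H56D hiding om wG rho Eig Good K0
open scoped ENNReal

noncomputable section

/-- The subgroup as a subgroup of `SU21`. -/
lemma n3_map_le {q : QD} (G : Subgroup (Gam q)) : G.map (Gam q).subtype ≤ Gam q := by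
  rintro _ ⟨γ, _, rfl⟩
  exact γ.2

lemma n3_sum {q : QD} (D : MC q) (G : Subgroup (Gam q)) [G.FiniteIndex] :
    ∀ᵐ z ∂(mu : Measure X), ∑' γ : G.map (Gam q).subtype, wG D G (γ • z) = 1 := by
  refine Filter.Eventually.of_forall fun z => ?_
  let e : G ≃* G.map (Gam q).subtype :=
    G.equivMapOfInjective (Gam q).subtype Subtype.coe_injective
  rw [← e.toEquiv.tsum_eq, ← sum_wG D G z]
  rfl

/-- The energy inequality with the weight of the subgroup. -/
theorem n3_energy {q : QD} (D : MC q) {G : Subgroup (Gam q)} [hG : G.FiniteIndex]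
    {f : ℂ × ℂ → ℂ} {lam : ℂ}
    (hf : ContDiffOn ℝ 2 f U) (hinv : ∀ γ : Gam q, γ ∈ G → ∀ z ∈ U, f (act (mat γ.1) z) = f z)
    (heig : ∀ z ∈ U, laplacian f z = -(lam * f z))
    (hL2 : ∫⁻ z : X, wG D G z * ENNReal.ofReal (Complex.normSq (f z.1)) ∂mu ≠ ⊤)
    (hne : ∃ z ∈ U, f z ≠ 0) :
    lam.im = 0 ∧
      ∫⁻ z, wG D G z * ENNReal.ofReal (energy (fun z => (f z).re) z.1 +
        energy (fun z => (f z).im) z.1) ∂mu ≤
      ENNReal.ofReal lam.re *
        ∫⁻ z : X, wG D G z * ENNReal.ofReal (Complex.normSq (f z.1)) ∂mu := by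
  obtain ⟨T⟩ := exists_cut (n3_map_le G)
  refine green_cut (finite_sub (n3_map_le G) H56.Gen.finite_ball) T (measurable_wG D G)
    one_ne_zero ENNReal.one_ne_top (n3_sum D G) hf ?_ heig hL2 hne
  rintro ⟨_, γ, hγ, rfl⟩ z hz
  exact hinv γ hγ z hz

/-- `green_level`, `green_sub` (`H56/Gen/GreenSub.lean`) with `green_sub_aux` replaced by `green_cut`: with
`w' = wG D G` (translates sum to `1`, `sum_om`, `bijective_out`), the subgroup `G.map (Gam q).subtype` of `SU21`
(`≤ Gam q`, cut-offs from `exists_cut`, finiteness from `finite_sub`), and `lintegral_cosets`, `energy_comp` to pass to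
the weight `om D`. (`hL2` is already in terms of `wG`.) -/
theorem energy_level {q : QD} (D : MC q) {G : Subgroup (Gam q)} [hG : G.FiniteIndex]
    {f : ℂ × ℂ → ℂ} {lam : ℂ}
    (hf : ContDiffOn ℝ 2 f U) (hinv : ∀ γ : Gam q, γ ∈ G → ∀ z ∈ U, f (act (mat γ.1) z) = f z)
    (heig : ∀ z ∈ U, laplacian f z = -(lam * f z))
    (hL2 : ∫⁻ z : X, wG D G z * ENNReal.ofReal (Complex.normSq (f z.1)) ∂mu ≠ ⊤)
    (hne : ∃ z ∈ U, f z ≠ 0) :
    lam.im = 0 ∧
      ∫⁻ z, om D z * EnS G f z ∂mu ≤ ENNReal.ofReal lam.re * ∫⁻ z, om D z * PhiS G f z ∂mu := by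
  have hf1 : ContDiffOn ℝ 1 (fun z => (f z).re) U :=
    (Complex.reCLM.contDiff.comp_contDiffOn hf).of_le (by norm_num)
  have hf2 : ContDiffOn ℝ 1 (fun z => (f z).im) U :=
    (Complex.imCLM.contDiff.comp_contDiffOn hf).of_le (by norm_num)
  have hem : Measurable fun z : X => ENNReal.ofReal (energy (fun z => (f z).re) z.1 +
        energy (fun z => (f z).im) z.1) :=
    (ENNReal.continuous_ofReal.comp (continuous_restrict (φ := fun z =>
      normL z (fderiv ℝ (fun z => (f z).re) z) + normL z (fderiv ℝ (fun z => (f z).im) z))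
        ((continuousOn_normL hf1).add (continuousOn_normL hf2)))).measurable
  have key := n3_energy D hf hinv heig hL2 hne
  rw [lintegral_PhiS D G hf, lintegral_wG D G hem] at key
  refine ⟨key.1, le_of_eq_of_le ?_ key.2⟩
  refine lintegral_congr fun z => ?_
  congr 1
  refine tsum_congr fun c => ?_
  congr 2
  · exact energy_comp ((c.out : Gam q)⁻¹).1 z.2 ((hf1.contDiffAt (isOpen_U.mem_nhds
      (act_mem_U _ z.2))).differentiableAt (by norm_num))
  · exact energy_comp ((c.out : Gam q)⁻¹).1 z.2 ((hf2.contDiffAt (isOpen_U.mem_nhds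
      (act_mem_U _ z.2))).differentiableAt (by norm_num))

end

end Pool.Agent.Lib.H56M
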