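import Pool.Agent.Lib.H56M.W1

/-!
# W2: the count is constant high in each cusp
-/

namespace Pool.Agent.Lib.H56M

open Matrix hiding J
open MeasureTheory Topology Filter
open Pool.Agent.Lib.H56.Picard hiding O Gam mem_Gam star_mem_O T_mem sg_mem
open Pool.Agent.Lib.H56.Gen
open Pool.Agent.Lib.H56D hiding om wG rho Eig Good K0
open scoped ENNReal

noncomputable section

variable {q : QD} (D : MC q)

/-- The element between the cusps `i` and `j`. -/
def w2_del (i j : Fin D.r) (γ : Gam q) : SU21 := (D.g j)⁻¹ * γ.1 * D.g i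

open Classical in
/-- Indicator function of the elements mapping the cusp `i` to the cusp `j`. -/
def w2_ind (i j : Fin D.r) (γ : Gam q) : ℝ≥0∞ := if mat (w2_del D i j γ) 2 0 = 0 then 1 else 0

/-- Number of translates in the box of the cusp `j`. -/
def w2_F (i j : Fin D.r) (w : X) : ℝ≥0∞ :=
  ∑' γ : Gam q, w2_ind D i j γ * bx D.K.Box (w2_del D i j γ • w : X).1

/-- Conjugate of a translation. -/
def w2_con (j : Fin D.r) (b : D.K.B) : Gam q := ⟨D.g j * b.1.1 * (D.g j)⁻¹, D.tr j b.1 b.2⟩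

theorem w2_del_mul (i j : Fin D.r) (b : D.K.B) (γ : Gam q) :
    w2_del D i j (w2_con D j b * γ) = b.1.1 * w2_del D i j γ := by
  have h : (w2_con D j b * γ).1 = D.g j * b.1.1 * (D.g j)⁻¹ * γ.1 := rfl
  rw [w2_del, w2_del, h]
  group

theorem w2_ind_mul (i j : Fin D.r) (b : D.K.B) (γ : Gam q) :
    w2_ind D i j (w2_con D j b * γ) = w2_ind D i j γ := by
  have h1 : mat (w2_del D i j (w2_con D j b * γ)) 2 0 = mat (w2_del D i j γ) 2 0 := by
    obtain ⟨m, n, w, -, -, h⟩ := b.2
    rw [w2_del_mul, mat_mul, h]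
    simp [TM, Matrix.mul_apply, Fin.sum_univ_three]
  unfold w2_ind
  rw [h1]

theorem w2_F_const (i j : Fin D.r) (y y1 : X) : w2_F D i j y = w2_F D i j y1 := by
  have hB : ∀ z ∈ U, ∃! b : D.K.B, act (mat b.1.1) z ∈ D.K.Box := fun z hz =>
    D.K.exists_unique_B (mem_U.mp hz)
  have h1 : w2_F D i j y = ∑' γ : Gam q, ∑' b : D.K.B,
      w2_ind D i j γ * bx D.K.Box (w2_del D i j γ • y : X).1 *
        bx D.K.Box (b • (w2_del D i j γ • y1 : X) : X).1 := by
    refine tsum_congr fun γ => ?_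
    rw [ENNReal.tsum_mul_left, sum_bx hB, mul_one]
  have h2 : w2_F D i j y1 = ∑' γ : Gam q, ∑' b : D.K.B,
      w2_ind D i j γ * (bx D.K.Box (b⁻¹ • (w2_del D i j γ • y : X) : X).1 *
        bx D.K.Box (w2_del D i j γ • y1 : X).1) := by
    refine tsum_congr fun γ => ?_
    rw [ENNReal.tsum_mul_left, ENNReal.tsum_mul_right, sum_bx_inv hB, one_mul]
  rw [h1, h2, ENNReal.tsum_comm, ENNReal.tsum_comm (α := Gam q)]
  refine tsum_congr fun b => ?_
  rw [← (Equiv.mulLeft (w2_con D j b)).tsum_eq (fun γ : Gam q =>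
    w2_ind D i j γ * (bx D.K.Box (b⁻¹ • (w2_del D i j γ • y : X) : X).1 *
        bx D.K.Box (w2_del D i j γ • y1 : X).1))]
  refine tsum_congr fun γ => ?_
  have e0 : (Equiv.mulLeft (w2_con D j b)) γ = w2_con D j b * γ := rfl
  have e1 : (b⁻¹ • (w2_del D i j (w2_con D j b * γ) • y : X) : X) = w2_del D i j γ • y := by
    have h3 : (b⁻¹ • (w2_del D i j (w2_con D j b * γ) • y : X) : X) =
      (b.1.1)⁻¹ • (w2_del D i j (w2_con D j b * γ) • y : X) := rfl
    rw [h3, w2_del_mul, smul_smul, inv_mul_cancel_left]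
  have e2 : (w2_del D i j (w2_con D j b * γ) • y1 : X) = b • (w2_del D i j γ • y1 : X) := by
    have h3 : (b • (w2_del D i j γ • y1 : X) : X) = b.1.1 • (w2_del D i j γ • y1 : X) := rfl
    rw [h3, w2_del_mul, mul_smul]
  rw [e0, w2_ind_mul, e1, e2, mul_assoc]

/-- The entries on the diagonal of an upper triangular element. -/
theorem w2_diag (g : SU21) (h0 : mat g 2 0 = 0) : star (mat g 0 0) * mat g 2 2 = 1 := by
  have h1 := congrFun (congrFun (mat_unitary g) 0) 2
  simp only [Matrix.mul_apply, Fin.sum_univ_three, conjTranspose_apply, H56.Picard.J] at h1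
  have h2 : star (mat g 1 0) = 0 ∨ True := Or.inr trivial
  have h3 := congrFun (congrFun (mat_unitary g) 0) 0
  simp only [Matrix.mul_apply, Fin.sum_univ_three, conjTranspose_apply, H56.Picard.J] at h3
  simp [h0] at h1 h3
  rw [h3] at h1
  simpa using h1

theorem w2_term (i j : Fin D.r) (γ : Gam q) {w : X} (hw : top D < height w.1) :
    bxi D j (γ • (D.g i • w : X)) = w2_ind D i j γ * bx D.K.Box (w2_del D i j γ • w : X).1 := by
  have hN1 : (0 : ℝ) < D.N := by
    have := D.hN
    exact_mod_cast (by omega : 0 < D.N)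
  have hden : ∀ k l, (D.N : ℂ) * mat (w2_del D i j γ) k l ∈ OO q := D.den i j γ
  have e1 : ((D.g j)⁻¹ • (γ • (D.g i • w : X) : X) : X) = w2_del D i j γ • w := w1_smul D i j γ w
  have hh := D.hh
  have hz' : 0 < height w.1 := w.2
  unfold bxi
  rw [e1]
  by_cases h0 : mat (w2_del D i j γ) 2 0 = 0
  · have e2 : w2_ind D i j γ = 1 := if_pos h0
    have hj := jf_ne_zero (mat_unitary (w2_del D i j γ)) w.2
    rw [w1_jf_of_zero _ h0] at hj
    have h1 := w2_diag _ h0
    have h00 : mat (w2_del D i j γ) 0 0 ≠ 0 := by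
      intro h
      rw [h] at h1
      simp at h1
    have h2 := w1_entry D.hN (hden 0 0) h00
    have h3 : (1 / (D.N : ℝ)) ^ 2 ≤ Complex.normSq (mat (w2_del D i j γ) 0 0) := by
      rw [Complex.normSq_eq_norm_sq]
      exact pow_le_pow_left₀ (by positivity) h2 2
    have h4 : Complex.normSq (mat (w2_del D i j γ) 0 0) *
        Complex.normSq (mat (w2_del D i j γ) 2 2) = 1 := by
      have h5 := congrArg Complex.normSq h1
      rw [map_mul, map_one, Complex.star_def, Complex.normSq_conj] at h5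
      exact h5
    have h5 : Complex.normSq (mat (w2_del D i j γ) 2 2) ≤ (D.N : ℝ) ^ 2 := by
      have h6 : (1 / (D.N : ℝ)) ^ 2 * Complex.normSq (mat (w2_del D i j γ) 2 2) ≤ 1 :=
        (mul_le_mul_of_nonneg_right h3 (Complex.normSq_nonneg _)).trans h4.le
      calc Complex.normSq (mat (w2_del D i j γ) 2 2) =
          (D.N : ℝ) ^ 2 * ((1 / (D.N : ℝ)) ^ 2 *
            Complex.normSq (mat (w2_del D i j γ) 2 2)) := by field_simp
        _ ≤ (D.N : ℝ) ^ 2 * 1 := by gcongr
        _ = _ := mul_one _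
    have h6 : D.h < height (w2_del D i j γ • w : X).1 := by
      rw [height_smul, w1_jf_of_zero _ h0, lt_div_iff₀ (Complex.normSq_pos.mpr hj)]
      have h7 : top D ≤ height w.1 := hw.le
      have h8 : D.h * (D.N : ℝ) ^ 2 < top D := by
        unfold top
        rw [lt_div_iff₀ hh]
        have h9 := D.h1
        have h10 : D.h * D.h ≤ 1 := by nlinarith
        have h11 : 0 < (D.N : ℝ) ^ 2 := by positivity
        nlinarith
      calc D.h * Complex.normSq (mat (w2_del D i j γ) 2 2) ≤ D.h * (D.N : ℝ) ^ 2 := by gcongr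
        _ < _ := h8.trans_le h7
    have e3 : above D.h (height (w2_del D i j γ • w : X).1) = 1 :=
      Set.indicator_of_mem (show height (w2_del D i j γ • w : X).1 ∈ Set.Ioi D.h from h6) _
    rw [e2, e3, mul_one, one_mul]
  · have e2 : w2_ind D i j γ = 0 := if_neg h0
    have h1 := w1_entry D.hN (hden 2 0) h0
    have h2 := w1_height_mul_le (w2_del D i j γ) (z := w.1) w.2
      (by positivity : (0 : ℝ) < 1 / D.N) h1
    have h4 : 4 / (1 / (D.N : ℝ)) ^ 2 = 4 * (D.N : ℝ) ^ 2 := by field_simp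
    rw [h4] at h2
    have h3 : ¬ D.h < height (w2_del D i j γ • w : X).1 := by
      intro hc
      have h5 : D.h * height w.1 ≤ 4 * (D.N : ℝ) ^ 2 :=
        le_trans (mul_le_mul_of_nonneg_right hc.le hz'.le) h2
      have h6 : 4 * (D.N : ℝ) ^ 2 < D.h * height w.1 := by
        have h7 : top D < height w.1 := hw
        unfold top at h7
        rw [div_lt_iff₀ hh] at h7
        linarith
      linarith
    have e3 : above D.h (height (w2_del D i j γ • w : X).1) = 0 :=
      Set.indicator_of_notMem h3 _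
    rw [e2, e3, mul_zero, zero_mul]

theorem w2_cnt (i : Fin D.r) {w : X} (hw : top D < height w.1) :
    cnt D (D.g i • w) = ∑ j, w2_F D i j w := by
  unfold cnt ind w2_F
  rw [← Summable.tsum_finsetSum fun _ _ => ENNReal.summable]
  exact tsum_congr fun γ => Finset.sum_congr rfl fun j _ => w2_term D i j γ hw

/-- Let `w` be in the box with `height w > top D = 4N²/h` and `δ = g_j⁻¹ γ g_i`, so `g_j⁻¹ γ (g_i w) = δ w`. If
`δ 2 0 ≠ 0` then `|δ 2 0| ≥ 1/N` (`D.den`, `one_le_norm`) and `height (δ w) height w ≤ 4 N²` (the proof of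
`height_mul_le` with `1/N` for `1`: for the third row `ρ` of `δ`, `|ρ · lift w| ≥ |δ 2 0| height w / 2`), so the
height is at most `h` and the term is zero. If `δ 2 0 = 0` then `δ` is upper triangular, `jf δ w = δ 2 2`, and
`|δ 0 0| ≥ 1/N`, `δ 2 2 = 1/conj (δ 0 0)`, so `height (δ w) = |δ 0 0|² height w > 4/h > h`. So with
`A j = {γ : δ 2 0 = 0}` (independent of `w`)
`cnt D (g_i w) = ∑ j, #{γ ∈ A j : δ w ∈ Box}`. Left multiplication of `γ` by `g_j b g_j⁻¹`, `b ∈ K.B`
(`D.tr`), multiplies `δ` by `b` and acts freely on `A j`; each orbit has exactly one element with `δ w ∈ Box`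
(`exists_unique_B`). So for two such points `w, w'` there is a bijection between the two sets (equal sums
`∑' γ : A j, ..`, compare `rep_const` in `H56/Gen`): the value `κ` does not depend on `w`. `1 ≤ κ ≠ ⊤` by
`one_le_cnt`, `cnt_ne_top` (if there is no such `w`, `κ = 1`). -/
theorem cnt_high {q : QD} (D : MC q) (i : Fin D.r) : ∃ κ : ℝ≥0∞, 1 ≤ κ ∧ κ ≠ ⊤ ∧
    ∀ w : X, w.1 ∈ D.K.Box → top D < height w.1 → cnt D (D.g i • w) = κ := by
  by_cases hex : ∃ w : X, w.1 ∈ D.K.Box ∧ top D < height w.1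
  · obtain ⟨w0, -, hw0⟩ := hex
    refine ⟨cnt D (D.g i • w0), one_le_cnt D _, cnt_ne_top D _, fun w _ hw => ?_⟩
    rw [w2_cnt D i hw, w2_cnt D i hw0]
    exact Finset.sum_congr rfl fun j _ => w2_F_const D i j w w0
  · exact ⟨1, le_rfl, ENNReal.one_ne_top, fun w h1 h2 => absurd ⟨w, h1, h2⟩ hex⟩

end

end Pool.Agent.Lib.H56M
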