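import Pool.Agent.Lib.H56D.H2
import Pool.Agent.Lib.H56M.W2
import Pool.Agent.Lib.H56M.G0

/-!
# W3: the compact part carries a positive proportion of the mass
-/

namespace Pool.Agent.Lib.H56M

open Matrix hiding J
open MeasureTheory Topology Filter
open Pool.Agent.Lib.H56.Picard hiding O Gam mem_Gam star_mem_O T_mem sg_mem
open Pool.Agent.Lib.H56.Gen
open Pool.Agent.Lib.H56D hiding om wG rho Eig Good K0
open scoped ENNReal

noncomputable section

private lemma W3_arith {A E Al : ℝ≥0∞} {ν : ℝ} (hA : A ≠ ⊤) (hν0 : 0 < ν) (hν1 : ν ≤ 1)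
    (h1 : A ≤ Al + (E + 2 * Al)) (h2 : E ≤ ENNReal.ofReal (1 - ν ^ 2) * A) :
    ENNReal.ofReal (ν ^ 2) * A ≤ 3 * Al := by
  have h3 : 0 ≤ 1 - ν ^ 2 := by nlinarith
  have h4 : ENNReal.ofReal (ν ^ 2) * A + ENNReal.ofReal (1 - ν ^ 2) * A = A := by
    rw [← add_mul, ← ENNReal.ofReal_add (sq_nonneg ν) h3]
    have : ν ^ 2 + (1 - ν ^ 2) = 1 := by ring
    rw [this, ENNReal.ofReal_one, one_mul]
  have h5 : ENNReal.ofReal (1 - ν ^ 2) * A ≠ ⊤ := ENNReal.mul_ne_top ENNReal.ofReal_ne_top hA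
  have h6 : ENNReal.ofReal (ν ^ 2) * A + ENNReal.ofReal (1 - ν ^ 2) * A ≤
      3 * Al + ENNReal.ofReal (1 - ν ^ 2) * A := by
    rw [h4]
    calc A ≤ Al + (E + 2 * Al) := h1
      _ ≤ Al + (ENNReal.ofReal (1 - ν ^ 2) * A + 2 * Al) := by gcongr
      _ = _ := by ring
  exact (ENNReal.add_le_add_iff_right h5).1 h6

/-- the part of the box in a range of heights -/
private def W3_box {q : QD} (D : MC q) (S : Set ℝ) : Set X :=
  {w : X | w.1 ∈ D.K.Box ∧ height w.1 ∈ S}

private lemma W3_mbox {q : QD} (D : MC q) {S : Set ℝ} (hS : MeasurableSet S) :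
    MeasurableSet (W3_box D S) := by
  have mB : MeasurableSet {z : X | z.1 ∈ D.K.Box} :=
    (measurableSet_Box D.K).preimage measurable_subtype_coe
  exact mB.inter (measurable_height hS)

/-- the substitution -/
private lemma W3_subst (g : SU21) {S : Set X} (hS : MeasurableSet S) {φ : X → ℝ≥0∞}
    (hφ : Measurable φ) :
    ∫⁻ z in {z : X | g⁻¹ • z ∈ S}, φ z ∂mu = ∫⁻ w in S, φ (g • w) ∂mu := by
  have hm : MeasurableSet {z : X | g⁻¹ • z ∈ S} := (measurable_const_smul g⁻¹) hS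
  have h := (measurePreserving_smul g (mu : Measure X)).setLIntegral_comp_preimage hm hφ
  rw [← h]
  have e : (fun x : X => g • x) ⁻¹' {z : X | g⁻¹ • z ∈ S} = S := by
    ext w
    simp
  rw [e]

private lemma W3_bxi {q : QD} (D : MC q) (i : Fin D.r) (z : X) :
    bxi D i z = {z : X | (D.g i)⁻¹ • z ∈ W3_box D (Set.Ioi D.h)}.indicator (fun _ => 1) z := by
  unfold bxi bx above
  by_cases h1 : ((D.g i)⁻¹ • z : X).1 ∈ D.K.Box
  · by_cases h2 : D.h < height ((D.g i)⁻¹ • z : X).1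
    · have h3 : z ∈ {z : X | (D.g i)⁻¹ • z ∈ W3_box D (Set.Ioi D.h)} := ⟨h1, h2⟩
      rw [Set.indicator_of_mem h3, Set.indicator_of_mem (Set.mem_Ioi.2 h2)]
      simp [h1]
    · have h3 : z ∉ {z : X | (D.g i)⁻¹ • z ∈ W3_box D (Set.Ioi D.h)} := fun h => h2 h.2
      have h4 : height ((D.g i)⁻¹ • z : X).1 ∉ Set.Ioi D.h := h2
      rw [Set.indicator_of_notMem h3, Set.indicator_of_notMem h4, mul_zero]
  · have h3 : z ∉ {z : X | (D.g i)⁻¹ • z ∈ W3_box D (Set.Ioi D.h)} := fun h => h1 h.1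
    rw [Set.indicator_of_notMem h3]
    simp [h1]

/-- an integral against the `i`-th part of the weight -/
private lemma W3_part {q : QD} (D : MC q) (i : Fin D.r) {φ : X → ℝ≥0∞} (hφ : Measurable φ) :
    ∫⁻ z, bxi D i z * (cnt D z)⁻¹ * φ z ∂mu =
      ∫⁻ w in W3_box D (Set.Ioi D.h), (cnt D (D.g i • w))⁻¹ * φ (D.g i • w) ∂mu := by
  have hm : MeasurableSet {z : X | (D.g i)⁻¹ • z ∈ W3_box D (Set.Ioi D.h)} :=
    (measurable_const_smul (D.g i)⁻¹) (W3_mbox D measurableSet_Ioi)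
  have hc : Measurable fun z : X => (cnt D z)⁻¹ * φ z := (measurable_cnt D).inv.mul hφ
  rw [← W3_subst (D.g i) (W3_mbox D measurableSet_Ioi) hc, ← lintegral_indicator hm]
  apply lintegral_congr
  intro z
  rw [W3_bxi]
  by_cases h : z ∈ {z : X | (D.g i)⁻¹ • z ∈ W3_box D (Set.Ioi D.h)}
  · rw [Set.indicator_of_mem h, Set.indicator_of_mem h, one_mul]
  · rw [Set.indicator_of_notMem h, Set.indicator_of_notMem h, zero_mul, zero_mul]

/-- the integral against the weight is the sum of its parts -/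
private lemma W3_sum {q : QD} (D : MC q) {φ : X → ℝ≥0∞} (hφ : Measurable φ) :
    ∫⁻ z, om D z * φ z ∂mu = ∑ i,
      ∫⁻ w in W3_box D (Set.Ioi D.h), (cnt D (D.g i • w))⁻¹ * φ (D.g i • w) ∂mu := by
  have e : ∀ z, om D z * φ z = ∑ i, bxi D i z * (cnt D z)⁻¹ * φ z := by
    intro z
    rw [om_eq, Finset.sum_mul]
  simp only [e]
  rw [lintegral_finsetSum]
  · exact Finset.sum_congr rfl fun i _ => W3_part D i hφ
  · intro i _
    exact ((measurable_bxi D i).mul (measurable_cnt D).inv).mul hφ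

/-- the low parts lie in the compact part -/
private lemma W3_low {q : QD} (D : MC q) {φ : X → ℝ≥0∞} (hφ : Measurable φ) :
    ∑ i, ∫⁻ w in W3_box D (Set.Ioc D.h (2 * top D)), (cnt D (D.g i • w))⁻¹ * φ (D.g i • w) ∂mu ≤
      ∫⁻ z in K0 D, om D z * φ z ∂mu := by
  have hc : Measurable fun z : X => (cnt D z)⁻¹ * φ z := (measurable_cnt D).inv.mul hφ
  have e : ∀ z, om D z * φ z = ∑ i, bxi D i z * ((cnt D z)⁻¹ * φ z) := by
    intro z
    rw [om_eq, Finset.sum_mul]
    exact Finset.sum_congr rfl fun i _ => mul_assoc _ _ _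
  simp only [e]
  rw [lintegral_finsetSum]
  swap
  · intro i _
    exact (measurable_bxi D i).mul hc
  apply Finset.sum_le_sum
  intro i _
  have hm : MeasurableSet {z : X | (D.g i)⁻¹ • z ∈ W3_box D (Set.Ioc D.h (2 * top D))} :=
    (measurable_const_smul (D.g i)⁻¹) (W3_mbox D measurableSet_Ioc)
  rw [← W3_subst (D.g i) (W3_mbox D measurableSet_Ioc) hc]
  refine le_trans (le_of_eq ?_) (lintegral_mono_set
    (s := {z : X | (D.g i)⁻¹ • z ∈ W3_box D (Set.Ioc D.h (2 * top D))}) ?_)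
  · apply setLIntegral_congr_fun hm
    intro z hz
    simp only
    rw [W3_bxi, Set.indicator_of_mem, one_mul]
    exact ⟨hz.1, hz.2.1⟩
  · intro z hz
    exact ⟨i, hz.1, hz.2.1, hz.2.2⟩

/-- Hardy's inequality at the `i`-th cusp for one conjugate -/
private lemma W3_hardy {q : QD} (D : MC q) {G : Subgroup (Gam q)} {f : ℂ × ℂ → ℂ}
    (hf : ContDiffOn ℝ 2 f U) (c : Gam q ⧸ G) (g : SU21) {h : ℝ} (hh : 0 < h) :
    ∫⁻ w in W3_box D (Set.Ioi (2 * h)),
        ENNReal.ofReal (Complex.normSq (conj G f c (g • w : X).1)) ∂mu ≤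
      (∫⁻ w in W3_box D (Set.Ioi h),
        ENNReal.ofReal (energy (fun z => (conj G f c z).re) (g • w : X).1 +
          energy (fun z => (conj G f c z).im) (g • w : X).1) ∂mu) +
        2 * ∫⁻ w in W3_box D (Set.Ioc h (2 * h)),
          ENNReal.ofReal (Complex.normSq (conj G f c (g • w : X).1)) ∂mu := by
  have hc := contDiffOn_conj (G := G) hf c
  have hre : ContDiffOn ℝ 1 (fun z => (conj G f c z).re) U :=
    Complex.reCLM.contDiff.comp_contDiffOn hc
  have him : ContDiffOn ℝ 1 (fun z => (conj G f c z).im) U :=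
    Complex.imCLM.contDiff.comp_contDiffOn hc
  have hF : ContDiffOn ℝ 1 (fun w => conj G f c (act (mat g) w)) U := by
    intro z hz
    apply ContDiffAt.contDiffWithinAt
    exact (hc.contDiffAt (isOpen_U.mem_nhds (act_mem_U _ hz))).comp z (contDiffAt_act _ hz)
  have key := hardy_box D.K hF hh
  have e1 : ∀ w : X, energy (fun z => (conj G f c (act (mat g) z)).re) w.1 =
      energy (fun z => (conj G f c z).re) (g • w : X).1 := fun w =>
    energy_comp (f := fun z => (conj G f c z).re) g w.2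
      ((hre.contDiffAt (isOpen_U.mem_nhds (act_mem_U _ w.2))).differentiableAt (by norm_num))
  have e2 : ∀ w : X, energy (fun z => (conj G f c (act (mat g) z)).im) w.1 =
      energy (fun z => (conj G f c z).im) (g • w : X).1 := fun w =>
    energy_comp (f := fun z => (conj G f c z).im) g w.2
      ((him.contDiffAt (isOpen_U.mem_nhds (act_mem_U _ w.2))).differentiableAt (by norm_num))
  simp only [e1, e2] at key
  exact key

/-- See `hardy_low` in `H56D/H3.lean` (one cusp). Let `A = ∫ om PhiS` (finite by `lintegral_PhiS` and `h.L2`),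
`E = ∫ om EnS ≤ (1 - ν²) A` (`energy_level`; if `f = 0` on `U` trivial), `T = top D = 4N²/h > h`. By `om_eq` both are sums over
the cusps `i` of integrals with the weight `bxi D i · cnt⁻¹`; after the substitution `z = g_i w`
(`measurePreserving_smul`) the `i`-th weight is `cnt (g_i w)⁻¹` on `{w ∈ Box, height w > h}`, and equal to `κ_i⁻¹`
for `height w > T` (`cnt_high`). For each coset `c` the function `F = fun w => conj G f c (act (mat (g_i)) w)` is `C¹` on
`U` and `hardy_box D.K` (with `T` for `h`) gives `∫_{Box, height > 2T} |F|² ≤ ∫_{Box, height > T} energy F +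
2 ∫_{Box, T < height ≤ 2T} |F|²`; `energy F w = energy (conj G f c) (g_i w)` (`energy_comp`), so summed over `c` and
multiplied by `κ_i⁻¹`: `A_high,i ≤ E_i + 2 A_low,i`, where `A_low,i` is the part of the `i`-th integral over
`h < height w ≤ 2T`, `A_i ≤ A_low,i + A_high,i`, `E_i` the `i`-th part of `E`. Sum over `i`:
`A ≤ 3 A_low + E ≤ 3 A_low + (1 - ν²) A`, and `A_low = ∑ i A_low,i ≤ ∫_{K0} om PhiS` (`om_eq`, definition of `K0`). -/
theorem hardy_low {q : QD} {D : MC q} {G : Subgroup (Gam q)} [G.FiniteIndex] {f : ℂ × ℂ → ℂ}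
    {l ν : ℝ} (h : Good D G f l) (hν0 : 0 < ν) (hν1 : ν ≤ 1) (hl : l ≤ 1 - ν ^ 2) :
    ENNReal.ofReal (ν ^ 2) * ∫⁻ z, om D z * PhiS G f z ∂mu ≤
      3 * ∫⁻ z in K0 D, om D z * PhiS G f z ∂mu := by
  have hfinq : Finite (Gam q ⧸ G) := Subgroup.finite_quotient_of_finiteIndex
  have hA : ∫⁻ z, om D z * PhiS G f z ∂mu ≠ ⊤ := by
    rw [← lintegral_PhiS D G h.smooth]
    exact h.L2
  by_cases hne : ∃ z ∈ U, f z ≠ 0
  swap
  · push Not at hne
    have h0 : ∫⁻ z, om D z * PhiS G f z ∂mu = 0 := by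
      rw [← lintegral_PhiS D G h.smooth]
      have : ∀ z : X, wG D G z * ENNReal.ofReal (Complex.normSq (f z.1)) = 0 := by
        intro z
        rw [hne z.1 z.2]
        simp
      simp only [this, lintegral_zero]
    rw [h0, mul_zero]
    exact zero_le
  have hE := (energy_level D h.smooth h.inv h.eig h.L2 hne).2
  rw [Complex.ofReal_re] at hE
  have hE' : ∫⁻ z, om D z * EnS G f z ∂mu ≤
      ENNReal.ofReal (1 - ν ^ 2) * ∫⁻ z, om D z * PhiS G f z ∂mu :=
    hE.trans (by gcongr)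
  have mP : Measurable (PhiS G f) := measurable_PhiS h.smooth
  have mE : Measurable (EnS G f) := measurable_EnS h.smooth
  have hh := D.hh
  have hN : (1 : ℝ) ≤ D.N := by exact_mod_cast D.hN
  have hT0 : 0 < top D := by
    unfold top
    positivity
  have hTh : D.h < top D := by
    unfold top
    rw [lt_div_iff₀ hh]
    nlinarith [D.h1]
  refine (W3_arith hA hν0 hν1 ?_ hE').trans (mul_le_mul_right (W3_low D mP) 3)
  rw [W3_sum D mP, W3_sum D mE, Finset.mul_sum, ← Finset.sum_add_distrib,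
    ← Finset.sum_add_distrib]
  apply Finset.sum_le_sum
  intro i _
  obtain ⟨κ, hκ1, hκt, hκ⟩ := cnt_high D i
  have mPg : Measurable fun w : X => PhiS G f (D.g i • w) := mP.comp (measurable_const_smul (D.g i))
  have mEg : Measurable fun w : X => EnS G f (D.g i • w) := mE.comp (measurable_const_smul (D.g i))
  have mcg : Measurable fun w : X => (cnt D (D.g i • w))⁻¹ :=
    ((measurable_cnt D).comp (measurable_const_smul (D.g i))).inv
  -- split
  have s1 : ∫⁻ w in W3_box D (Set.Ioi D.h), (cnt D (D.g i • w))⁻¹ * PhiS G f (D.g i • w) ∂mu ≤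
      (∫⁻ w in W3_box D (Set.Ioc D.h (2 * top D)),
        (cnt D (D.g i • w))⁻¹ * PhiS G f (D.g i • w) ∂mu) +
      ∫⁻ w in W3_box D (Set.Ioi (2 * top D)),
        (cnt D (D.g i • w))⁻¹ * PhiS G f (D.g i • w) ∂mu := by
    rw [← lintegral_union (W3_mbox D measurableSet_Ioi)]
    · apply lintegral_mono_set
      intro w hw
      by_cases h2 : height w.1 ≤ 2 * top D
      · exact Or.inl ⟨hw.1, hw.2, h2⟩
      · exact Or.inr ⟨hw.1, lt_of_not_ge h2⟩
    · rw [Set.disjoint_left]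
      intro w hw hw'
      exact absurd hw'.2 (not_lt.2 hw.2.2)
  refine s1.trans ?_
  gcongr
  -- the high part
  have s2 : ∫⁻ w in W3_box D (Set.Ioi (2 * top D)),
      (cnt D (D.g i • w))⁻¹ * PhiS G f (D.g i • w) ∂mu =
      κ⁻¹ * ∫⁻ w in W3_box D (Set.Ioi (2 * top D)), PhiS G f (D.g i • w) ∂mu := by
    rw [← lintegral_const_mul _ mPg]
    apply setLIntegral_congr_fun (W3_mbox D measurableSet_Ioi)
    intro w hw
    have hw2 : 2 * top D < height w.1 := hw.2
    simp only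
    rw [hκ w hw.1 (by linarith)]
  have s3 : κ⁻¹ * ∫⁻ w in W3_box D (Set.Ioi (top D)), EnS G f (D.g i • w) ∂mu ≤
      ∫⁻ w in W3_box D (Set.Ioi D.h), (cnt D (D.g i • w))⁻¹ * EnS G f (D.g i • w) ∂mu := by
    rw [← lintegral_const_mul _ mEg]
    have hsub : W3_box D (Set.Ioi (top D)) ⊆ W3_box D (Set.Ioi D.h) := by
      intro w hw
      exact ⟨hw.1, hTh.trans hw.2⟩
    refine le_trans (le_of_eq ?_) (lintegral_mono_set hsub)
    apply setLIntegral_congr_fun (W3_mbox D measurableSet_Ioi)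
    intro w hw
    simp only
    rw [hκ w hw.1 hw.2]
  have s4 : κ⁻¹ * ∫⁻ w in W3_box D (Set.Ioc (top D) (2 * top D)), PhiS G f (D.g i • w) ∂mu ≤
      ∫⁻ w in W3_box D (Set.Ioc D.h (2 * top D)),
        (cnt D (D.g i • w))⁻¹ * PhiS G f (D.g i • w) ∂mu := by
    rw [← lintegral_const_mul _ mPg]
    have hsub : W3_box D (Set.Ioc (top D) (2 * top D)) ⊆
        W3_box D (Set.Ioc D.h (2 * top D)) := by
      intro w hw
      exact ⟨hw.1, hTh.trans hw.2.1, hw.2.2⟩
    refine le_trans (le_of_eq ?_) (lintegral_mono_set hsub)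
    apply setLIntegral_congr_fun (W3_mbox D measurableSet_Ioc)
    intro w hw
    simp only
    rw [hκ w hw.1 hw.2.1]
  have mPq : ∀ c : Gam q ⧸ G, Measurable fun z : X =>
      ENNReal.ofReal (Complex.normSq (conj G f c z.1)) := fun c =>
    (ENNReal.continuous_ofReal.comp (Complex.continuous_normSq.comp
      (continuousOn_iff_continuous_domRestrict.mp
        (contDiffOn_conj (G := G) h.smooth c).continuousOn))).measurable
  have mPqg : ∀ c : Gam q ⧸ G, Measurable fun w : X =>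
      ENNReal.ofReal (Complex.normSq (conj G f c (D.g i • w : X).1)) := fun c =>
    (mPq c).comp (measurable_const_smul (D.g i))
  have mEqg : ∀ c : Gam q ⧸ G, Measurable fun w : X =>
      ENNReal.ofReal (energy (fun z => (conj G f c z).re) (D.g i • w : X).1 +
        energy (fun z => (conj G f c z).im) (D.g i • w : X).1) := fun c =>
    (measurable_energy h.smooth c).comp (measurable_const_smul (D.g i))
  have s5 : ∫⁻ w in W3_box D (Set.Ioi (2 * top D)), PhiS G f (D.g i • w) ∂mu ≤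
      (∫⁻ w in W3_box D (Set.Ioi (top D)), EnS G f (D.g i • w) ∂mu) +
        2 * ∫⁻ w in W3_box D (Set.Ioc (top D) (2 * top D)), PhiS G f (D.g i • w) ∂mu := by
    unfold PhiS EnS
    rw [lintegral_tsum fun c => (mPqg c).aemeasurable,
      lintegral_tsum fun c => (mEqg c).aemeasurable,
      lintegral_tsum fun c => (mPqg c).aemeasurable, ← ENNReal.tsum_mul_left, ← ENNReal.tsum_add]
    exact ENNReal.tsum_le_tsum fun c => W3_hardy D h.smooth c (D.g i) hT0
  calc ∫⁻ w in W3_box D (Set.Ioi (2 * top D)), (cnt D (D.g i • w))⁻¹ * PhiS G f (D.g i • w) ∂mu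
      = κ⁻¹ * ∫⁻ w in W3_box D (Set.Ioi (2 * top D)), PhiS G f (D.g i • w) ∂mu := s2
    _ ≤ κ⁻¹ * ((∫⁻ w in W3_box D (Set.Ioi (top D)), EnS G f (D.g i • w) ∂mu) +
        2 * ∫⁻ w in W3_box D (Set.Ioc (top D) (2 * top D)), PhiS G f (D.g i • w) ∂mu) := by
      gcongr
    _ = κ⁻¹ * (∫⁻ w in W3_box D (Set.Ioi (top D)), EnS G f (D.g i • w) ∂mu) +
        2 * (κ⁻¹ * ∫⁻ w in W3_box D (Set.Ioc (top D) (2 * top D)), PhiS G f (D.g i • w) ∂mu) := by
      ring
    _ ≤ _ := by gcongr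

end

end Pool.Agent.Lib.H56M
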