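import Pool.Agent.Lib.H56M.Defs
import Pool.Agent.Lib.H56D.S6
import Pool.Agent.Lib.H56D.S5
import Pool.Agent.Lib.H56D.S3

/-!
# C1: polynomial growth, uniform in the point
-/

namespace Pool.Agent.Lib.H56M

open Matrix hiding J
open MeasureTheory Topology Filter
open Pool.Agent.Lib.H56.Picard hiding O Gam mem_Gam star_mem_O T_mem sg_mem
open Pool.Agent.Lib.H56.Gen
open Pool.Agent.Lib.H56D hiding om wG rho Eig Good K0
open scoped ENNReal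

noncomputable section

/-- `exists_mid` with `1 ≤ σ(m,y)`: `1 + √σ(x,x') ≤ σ(x,y) + σ(x',y)`. -/
theorem sgm_le_sq {x y x' : ℂ × ℂ} (hx : x ∈ U) (hy : y ∈ U) (hx' : x' ∈ U) :
    sgm x x' ≤ (sgm x y + sgm x' y) ^ 2 := by
  obtain ⟨m, hm, h⟩ := exists_mid hx hx'
  have h1 := h y hy
  have h2 := one_le_sgm hm hy
  have h3 := one_le_sgm hx hx'
  have h4 : 0 ≤ √(sgm x x') := Real.sqrt_nonneg _
  have h5 : √(sgm x x') ≤ sgm x y + sgm x' y := by nlinarith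
  calc sgm x x' = √(sgm x x') ^ 2 := (Real.sq_sqrt (by linarith)).symm
    _ ≤ _ := pow_le_pow_left₀ h4 h5 2

theorem C1_coord {q : QD} {a b : ℤ} {κ : ℝ} (h : ‖el q a b‖ ≤ κ) :
    |(a : ℝ)| ≤ 2 * (1 + |(q.t : ℝ)|) * κ ∧ |(b : ℝ)| ≤ 2 * (1 + |(q.t : ℝ)|) * κ := by
  have hκ : 0 ≤ κ := (norm_nonneg _).trans h
  have h1 := (Complex.abs_im_le_norm (el q a b)).trans h
  have h2 := (Complex.abs_re_le_norm (el q a b)).trans h
  rw [el_im, abs_div, abs_mul, abs_of_pos (sd_pos q), abs_of_pos (by norm_num : (0:ℝ) < 2)] at h1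
  rw [el_re] at h2
  have hs : 1 ≤ sd q := by
    have h3 := sd_sq q
    have h4 := sd_pos q
    have h5 : (1 : ℝ) ≤ dd q := by exact_mod_cast dd_pos q
    nlinarith
  have hb : |(b : ℝ)| ≤ 2 * κ := by
    have := abs_nonneg (b : ℝ)
    nlinarith
  have ht := abs_nonneg (q.t : ℝ)
  have ha : |(a : ℝ)| ≤ |(a : ℝ) + b * q.t / 2| + |(b : ℝ) * q.t / 2| := by
    calc |(a : ℝ)| = |((a : ℝ) + b * q.t / 2) - b * q.t / 2| := by ring_nf
      _ ≤ _ := abs_sub _ _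
  rw [abs_div, abs_mul, abs_of_pos (by norm_num : (0 : ℝ) < 2)] at ha
  have h6 : |(b : ℝ)| * |(q.t : ℝ)| ≤ 2 * κ * |(q.t : ℝ)| := mul_le_mul_of_nonneg_right hb ht
  have h7 : 0 ≤ κ * |(q.t : ℝ)| := mul_nonneg hκ ht
  constructor
  · linarith
  · linarith

/-- counting matrices over the order with bounded entries -/
theorem C1_count (q : QD) : ∃ c : ℝ, 1 ≤ c ∧ ∀ κ : ℝ, 1 ≤ κ → ∀ S : Set (Matrix (Fin 3) (Fin 3) ℂ),
    (∀ M ∈ S, ∀ i j, M i j ∈ OO q ∧ ‖M i j‖ ≤ κ) → S.Finite ∧ (S.ncard : ℝ) ≤ c * κ ^ 18 := by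
  classical
  obtain ⟨c, hc⟩ : ∃ c : ℝ, c = 2 * (1 + |(q.t : ℝ)|) := ⟨_, rfl⟩
  have hc2 : 2 ≤ c := by
    have := abs_nonneg (q.t : ℝ)
    rw [hc]
    linarith
  refine ⟨(3 * c) ^ 18, one_le_pow₀ (by linarith), ?_⟩
  intro κ hκ S hS
  have hE : ∀ M ∈ S, ∀ i j, ∃ p : ℤ × ℤ, M i j = el q p.1 p.2 := by
    intro M hM i j
    obtain ⟨a, b, h⟩ := (hS M hM i j).1
    exact ⟨(a, b), h⟩
  choose! Φ hΦ using hE
  obtain ⟨N, hN⟩ : ∃ N : ℕ, N = ⌊c * κ⌋₊ := ⟨_, rfl⟩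
  have hck : 0 ≤ c * κ := by positivity
  have hNle : (N : ℝ) ≤ c * κ := by rw [hN]; exact Nat.floor_le hck
  obtain ⟨F, hF⟩ : ∃ F : Finset (Fin 3 → Fin 3 → ℤ × ℤ), F = Fintype.piFinset (fun _ : Fin 3 =>
    Fintype.piFinset (fun _ : Fin 3 => (Finset.Icc (-(N : ℤ)) N) ×ˢ (Finset.Icc (-(N : ℤ)) N))) :=
    ⟨_, rfl⟩
  have hbd : ∀ x : ℤ, |(x : ℝ)| ≤ c * κ → x ∈ Finset.Icc (-(N : ℤ)) N := by
    intro x hx
    have h1 : x.natAbs ≤ N := by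
      rw [hN, Nat.le_floor_iff hck, Nat.cast_natAbs]
      push_cast
      exact hx
    rw [Finset.mem_Icc]
    omega
  have hmaps : ∀ M ∈ S, Φ M ∈ (F : Set (Fin 3 → Fin 3 → ℤ × ℤ)) := by
    intro M hM
    rw [Finset.mem_coe, hF, Fintype.mem_piFinset]
    intro i
    rw [Fintype.mem_piFinset]
    intro j
    have h1 := (hS M hM i j).2
    rw [hΦ M hM i j] at h1
    obtain ⟨h2, h3⟩ := C1_coord h1
    rw [← hc] at h2 h3
    rw [Finset.mem_product]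
    exact ⟨hbd _ h2, hbd _ h3⟩
  have hinj : Set.InjOn Φ S := by
    intro M hM M' hM' h
    refine Matrix.ext fun i j => ?_
    rw [hΦ M hM i j, hΦ M' hM' i j, h]
  refine ⟨Set.Finite.of_injOn hmaps hinj (Finset.finite_toSet _), ?_⟩
  have h1 := Set.ncard_le_ncard_of_injOn _ hmaps hinj (Finset.finite_toSet _)
  rw [Set.ncard_coe_finset] at h1
  have h2 : F.card = (2 * N + 1) ^ 18 := by
    have h3 : (Finset.Icc (-(N : ℤ)) N).card = 2 * N + 1 := by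
      rw [Int.card_Icc]
      omega
    rw [hF, Fintype.card_piFinset, Finset.prod_const, Fintype.card_piFinset, Finset.prod_const,
      Finset.card_product, h3, Finset.card_univ, Fintype.card_fin]
    ring
  rw [h2] at h1
  have h3 : (S.ncard : ℝ) ≤ (2 * N + 1 : ℝ) ^ 18 := by
    have h4 : (S.ncard : ℝ) ≤ (((2 * N + 1) ^ 18 : ℕ) : ℝ) := Nat.cast_le.2 h1
    rw [Nat.cast_pow, Nat.cast_add, Nat.cast_mul, Nat.cast_ofNat, Nat.cast_one] at h4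
    exact h4
  have h5 : (0 : ℝ) ≤ 2 * N + 1 :=
    add_nonneg (mul_nonneg zero_le_two (Nat.cast_nonneg _)) zero_le_one
  have h6 : (2 * N + 1 : ℝ) ≤ 3 * c * κ := by
    clear h1 h2 h3
    nlinarith
  have h7 : (2 * N + 1 : ℝ) ^ 18 ≤ (3 * c * κ) ^ 18 := pow_le_pow_left₀ h5 h6 18
  have h8 : (3 * c * κ) ^ 18 = (3 * c) ^ 18 * κ ^ 18 := mul_pow _ _ _
  rw [h8] at h7
  exact h3.trans h7

/-- If the set is empty there is nothing to prove. Let `γ₀` be in it, `w = γ₀ z`. For `γ` in the set and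
`δ = γ γ₀⁻¹`: `σ(o, δ w) ≤ R` and `σ(δ o, δ w) = σ(o, w) ≤ R` (`sgm_act`), so `σ(o, δ o) ≤ 4 R²` (`sgm_le_sq`)
and `fro δ ≤ 4 C₁ R²` (`fro_le` for the compact set `{o}`): all entries of `δ` are elements `el q a b` of the
order of absolute value at most `2 √C₁ R`, so `|b| ≤ c R`, `|a| ≤ c R` (`normSq_el`, `dd_pos`), at most
`(2cR + 1)²` values for each of the nine entries; `γ ↦ δ` is injective. `A = 18`. -/
theorem growth (q : QD) : ∃ C : ℝ, 1 ≤ C ∧ ∀ z ∈ U, ∀ R : ℝ, 1 ≤ R →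
    {γ : Gam q | sgm o (act (mat γ.1) z) ≤ R}.Finite ∧
      ({γ : Gam q | sgm o (act (mat γ.1) z) ≤ R}.ncard : ℝ) ≤ C * R ^ 18 := by
  obtain ⟨c, hc1, hcount⟩ := C1_count q
  obtain ⟨C₁, hC₁, hfro⟩ := fro_le (K := {o}) isCompact_singleton (by
    rintro x rfl
    exact o_mem)
  obtain ⟨K, hK⟩ : ∃ K : ℝ, K = 1 + 2 * √C₁ := ⟨_, rfl⟩
  have hK1 : 1 ≤ K := by
    have := Real.sqrt_nonneg C₁
    rw [hK]
    linarith
  refine ⟨c * K ^ 18, by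
    have := one_le_pow₀ hK1 (n := 18)
    nlinarith, ?_⟩
  intro z hz R hR
  obtain ⟨S, hS⟩ : ∃ S : Set (Gam q), S = {γ : Gam q | sgm o (act (mat γ.1) z) ≤ R} := ⟨_, rfl⟩
  rw [← hS]
  rcases S.eq_empty_or_nonempty with h0 | ⟨γ₀, h₀⟩
  · rw [h0]
    refine ⟨Set.finite_empty, ?_⟩
    rw [Set.ncard_empty, Nat.cast_zero]
    positivity
  have hKR : 1 ≤ K * R := by nlinarith
  have hent : ∀ γ ∈ S, ∀ i j, mat (γ * γ₀⁻¹).1 i j ∈ OO q ∧ ‖mat (γ * γ₀⁻¹).1 i j‖ ≤ K * R := by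
    intro γ hγ i j
    refine ⟨(γ * γ₀⁻¹).2 i j, ?_⟩
    rw [hS, Set.mem_ofPred_eq] at hγ h₀
    have hw : act (mat γ₀.1) z ∈ U := height_act_pos (mat_unitary _) hz
    have e1 : act (mat (γ * γ₀⁻¹).1) (act (mat γ₀.1) z) = act (mat γ.1) z := by
      rw [act_act _ _ hz]
      have e0 : (γ * γ₀⁻¹).1 * γ₀.1 = γ.1 := by
        show (γ * γ₀⁻¹ * γ₀).1 = γ.1
        rw [inv_mul_cancel_right]
      rw [e0]
    have hδo : act (mat (γ * γ₀⁻¹).1) o ∈ U := height_act_pos (mat_unitary _) o_mem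
    have hγz : act (mat γ.1) z ∈ U := height_act_pos (mat_unitary _) hz
    have h1 := sgm_le_sq (x := o) (y := act (mat γ.1) z) (x' := act (mat (γ * γ₀⁻¹).1) o)
      o_mem hγz hδo
    have h2 : sgm (act (mat (γ * γ₀⁻¹).1) o) (act (mat γ.1) z) ≤ R := by
      rw [← e1, sgm_act _ o_mem hw]
      exact h₀
    have h3 : 0 ≤ sgm o (act (mat γ.1) z) := by linarith [one_le_sgm o_mem hγz]
    have h4 : 0 ≤ sgm (act (mat (γ * γ₀⁻¹).1) o) (act (mat γ.1) z) := by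
      linarith [one_le_sgm hδo hγz]
    have h5 : sgm o (act (mat (γ * γ₀⁻¹).1) o) ≤ (2 * R) ^ 2 := by
      refine h1.trans (pow_le_pow_left₀ (by linarith) (by linarith) 2)
    have h6 := hfro o rfl (γ * γ₀⁻¹).1
    have h7 : Complex.normSq (mat (γ * γ₀⁻¹).1 i j) ≤ fro (γ * γ₀⁻¹).1 := by
      unfold fro
      refine le_trans (Finset.single_le_sum
        (f := fun j => Complex.normSq (mat (γ * γ₀⁻¹).1 i j))
        (fun _ _ => Complex.normSq_nonneg _) (Finset.mem_univ j)) ?_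
      exact Finset.single_le_sum (f := fun i => ∑ j, Complex.normSq (mat (γ * γ₀⁻¹).1 i j))
        (fun _ _ => Finset.sum_nonneg fun _ _ => Complex.normSq_nonneg _) (Finset.mem_univ i)
    have h8 : ‖mat (γ * γ₀⁻¹).1 i j‖ ^ 2 ≤ (2 * √C₁ * R) ^ 2 := by
      rw [← Complex.normSq_eq_norm_sq]
      calc Complex.normSq (mat (γ * γ₀⁻¹).1 i j) ≤ C₁ * (2 * R) ^ 2 :=
            h7.trans (h6.trans (mul_le_mul_of_nonneg_left h5 hC₁.le))
        _ = (2 * √C₁ * R) ^ 2 := by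
            rw [mul_pow, mul_pow, mul_pow, Real.sq_sqrt hC₁.le]
            ring
    have h9 : ‖mat (γ * γ₀⁻¹).1 i j‖ ≤ 2 * √C₁ * R :=
      le_of_sq_le_sq h8 (by positivity)
    rw [hK]
    nlinarith
  obtain ⟨hf, hn⟩ := hcount (K * R) hKR ((fun γ : Gam q => mat (γ * γ₀⁻¹).1) '' S) (by
    rintro M ⟨γ, hγ, rfl⟩ i j
    exact hent γ hγ i j)
  have hinj : Set.InjOn (fun γ : Gam q => mat (γ * γ₀⁻¹).1) S := by
    intro γ _ γ' _ h
    have h1 := mat_injective h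
    have h2 : γ * γ₀⁻¹ = γ' * γ₀⁻¹ := Subtype.ext h1
    exact mul_right_cancel h2
  refine ⟨hf.of_finite_image hinj, ?_⟩
  rw [Set.ncard_image_of_injOn hinj] at hn
  calc (S.ncard : ℝ) ≤ c * (K * R) ^ 18 := hn
    _ = c * K ^ 18 * R ^ 18 := by rw [mul_pow]; ring

end

end Pool.Agent.Lib.H56M
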