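import Pool.Agent.Lib.H56M.Defs
import Pool.Agent.Lib.H56D.B1
import Pool.Agent.Lib.H56D.S3

/-!
# C2: the radial test function
-/

namespace Pool.Agent.Lib.H56M

open Matrix hiding J
open MeasureTheory Topology Filter
open Pool.Agent.Lib.H56.Picard hiding O Gam mem_Gam star_mem_O T_mem sg_mem
open Pool.Agent.Lib.H56.Gen
open Pool.Agent.Lib.H56D hiding om wG rho Eig Good K0
open scoped ENNReal

noncomputable section

/-- The radial test function `(1/σ(o,z) - 1/R)₊²⁰` of compact support. -/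
def hR (R : ℝ) (z : ℂ × ℂ) : ℝ := ker 20 R o z / (R * sgm o z) ^ 20

theorem c2_max {R s : ℝ} (hR0 : 1 ≤ R) (hs : 1 ≤ s) :
    max (R - s) 0 / (R * s) = max (s⁻¹ - R⁻¹) 0 := by
  have h1 : (R - s) / (R * s) = s⁻¹ - R⁻¹ := by
    field_simp
  rw [← h1]
  have h2 : 0 < R * s := by positivity
  rcases le_total 0 (R - s) with h | h
  · rw [max_eq_left h, max_eq_left (div_nonneg h h2.le)]
  · rw [max_eq_right h, max_eq_right (div_nonpos_of_nonpos_of_nonneg h h2.le), zero_div]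

theorem c2_eq (p : ℕ) {R : ℝ} (hR0 : 1 ≤ R) {z : ℂ × ℂ} (hz : z ∈ U) :
    ker p R o z / (R * sgm o z) ^ p = (max ((sgm o z)⁻¹ - R⁻¹) 0) ^ p := by
  rw [b1_ker_of_mem p R hz, ← div_pow, c2_max hR0 (one_le_sgm o_mem hz)]

/-- For `z ∈ U`: `ker 20 R o z = (max (R - σ) 0)^20`, `σ ≥ 1`. -/
theorem hR_eq {R : ℝ} (hR0 : 1 ≤ R) {z : ℂ × ℂ} (hz : z ∈ U) :
    hR R z = (max ((sgm o z)⁻¹ - R⁻¹) 0) ^ 20 :=
  c2_eq 20 hR0 hz

theorem hR_nonneg {R : ℝ} (hR0 : 1 ≤ R) (z : ℂ × ℂ) : 0 ≤ hR R z := by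
  unfold hR
  exact div_nonneg (ker_nonneg _ _ _ _) (Even.pow_nonneg ⟨10, rfl⟩ _)

/-- `ker_zero`. -/
theorem hR_zero {R : ℝ} {z : ℂ × ℂ} (hz : z ∉ ball o R) : hR R z = 0 := by
  unfold hR
  rw [ker_zero (by norm_num) hz, zero_div]

theorem c2_contDiff (p : ℕ) (hp : 2 ≤ p) {R : ℝ} (hR0 : 1 ≤ R) :
    ContDiff ℝ 1 (fun z => ker p R o z / (R * sgm o z) ^ p) := by
  rw [contDiff_iff_contDiffAt]
  intro w
  by_cases hw : w ∈ U
  · have h1 : ContDiffAt ℝ 1 (sgm o) w :=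
      ((contDiffOn_sgm o_mem).contDiffAt (isOpen_U.mem_nhds hw)).of_le (by norm_num)
    have h2 : ContDiffAt ℝ 1 (ker p R o) w := (ker_contDiff hp R o_mem).contDiffAt
    have h3 : ContDiffAt ℝ 1 (fun z => (R * sgm o z) ^ p) w := (contDiffAt_const.mul h1).pow p
    refine h2.div h3 ?_
    have h4 := one_le_sgm o_mem hw
    exact pow_ne_zero p (by positivity)
  · have h1 : w ∈ (ball o R)ᶜ := fun h => hw (ball_subset_U o R h)
    have h2 : IsOpen (ball o R)ᶜ := (isCompact_ball o_mem R).isClosed.isOpen_compl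
    refine (contDiffAt_const (c := (0 : ℝ))).congr_of_eventuallyEq ?_
    filter_upwards [h2.mem_nhds h1] with z hz
    rw [ker_zero (by omega) hz, zero_div]

/-- On `U` a quotient of `C¹` functions (`ker_contDiff`, `contDiffOn_sgm`, `σ ≥ 1`); outside of the compact set
`ball o R ⊆ U` it vanishes identically on an open set. -/
theorem hR_contDiff {R : ℝ} (hR0 : 1 ≤ R) : ContDiff ℝ 1 (hR R) :=
  c2_contDiff 20 (by norm_num) hR0

/-- The support is contained in the compact set `ball o R ⊆ U` (`isCompact_ball`). -/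
theorem hR_tsupport {R : ℝ} : tsupport (hR R) ⊆ ball o R := by
  refine closure_minimal ?_ (isCompact_ball o_mem R).isClosed
  intro w hw
  by_contra hcon
  exact hw (hR_zero hcon)

theorem c2_ineq (p : ℕ) {x r : ℝ} (hx : 0 ≤ x) (hr : 0 ≤ r) :
    x ^ p * (x + r) ≤ 2 * x ^ (p + 1) + r ^ (p + 1) := by
  have h1 : x ^ p * r ≤ x ^ (p + 1) + r ^ (p + 1) := by
    rcases le_total r x with h | h
    · have h2 : x ^ p * r ≤ x ^ p * x := mul_le_mul_of_nonneg_left h (pow_nonneg hx p)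
      have h3 : 0 ≤ r ^ (p + 1) := pow_nonneg hr _
      rw [pow_succ x p]
      linarith
    · have h2 : x ^ p * r ≤ r ^ p * r := mul_le_mul_of_nonneg_right (pow_le_pow_left₀ hx h p) hr
      have h3 : 0 ≤ x ^ (p + 1) := pow_nonneg hx _
      rw [pow_succ r p]
      linarith
  have h4 : x ^ p * (x + r) = x ^ (p + 1) + x ^ p * r := by rw [pow_succ]; ring
  rw [h4]
  linarith

theorem c2_normL (p : ℕ) (hp : 1 ≤ p) {R : ℝ} (hR0 : 1 ≤ R) {z : ℂ × ℂ} (hz : z ∈ U) :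
    normL z (fderiv ℝ (fun z => ker (p + 1) R o z / (R * sgm o z) ^ (p + 1)) z) ≤
      ((p + 1) * (2 * (max ((sgm o z)⁻¹ - R⁻¹) 0) ^ (p + 1) +
        (if sgm o z ≤ R then R⁻¹ ^ (p + 1) else 0))) ^ 2 := by
  have hz0 : 0 < height z := hz
  have hs := one_le_sgm o_mem hz
  have he : (fun z => ker (p + 1) R o z / (R * sgm o z) ^ (p + 1)) =ᶠ[𝓝 z]
      fun w => (max ((sgm o w)⁻¹ - R⁻¹) 0) ^ (p + 1) := by
    filter_upwards [isOpen_U.mem_nhds hz] with w hw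
    exact c2_eq (p + 1) hR0 hw
  rw [he.fderiv_eq]
  have h1 : DifferentiableAt ℝ (sgm o) z :=
    ((contDiffOn_sgm o_mem).contDiffAt (isOpen_U.mem_nhds hz)).differentiableAt (by norm_num)
  have hs0 : sgm o z ≠ 0 := by positivity
  have h2 : HasFDerivAt (fun w => (sgm o w)⁻¹ - R⁻¹) ((-(sgm o z ^ 2)⁻¹) • fderiv ℝ (sgm o) z) z := by
    have h3 := (hasDerivAt_inv hs0).comp_hasFDerivAt z h1.hasFDerivAt
    exact h3.sub_const _
  have h3 := (b1_deriv hp ((sgm o z)⁻¹ - R⁻¹)).comp_hasFDerivAt z h2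
  have h4 : HasFDerivAt (fun w => (max ((sgm o w)⁻¹ - R⁻¹) 0) ^ (p + 1)) _ z := h3
  rw [h4.fderiv, smul_smul, normL_smul, normL_sgm o_mem hz]
  obtain ⟨x, hx⟩ : ∃ x, x = max ((sgm o z)⁻¹ - R⁻¹) 0 := ⟨_, rfl⟩
  obtain ⟨s, hs'⟩ : ∃ s, s = sgm o z := ⟨_, rfl⟩
  rw [← hx]
  rw [← hs'] at hs hx ⊢
  have hx0 : 0 ≤ x := by rw [hx]; exact le_max_right _ _
  have hp0 : (0 : ℝ) ≤ p + 1 := by positivity
  have h5 : ((p + 1) * x ^ p * -(s ^ 2)⁻¹) ^ 2 * (s * (s - 1)) ≤ ((p + 1) * (x ^ p * s⁻¹)) ^ 2 := by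
    have h6 : ((p + 1) * x ^ p * -(s ^ 2)⁻¹) ^ 2 * (s * (s - 1)) =
        ((p + 1) * (x ^ p * s⁻¹)) ^ 2 * ((s - 1) / s) := by
      field_simp
    rw [h6]
    have h7 : (s - 1) / s ≤ 1 := by
      rw [div_le_one (by linarith)]
      linarith
    exact mul_le_of_le_one_right (sq_nonneg _) h7
  refine h5.trans ?_
  apply pow_le_pow_left₀ (by positivity)
  apply mul_le_mul_of_nonneg_left _ hp0
  by_cases hsR : s ≤ R
  · rw [if_pos hsR]
    have h6 : x = s⁻¹ - R⁻¹ := by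
      rw [hx, max_eq_left]
      have : R⁻¹ ≤ s⁻¹ := inv_anti₀ (by linarith) hsR
      linarith
    have h7 : s⁻¹ = x + R⁻¹ := by rw [h6]; ring
    rw [h7]
    exact c2_ineq p hx0 (inv_nonneg.2 (by linarith))
  · rw [if_neg hsR]
    push Not at hsR
    have h6 : x = 0 := by
      rw [hx, max_eq_right]
      have : s⁻¹ ≤ R⁻¹ := inv_anti₀ (by linarith) hsR.le
      linarith
    rw [h6, zero_pow (by omega), zero_pow (by omega)]
    simp

/-- Chain rule on `U`: with `x = (1/σ - 1/R)₊` the derivative is `-20 x¹⁹ σ⁻² dσ`, and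
`normL (dσ) = σ(σ-1) ≤ σ²` (`normL_sgm`), so `normL (d hR) ≤ (20 x¹⁹/σ)²`; if `σ > R` it is zero. For `σ ≤ R`:
`x¹⁹/σ = x¹⁹ (x + 1/R) ≤ x²⁰ + x¹⁹/R ≤ 2 x²⁰ + R⁻²⁰` (compare `x` with `1/R`). -/
theorem normL_hR {R : ℝ} (hR0 : 1 ≤ R) {z : ℂ × ℂ} (hz : z ∈ U) :
    normL z (fderiv ℝ (hR R) z) ≤ (20 * (2 * hR R z + (if sgm o z ≤ R then R⁻¹ ^ 20 else 0))) ^ 2 := by
  have h := c2_normL 19 (by norm_num) hR0 hz
  have e1 : (fun z => ker (19 + 1) R o z / (R * sgm o z) ^ (19 + 1)) = hR R := rfl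
  have e2 : ((19 : ℕ) : ℝ) + 1 = 20 := by norm_num
  rw [e1, e2] at h
  rw [hR_eq hR0 hz]
  exact h

end

end Pool.Agent.Lib.H56M
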