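import Pool.Agent.Lib.H56M.C1
import Pool.Agent.Lib.H56M.C2

/-!
# C3: the periodised test function
-/

namespace Pool.Agent.Lib.H56M

open Matrix hiding J
open MeasureTheory Topology Filter
open Pool.Agent.Lib.H56.Picard hiding O Gam mem_Gam star_mem_O T_mem sg_mem
open Pool.Agent.Lib.H56.Gen
open Pool.Agent.Lib.H56D hiding om wG rho Eig Good K0
open scoped ENNReal

noncomputable section

theorem c3_hGd {q : QD} {G : Subgroup SU21} (hG : G ≤ Gam q) (B : ℝ) :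
    {γ : G | ∀ i j, ‖mat γ.1 i j‖ ≤ B}.Finite := by
  obtain ⟨c, -, hc⟩ := C1_count q
  obtain ⟨hf, -⟩ := hc (max B 1) (le_max_right _ _)
    ((fun γ : G => mat γ.1) '' {γ : G | ∀ i j, ‖mat γ.1 i j‖ ≤ B}) (by
      rintro M ⟨γ, hγ, rfl⟩ i j
      exact ⟨hG γ.2 i j, (hγ i j).trans (le_max_left _ _)⟩)
  refine hf.of_finite_image ?_
  intro γ _ γ' _ h
  exact Subtype.ext (mat_injective h)

theorem c3_add_le {z : ℂ × ℂ} (hz : z ∈ U) {L M : ℂ × ℂ →L[ℝ] ℝ} {a b : ℝ} (ha : 0 ≤ a) (hb : 0 ≤ b)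
    (hL : normL z L ≤ a ^ 2) (hM : normL z M ≤ b ^ 2) : normL z (L + M) ≤ (a + b) ^ 2 := by
  have hz0 : 0 ≤ height z := le_of_lt hz
  have h1 := Bf_polar z L M
  have h2 := Bf_sq_le hz0 L M
  have h3 := normL_nonneg hz0 L
  have h4 := normL_nonneg hz0 M
  have h5 : normL z L * normL z M ≤ (a * b) ^ 2 := by
    rw [mul_pow]
    exact mul_le_mul hL hM h4 (sq_nonneg _)
  have h6 : Bf z L M ≤ a * b :=
    le_of_sq_le_sq (h2.trans h5) (mul_nonneg ha hb)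
  nlinarith

/-- The square root of `normL` is a seminorm: `normL = Bf` (`Bf_self`), Cauchy-Schwarz `Bf_sq_le`; induction
on `S`. -/
theorem normL_sum_le {ι : Type*} (S : Finset ι) {z : ℂ × ℂ} (hz : z ∈ U) (L : ι → (ℂ × ℂ →L[ℝ] ℝ))
    {a : ι → ℝ} (ha : ∀ i ∈ S, 0 ≤ a i) (h : ∀ i ∈ S, normL z (L i) ≤ a i ^ 2) :
    normL z (∑ i ∈ S, L i) ≤ (∑ i ∈ S, a i) ^ 2 := by
  classical
  induction S using Finset.induction_on with
  | empty => simp [normL_zero]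
  | insert i S hi ih =>
    rw [Finset.sum_insert hi, Finset.sum_insert hi]
    refine c3_add_le hz (ha i (Finset.mem_insert_self _ _))
      (Finset.sum_nonneg fun j hj => ha j (Finset.mem_insert_of_mem hj))
      (h i (Finset.mem_insert_self _ _))
      (ih (fun j hj => ha j (Finset.mem_insert_of_mem hj))
        (fun j hj => h j (Finset.mem_insert_of_mem hj)))

theorem c3_pow {R : ℝ} (hR : 1 ≤ R) : R ^ 18 * R⁻¹ ^ 20 = (R ^ 2)⁻¹ := by
  have h0 : R ≠ 0 := by linarith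
  rw [inv_pow, ← div_eq_mul_inv, show (20 : ℕ) = 18 + 2 by norm_num, pow_add]
  field_simp

/-- `fderiv_per` writes `Per G (hR R) z` and its derivative as finite sums over `S`; the term of `γ` has
`normL z ((fderiv hR (γz)).comp (dact γ z)) = normL (γz) (fderiv hR (γz))` (`normL_comp`), bounded by `normL_hR`.
`normL_sum_le`: `normL ≤ (20 (2 P + #{γ ∈ S : σ(o,γz) ≤ R} R⁻²⁰))²`, `P = Per G (hR R) z`, and the number is at most
`C R¹⁸` by `growth` (the elements of `G` are elements of `Gam q`). -/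
theorem grad_per {q : QD} {G : Subgroup SU21} (hG : G ≤ Gam q) : ∃ C : ℝ, 1 ≤ C ∧ ∀ R : ℝ, 1 ≤ R →
    ∀ z ∈ U, normL z (fderiv ℝ (Per G (hR R)) z) ≤ (C * (Per G (hR R) z + (R ^ 2)⁻¹)) ^ 2 := by
  classical
  obtain ⟨C₀, hC₀, hgr⟩ := growth q
  refine ⟨20 * (2 + C₀), by linarith, ?_⟩
  intro R hR' z hz
  have hsub : tsupport (hR R) ⊆ ball o R := hR_tsupport
  have hc : HasCompactSupport (hR R) :=
    (isCompact_ball o_mem R).of_isClosed_subset (isClosed_tsupport _) hsub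
  obtain ⟨S, hS1, hS2, hS3⟩ := fderiv_per (G := G) (c3_hGd hG) (hR_contDiff hR') hc
    (hsub.trans (ball_subset_U _ _)) hz
  obtain ⟨a, ha⟩ : ∃ a : G → ℝ, ∀ γ, a γ = 20 * (2 * hR R (act (mat γ.1) z) +
    (if sgm o (act (mat γ.1) z) ≤ R then R⁻¹ ^ 20 else 0)) := ⟨_, fun _ => rfl⟩
  have hRi : 0 ≤ R⁻¹ ^ 20 := pow_nonneg (inv_nonneg.2 (by linarith)) _
  have ha0 : ∀ γ, 0 ≤ a γ := by
    intro γ
    rw [ha]
    have h1 := hR_nonneg hR' (act (mat γ.1) z)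
    have h2 : 0 ≤ (if sgm o (act (mat γ.1) z) ≤ R then R⁻¹ ^ 20 else 0) := by
      split_ifs
      · exact hRi
      · exact le_refl _
    linarith
  have hP0 : 0 ≤ Per G (hR R) z := by
    rw [hS2]
    exact Finset.sum_nonneg fun γ _ => hR_nonneg hR' _
  have h1 : normL z (fderiv ℝ (Per G (hR R)) z) ≤ (∑ γ ∈ S, a γ) ^ 2 := by
    rw [hS3]
    refine normL_sum_le S hz _ (fun γ _ => ha0 γ) fun γ _ => ?_
    rw [normL_comp γ.1 hz, ha]
    exact normL_hR hR' (act_mem_U γ.1 hz)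
  have h2 : ∑ γ ∈ S, a γ = 20 * (2 * Per G (hR R) z +
      ((S.filter fun γ : G => sgm o (act (mat γ.1) z) ≤ R).card : ℝ) * R⁻¹ ^ 20) := by
    rw [hS2, Finset.sum_congr rfl fun γ _ => ha γ, ← Finset.mul_sum, Finset.sum_add_distrib,
      ← Finset.mul_sum, ← Finset.sum_filter, Finset.sum_const, nsmul_eq_mul]
  obtain ⟨hf, hn⟩ := hgr z hz R hR'
  have h3 : ((S.filter fun γ : G => sgm o (act (mat γ.1) z) ≤ R).card : ℝ) ≤ C₀ * R ^ 18 := by
    refine le_trans ?_ hn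
    rw [← Set.ncard_coe_finset]
    refine Nat.cast_le.2 (Set.ncard_le_ncard_of_injOn (fun γ : G => (⟨γ.1, hG γ.2⟩ : Gam q)) ?_ ?_ hf)
    · intro γ hγ
      rw [Finset.mem_coe, Finset.mem_filter] at hγ
      exact hγ.2
    · intro γ _ γ' _ h
      exact Subtype.ext (congrArg (fun δ : Gam q => δ.1) h)
  have h4 : ((S.filter fun γ : G => sgm o (act (mat γ.1) z) ≤ R).card : ℝ) * R⁻¹ ^ 20 ≤
      C₀ * (R ^ 2)⁻¹ := by
    refine (mul_le_mul_of_nonneg_right h3 hRi).trans (le_of_eq ?_)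
    rw [mul_assoc, c3_pow hR']
  have hR2 : 0 ≤ (R ^ 2)⁻¹ := inv_nonneg.2 (sq_nonneg R)
  have h5 : ∑ γ ∈ S, a γ ≤ 20 * (2 + C₀) * (Per G (hR R) z + (R ^ 2)⁻¹) := by
    rw [h2]
    have h6 : 0 ≤ C₀ * Per G (hR R) z := mul_nonneg (by linarith) hP0
    linarith
  exact h1.trans (pow_le_pow_left₀ (Finset.sum_nonneg fun γ _ => ha0 γ) h5 2)

end

end Pool.Agent.Lib.H56M
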