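import Pool.Agent.Lib.H56D.Defs
import Pool.Agent.Lib.H56.Gen.GreenSub1
import Pool.Agent.Lib.H56.Gen.GreenSub

/-!
# Density theorem for `SU(2,1)` over every imaginary quadratic order: definitions

`Gam q` is `SU(2,1; OO q)`; several cusps. All geometry (`sgm`, `ball`, `ker`, `c3`, `fro`, `FL`, ...)
is that of `Pool/Agent/Lib/H56D/Defs.lean`.
-/

namespace Pool.Agent.Lib.H56M

open Matrix hiding J
open MeasureTheory Topology Filter
open Pool.Agent.Lib.H56.Picard hiding O Gam mem_Gam star_mem_O T_mem sg_mem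
open Pool.Agent.Lib.H56.Gen
open Pool.Agent.Lib.H56D hiding om wG rho Eig Good K0
open scoped ENNReal

noncomputable section

/-! ### Lattice vectors -/

/-- Vectors with entries in the order. -/
def O3 (q : QD) : Set (Fin 3 → ℂ) := {v | ∀ i, v i ∈ OO q}

/-- The squared Euclidean norm of `g⁻¹ v`. -/
def NG (g : SU21) (v : Fin 3 → ℂ) : ℝ := ∑ i, Complex.normSq ((mat g⁻¹ *ᵥ v) i)

/-- The lattice `g⁻¹ O³` has minimum at least one. -/
def Min1 (q : QD) (g : SU21) : Prop := ∀ v ∈ O3 q, v ≠ 0 → 1 ≤ NG g v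

/-! ### Cut-off functions -/

/-- Invariant cut-off functions with compact support modulo `G` and small gradient. -/
structure Cut (G : Subgroup SU21) where
  /-- cut-off functions -/
  η : ℕ → ℂ × ℂ → ℝ
  /-- test functions -/
  h : ℕ → ℂ × ℂ → ℝ
  hh : ∀ n, ContDiff ℝ 1 (h n)
  hcs : ∀ n, HasCompactSupport (h n)
  hs : ∀ n, tsupport (h n) ⊆ U
  hη : ∀ n, ContDiffOn ℝ 1 (η n) U
  hP : ∀ n, ∀ z ∈ U, Per G (h n) z = η n z ^ 2
  mem : ∀ n z, η n z ∈ Set.Icc (0 : ℝ) 1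
  ev : ∀ z ∈ U, ∀ᶠ n in atTop, η n z = 1
  /-- gradient bounds -/
  δ : ℕ → ℝ
  δ0 : ∀ n, 0 ≤ δ n
  δlim : Tendsto δ atTop (𝓝 0)
  grad : ∀ n, ∀ z ∈ U, normL z (fderiv ℝ (η n) z) ≤ δ n

/-! ### Cusps -/

/-- Data of the cusps of `Gam q = SU(2,1; OO q)`: elements `g i` moving `∞` to the cusps, a common
lattice of translations `K`, `N` a common denominator of the elements between two cusps, and a covering
height `h`. -/
structure MC (q : QD) where
  /-- number of cusps -/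
  r : ℕ
  /-- elements moving `∞` to the cusps -/
  g : Fin r → SU21
  /-- common lattice of translations -/
  K : Cusp q
  /-- denominator -/
  N : ℕ
  hN : 1 ≤ N
  rat : ∀ i, ∀ k l, (N : ℂ) * mat (g i) k l ∈ OO q
  den : ∀ i j, ∀ γ : Gam q, ∀ k l, (N : ℂ) * mat ((g j)⁻¹ * γ.1 * g i) k l ∈ OO q
  tr : ∀ i, ∀ b : Gam q, b ∈ K.B → g i * b.1 * (g i)⁻¹ ∈ Gam q
  lev : ∀ i, ∀ A : Matrix (Fin 3) (Fin 3) ℂ, (∀ k l, ∃ x ∈ OO q, A k l = K.p * x) →
    ∀ k l, (mat (g i) * A * mat (g i)⁻¹) k l ∈ OO q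
  /-- covering height -/
  h : ℝ
  hh : 0 < h
  h1 : h ≤ 1
  high : ∀ z : X, ∃ γ : Gam q, ∃ i, h < height ((g i)⁻¹ • (γ • z : X) : X).1

variable {q : QD}

/-- Height above which the cusp neighbourhoods are precisely invariant. -/
def top (D : MC q) : ℝ := 4 * (D.N : ℝ) ^ 2 / D.h

/-- Indicator function of the box at the `i`-th cusp, above height `h`. -/
def bxi (D : MC q) (i : Fin D.r) (z : X) : ℝ≥0∞ :=
  bx D.K.Box ((D.g i)⁻¹ • z : X).1 * above D.h (height ((D.g i)⁻¹ • z : X).1)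

/-- Sum of the indicator functions of the boxes. -/
def ind (D : MC q) (z : X) : ℝ≥0∞ := ∑ i, bxi D i z

/-- Number of translates in the boxes. -/
def cnt (D : MC q) (z : X) : ℝ≥0∞ := ∑' γ : Gam q, ind D (γ • z)

/-- The weight of `Gam q`: its translates sum to `1`. -/
def om (D : MC q) (z : X) : ℝ≥0∞ := ind D z * (cnt D z)⁻¹

/-- The weight of a subgroup `G` of finite index. -/
def wG (D : MC q) (G : Subgroup (Gam q)) (z : X) : ℝ≥0∞ :=
  ∑' c : Gam q ⧸ G, om D ((c.out : Gam q) • z)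

/-- The measure defining `L²(G\X)` as functions on `X`. -/
def rho (D : MC q) (G : Subgroup (Gam q)) : Measure X := mu.withDensity (wG D G)

/-- Square integrable `G`-invariant eigenfunctions (complex eigenvalue). -/
structure Eig (D : MC q) (G : Subgroup (Gam q)) (f : ℂ × ℂ → ℂ) (lam : ℂ) : Prop where
  smooth : ContDiffOn ℝ 2 f U
  inv : ∀ γ : Gam q, γ ∈ G → ∀ z ∈ U, f (act (mat γ.1) z) = f z
  eig : ∀ z ∈ U, laplacian f z = -(lam * f z)
  L2 : ∫⁻ z : X, wG D G z * ENNReal.ofReal (Complex.normSq (f z.1)) ∂mu ≠ ⊤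

/-- Square integrable `G`-invariant eigenfunctions, internal form (real eigenvalue). -/
structure Good (D : MC q) (G : Subgroup (Gam q)) (f : ℂ × ℂ → ℂ) (lam : ℝ) : Prop where
  smooth : ContDiffOn ℝ 2 f U
  inv : ∀ γ : Gam q, γ ∈ G → ∀ z ∈ U, f (act (mat γ.1) z) = f z
  eig : ∀ z ∈ U, laplacian f z = -((lam : ℂ) * f z)
  L2 : ∫⁻ z : X, wG D G z * ENNReal.ofReal (Complex.normSq (f z.1)) ∂mu ≠ ⊤

/-- The relatively compact part of the boxes. -/
def K0 (D : MC q) : Set X := {z | ∃ i, ((D.g i)⁻¹ • z : X).1 ∈ D.K.Box ∧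
  D.h < height ((D.g i)⁻¹ • z : X).1 ∧ height ((D.g i)⁻¹ • z : X).1 ≤ 2 * top D}

end

end Pool.Agent.Lib.H56M
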