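import Pool.Agent.Lib.H56M.O5

/-!
# L2: linear combinations
-/

namespace Pool.Agent.Lib.H56M

open Matrix hiding J
open MeasureTheory Topology Filter
open Pool.Agent.Lib.H56.Picard hiding O Gam mem_Gam star_mem_O T_mem sg_mem
open Pool.Agent.Lib.H56.Gen
open Pool.Agent.Lib.H56D hiding om wG rho Eig Good K0
open scoped ENNReal

noncomputable section

lemma L2_lap_add {f g : ℂ × ℂ → ℂ} (hf : ContDiffOn ℝ 2 f U) (hg : ContDiffOn ℝ 2 g U)
    {z : ℂ × ℂ} (hz : z ∈ U) :
    laplacian (fun w => f w + g w) z = laplacian f z + laplacian g z := by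
  have e : iteratedFDeriv ℝ 2 (fun w => f w + g w) z =
      iteratedFDeriv ℝ 2 f z + iteratedFDeriv ℝ 2 g z :=
    iteratedFDeriv_add_apply (hf.contDiffAt (isOpen_U.mem_nhds hz))
      (hg.contDiffAt (isOpen_U.mem_nhds hz))
  unfold laplacian
  rw [e]
  simp only [ContinuousMultilinearMap.add_apply]
  ring

lemma L2_lap_const_mul {f : ℂ × ℂ → ℂ} (hf : ContDiffOn ℝ 2 f U) (a : ℂ)
    {z : ℂ × ℂ} (hz : z ∈ U) :
    laplacian (fun w => a * f w) z = a * laplacian f z := by
  have e : iteratedFDeriv ℝ 2 (fun w => a * f w) z = a • iteratedFDeriv ℝ 2 f z :=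
    iteratedFDeriv_const_smul_apply (a := a) (hf.contDiffAt (isOpen_U.mem_nhds hz))
  unfold laplacian
  rw [e]
  simp only [ContinuousMultilinearMap.smul_apply, smul_eq_mul]
  ring

lemma L2_meas {f : ℂ × ℂ → ℂ} (hf : ContDiffOn ℝ 2 f U) : Continuous fun z : X => f z.1 :=
  hf.continuousOn.comp_continuous continuous_subtype_val fun z => z.2

lemma L2_zero {q : QD} {D : MC q} {G : Subgroup (Gam q)} {lam : ℝ} :
    Good D G (fun _ => 0) lam := by
  refine ⟨contDiffOn_const, fun _ _ _ _ => rfl, ?_, ?_⟩
  · intro z hz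
    have h := L2_lap_const_mul (f := fun _ => (0 : ℂ)) contDiffOn_const 0 hz
    simp only [mul_zero, zero_mul] at h
    rw [h]
    simp
  · simp

lemma L2_const_mul {q : QD} {D : MC q} {G : Subgroup (Gam q)} {lam : ℝ} {f : ℂ × ℂ → ℂ}
    (h : Good D G f lam) (a : ℂ) : Good D G (fun z => a * f z) lam := by
  refine ⟨contDiffOn_const.mul h.smooth, ?_, ?_, ?_⟩
  · intro γ hγ z hz
    simp only [h.inv γ hγ z hz]
  · intro z hz
    rw [L2_lap_const_mul h.smooth a hz, h.eig z hz]
    ring
  · have e : ∀ z : X, wG D G z * ENNReal.ofReal (Complex.normSq (a * f z.1)) =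
        ENNReal.ofReal (Complex.normSq a) *
          (wG D G z * ENNReal.ofReal (Complex.normSq (f z.1))) := by
      intro z
      rw [Complex.normSq_mul, ENNReal.ofReal_mul (Complex.normSq_nonneg _)]
      ring
    simp only [e]
    rw [lintegral_const_mul' _ _ ENNReal.ofReal_ne_top]
    exact ENNReal.mul_ne_top ENNReal.ofReal_ne_top h.L2

lemma L2_add {q : QD} {D : MC q} {G : Subgroup (Gam q)} [G.FiniteIndex] {lam : ℝ}
    {f g : ℂ × ℂ → ℂ} (hf : Good D G f lam) (hg : Good D G g lam) :
    Good D G (fun z => f z + g z) lam := by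
  refine ⟨hf.smooth.add hg.smooth, ?_, ?_, ?_⟩
  · intro γ hγ z hz
    simp only [hf.inv γ hγ z hz, hg.inv γ hγ z hz]
  · intro z hz
    rw [L2_lap_add hf.smooth hg.smooth hz, hf.eig z hz, hg.eig z hz]
    ring
  · have hm1 : Measurable fun z : X =>
        2 * (wG D G z * ENNReal.ofReal (Complex.normSq (f z.1))) :=
      ((measurable_wG D G).mul (ENNReal.measurable_ofReal.comp
        (Complex.continuous_normSq.measurable.comp (L2_meas hf.smooth).measurable))).const_mul _
    have e : ∀ z : X, wG D G z * ENNReal.ofReal (Complex.normSq (f z.1 + g z.1)) ≤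
        2 * (wG D G z * ENNReal.ofReal (Complex.normSq (f z.1))) +
        2 * (wG D G z * ENNReal.ofReal (Complex.normSq (g z.1))) := by
      intro z
      have h1 : Complex.normSq (f z.1 + g z.1) ≤
          2 * Complex.normSq (f z.1) + 2 * Complex.normSq (g z.1) := by
        simp only [Complex.normSq_apply, Complex.add_re, Complex.add_im]
        nlinarith [sq_nonneg ((f z.1).re - (g z.1).re), sq_nonneg ((f z.1).im - (g z.1).im)]
      have h2 : ENNReal.ofReal (Complex.normSq (f z.1 + g z.1)) ≤
          2 * ENNReal.ofReal (Complex.normSq (f z.1)) +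
          2 * ENNReal.ofReal (Complex.normSq (g z.1)) := by
        refine (ENNReal.ofReal_le_ofReal h1).trans (le_of_eq ?_)
        rw [ENNReal.ofReal_add (by have := Complex.normSq_nonneg (f z.1); positivity)
          (by have := Complex.normSq_nonneg (g z.1); positivity),
          ENNReal.ofReal_mul (by norm_num), ENNReal.ofReal_mul (by norm_num)]
        norm_num
      calc wG D G z * ENNReal.ofReal (Complex.normSq (f z.1 + g z.1))
          ≤ wG D G z * (2 * ENNReal.ofReal (Complex.normSq (f z.1)) +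
          2 * ENNReal.ofReal (Complex.normSq (g z.1))) := mul_le_mul_right h2 _
        _ = _ := by ring
    refine ne_top_of_le_ne_top ?_ (lintegral_mono e)
    rw [lintegral_add_left hm1, lintegral_const_mul' _ _ (by norm_num),
      lintegral_const_mul' _ _ (by norm_num)]
    exact ENNReal.add_ne_top.mpr ⟨ENNReal.mul_ne_top (by norm_num) hf.L2,
      ENNReal.mul_ne_top (by norm_num) hg.L2⟩

/-- `ContDiffOn.sum`; linearity of `laplacian` (`iteratedFDeriv` at points of the open set `U`, or via
`iteratedFDeriv_two_apply`, `fderiv` of sums, using differentiability on `U`); square integrability by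
`|∑_{i ∈ S} c_i f_i|² ≤ |S| ∑ |c_i|² |f_i|²`. Only the `i` with `c i ≠ 0` matter. -/
theorem Good_sum {q : QD} {D : MC q} {G : Subgroup (Gam q)} [G.FiniteIndex] {m : ℕ}
    {f : Fin m → ℂ × ℂ → ℂ} {c : Fin m → ℂ} {lam : ℝ}
    (h : ∀ i, c i ≠ 0 → Good D G (f i) lam) :
    Good D G (fun z => ∑ i, c i * f i z) lam := by
  have key : ∀ S : Finset (Fin m), Good D G (fun z => ∑ i ∈ S, c i * f i z) lam := by
    intro S
    induction S using Finset.induction_on with
    | empty => simpa using L2_zero
    | insert a S ha ih =>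
      simp only [Finset.sum_insert ha]
      by_cases hc : c a = 0
      · simp only [hc, zero_mul, zero_add]
        exact ih
      · exact L2_add (L2_const_mul (h a hc) (c a)) ih
  exact key Finset.univ

/-- `Good` functions are in `L²(rho D G)`: `lintegral_withDensity_eq_lintegral_mul`. -/
theorem Good_memLp {q : QD} {D : MC q} {G : Subgroup (Gam q)} [G.FiniteIndex] {f : ℂ × ℂ → ℂ}
    {lam : ℝ} (h : Good D G f lam) : MemLp (fun z : X => f z.1) 2 (rho D G) := by
  have hc := L2_meas h.smooth
  refine ⟨hc.aestronglyMeasurable, ?_⟩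
  rw [eLpNorm_lt_top_iff_lintegral_rpow_enorm_lt_top (by norm_num) (by norm_num)]
  have hm : Measurable fun z : X => ENNReal.ofReal (Complex.normSq (f z.1)) :=
    ENNReal.measurable_ofReal.comp (Complex.continuous_normSq.measurable.comp hc.measurable)
  have e : ∀ z : X, ‖f z.1‖ₑ ^ (2 : ℝ≥0∞).toReal = ENNReal.ofReal (Complex.normSq (f z.1)) := by
    intro z
    rw [ENNReal.toReal_ofNat, Complex.normSq_eq_norm_sq, ENNReal.ofReal_pow (norm_nonneg _),
      ofReal_norm, ENNReal.rpow_ofNat]
  simp only [e]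
  unfold rho
  rw [lintegral_withDensity_eq_lintegral_mul _ (measurable_wG D G) hm]
  exact lt_top_iff_ne_top.mpr h.L2

end

end Pool.Agent.Lib.H56M
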