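import Pool.Agent.Lib.H56M.Defs

/-!
# N2: orthogonality from cut-offs
-/

namespace Pool.Agent.Lib.H56M

open Matrix hiding J
open MeasureTheory Topology Filter
open Pool.Agent.Lib.H56.Picard hiding O Gam mem_Gam star_mem_O T_mem sg_mem
open Pool.Agent.Lib.H56.Gen
open Pool.Agent.Lib.H56D hiding om wG rho Eig Good K0
open scoped ENNReal

noncomputable section

lemma n2_integrable_mul {w : X → ℝ≥0∞} (hw : Measurable w) {f g : ℂ × ℂ → ℝ}
    (hf : ContDiffOn ℝ 2 f U) (hg : ContDiffOn ℝ 2 g U)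
    (n1 : Integrable (fun z : X => (w z).toReal * f z.1 ^ 2) mu)
    (n2 : Integrable (fun z : X => (w z).toReal * g z.1 ^ 2) mu) :
    Integrable (fun z : X => (w z).toReal * (f z.1 * g z.1)) mu := by
  have hc1 : Continuous fun z : X => f z.1 := continuous_restrict hf.continuousOn
  have hc2 : Continuous fun z : X => g z.1 := continuous_restrict hg.continuousOn
  have hm : Measurable (fun z : X => (w z).toReal * (f z.1 * g z.1)) :=
    hw.ennreal_toReal.mul (hc1.mul hc2).measurable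
  have hm' : AEStronglyMeasurable (fun z : X => (w z).toReal * (f z.1 * g z.1)) mu :=
    hm.aestronglyMeasurable
  have hadd : Integrable (fun z : X => (w z).toReal * f z.1 ^ 2 + (w z).toReal * g z.1 ^ 2) mu :=
    n1.add n2
  refine hadd.mono' hm' (Filter.Eventually.of_forall fun z => ?_)
  have h1 : 0 ≤ (w z).toReal := ENNReal.toReal_nonneg
  rw [Real.norm_eq_abs, abs_mul, abs_of_nonneg h1, ← mul_add]
  refine mul_le_mul_of_nonneg_left ?_ h1
  rw [abs_le]
  constructor <;> nlinarith [sq_nonneg (f z.1 + g z.1), sq_nonneg (f z.1 - g z.1)]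

/-- The first order terms tend to zero. -/
lemma n2_first {G : Subgroup SU21} (T : Cut G) {w : X → ℝ≥0∞} {f g : ℂ × ℂ → ℝ}
    (n1 : Integrable (fun z : X => (w z).toReal * f z.1 ^ 2) mu)
    (m2 : Integrable (fun z : X => (w z).toReal * normL z.1 (fderiv ℝ g z.1)) mu) :
    Tendsto (fun n : ℕ => ∫ z : X, (w z).toReal *
        (2 * T.η n z.1 * (f z.1 * Bf z.1 (fderiv ℝ (T.η n) z.1) (fderiv ℝ g z.1))) ∂mu)
      atTop (𝓝 0) := by
  have hadd : Integrable (fun z : X => (w z).toReal * f z.1 ^ 2 +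
      (w z).toReal * normL z.1 (fderiv ℝ g z.1)) mu := n1.add m2
  set I := ∫ z : X, ((w z).toReal * f z.1 ^ 2 + (w z).toReal * normL z.1 (fderiv ℝ g z.1)) ∂mu
    with hI
  have key : ∀ n, ‖∫ z : X, (w z).toReal *
      (2 * T.η n z.1 * (f z.1 * Bf z.1 (fderiv ℝ (T.η n) z.1) (fderiv ℝ g z.1))) ∂mu‖ ≤
      √(T.δ n) * I := by
    intro n
    rw [hI, ← integral_const_mul]
    refine norm_integral_le_of_norm_le (hadd.const_mul _) (Filter.Eventually.of_forall fun z => ?_)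
    have hw0 : 0 ≤ (w z).toReal := ENNReal.toReal_nonneg
    have hm := T.mem n z.1
    have hz := z.2
    have hn2 := normL_nonneg hz.le (fderiv ℝ g z.1)
    have hn3 := normL_nonneg hz.le (fderiv ℝ (T.η n) z.1)
    have hc1 := T.grad n z.1 hz
    have hB := Bf_sq_le hz.le (fderiv ℝ (T.η n) z.1) (fderiv ℝ g z.1)
    set η := T.η n z.1
    set B := Bf z.1 (fderiv ℝ (T.η n) z.1) (fderiv ℝ g z.1)
    set N3 := normL z.1 (fderiv ℝ (T.η n) z.1)
    set N2 := normL z.1 (fderiv ℝ g z.1)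
    set d := √(T.δ n) with hd
    have hd0 : 0 ≤ d := Real.sqrt_nonneg _
    have hd2 : d ^ 2 = T.δ n := Real.sq_sqrt (T.δ0 n)
    rw [Real.norm_eq_abs, abs_mul, abs_of_nonneg hw0]
    have key : |2 * η * (f z.1 * B)| ≤ d * (f z.1 ^ 2 + N2) := by
      have h1 : |2 * η * (f z.1 * B)| ≤ 2 * |f z.1 * B| := by
        rw [abs_mul]
        refine mul_le_mul_of_nonneg_right ?_ (abs_nonneg _)
        rw [abs_of_nonneg (by linarith [hm.1])]
        linarith [hm.2]
      have h2 : (f z.1 * B) ^ 2 ≤ d ^ 2 * (f z.1 ^ 2 * N2) := by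
        have h3 : B ^ 2 ≤ d ^ 2 * N2 := by
          rw [hd2]
          exact hB.trans (mul_le_mul_of_nonneg_right hc1 hn2)
        calc (f z.1 * B) ^ 2 = f z.1 ^ 2 * B ^ 2 := by ring
          _ ≤ f z.1 ^ 2 * (d ^ 2 * N2) := mul_le_mul_of_nonneg_left h3 (sq_nonneg _)
          _ = d ^ 2 * (f z.1 ^ 2 * N2) := by ring
      have h4 : (2 * |f z.1 * B|) ^ 2 ≤ (d * (f z.1 ^ 2 + N2)) ^ 2 := by
        rw [mul_pow, sq_abs]
        nlinarith [mul_nonneg (sq_nonneg d) (sq_nonneg (f z.1 ^ 2 - N2))]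
      have h5 : 0 ≤ d * (f z.1 ^ 2 + N2) := mul_nonneg hd0 (by positivity)
      exact h1.trans (abs_le_of_sq_le_sq' h4 h5).2
    calc (w z).toReal * |2 * η * (f z.1 * B)| ≤ (w z).toReal * (d * (f z.1 ^ 2 + N2)) :=
          mul_le_mul_of_nonneg_left key hw0
      _ = _ := by ring
  have hlim : Tendsto (fun n => √(T.δ n) * I) atTop (𝓝 0) := by
    have h := ((Real.continuous_sqrt.tendsto 0).comp T.δlim).mul_const I
    rw [Real.sqrt_zero, zero_mul] at h
    exact h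
  exact squeeze_zero_norm key hlim

/-- Convergence of the main terms. -/
lemma n2_main {G : Subgroup SU21} (T : Cut G)
    {w : X → ℝ≥0∞} (hw : Measurable w) {e : ℂ × ℂ → ℝ} (he : ContinuousOn e U)
    (n1 : Integrable (fun z : X => (w z).toReal * e z.1) mu) :
    Tendsto (fun n : ℕ => ∫ z : X, (w z).toReal * (T.η n z.1 ^ 2 * e z.1) ∂mu) atTop
      (𝓝 (∫ z : X, (w z).toReal * e z.1 ∂mu)) := by
  have hmeas : ∀ n : ℕ, Measurable (fun z : X => T.η n z.1 ^ 2 * e z.1) := fun n =>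
    (continuous_restrict (φ := fun z => T.η n z ^ 2 * e z)
      (((T.hη n).continuousOn.pow 2).mul he)).measurable
  refine tendsto_integral_of_dominated_convergence (fun z => ‖(w z).toReal * e z.1‖)
    (fun n => ?_) n1.norm
    (fun n => Filter.Eventually.of_forall fun z => ?_) (Filter.Eventually.of_forall fun z => ?_)
  · exact (hw.ennreal_toReal.mul (hmeas n)).aestronglyMeasurable
  · have hm := T.mem n z.1
    have h2 : T.η n z.1 ^ 2 ≤ 1 := pow_le_one₀ hm.1 hm.2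
    rw [norm_mul, norm_mul, norm_mul, Real.norm_of_nonneg (sq_nonneg _)]
    refine mul_le_mul_of_nonneg_left ?_ (norm_nonneg _)
    exact (mul_le_mul_of_nonneg_right h2 (norm_nonneg _)).trans_eq (one_mul _)
  · refine tendsto_const_nhds.congr' ?_
    filter_upwards [T.ev z.1 z.2] with n hn
    rw [hn]
    ring

/-- `green_pair` (`H56/Gen/GreenSub1.lean`) for `(f,g) = (g1,g2)` (`lapR g2 = -(l2 g2)`: `k = g2`, `p = l2`, `q = 0`) and
`(g2,g1)`, with the cut-off `T.η n` and the test function `T.h n`; the terms with `Bf (dg1) (dg2)` agree (`Bf_comm`);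
subtract: `(l1 - l2) ∫ w η² g1 g2 = ∫ w 2η (g2 Bf(dη,dg1) - g1 Bf(dη,dg2))` up to sign. The right side is at most
`2 √(δ n) ∫ w (g1² + g2² + normL dg1 + normL dg2)` (`Bf_sq_le`, `T.grad`, `0 ≤ η ≤ 1`, `2ab ≤ a² + b²`), which tends
to `0`; the left integral tends to `∫ w g1 g2` by dominated convergence (`T.ev`, `|g1 g2| ≤ g1² + g2²`). -/
theorem orth_cut {G : Subgroup SU21} (hGd : ∀ B : ℝ, {γ : G | ∀ i j, ‖mat γ.1 i j‖ ≤ B}.Finite)
    (T : Cut G) {w : X → ENNReal} (hw : Measurable w) {c : ENNReal} (hc : c ≠ ⊤)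
    (hwc : ∀ᵐ z ∂mu, ∑' γ : G, w (γ • z) = c)
    {g1 g2 : ℂ × ℂ → ℝ} {l1 l2 : ℝ}
    (h1 : ContDiffOn ℝ 2 g1 U) (h2 : ContDiffOn ℝ 2 g2 U)
    (i1 : ∀ γ : G, ∀ z ∈ U, g1 (act (mat γ.1) z) = g1 z)
    (i2 : ∀ γ : G, ∀ z ∈ U, g2 (act (mat γ.1) z) = g2 z)
    (e1 : ∀ z ∈ U, lapR g1 z = -(l1 * g1 z)) (e2 : ∀ z ∈ U, lapR g2 z = -(l2 * g2 z))
    (n1 : Integrable (fun z : X => (w z).toReal * g1 z.1 ^ 2) mu)
    (n2 : Integrable (fun z : X => (w z).toReal * g2 z.1 ^ 2) mu)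
    (m1 : Integrable (fun z : X => (w z).toReal * normL z.1 (fderiv ℝ g1 z.1)) mu)
    (m2 : Integrable (fun z : X => (w z).toReal * normL z.1 (fderiv ℝ g2 z.1)) mu)
    (hne : l1 ≠ l2) : ∫ z : X, (w z).toReal * (g1 z.1 * g2 z.1) ∂mu = 0 := by
  have hI := n2_integrable_mul hw h1 h2 n1 n2
  have t1 := n2_main T hw (e := fun z => g1 z * g2 z)
    (h1.continuousOn.mul h2.continuousOn) hI
  have t2 := n2_first T n1 m2
  have t3 := n2_first T n2 m1
  have key : ∀ n : ℕ, (l1 - l2) * ∫ z : X, (w z).toReal *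
        (T.η n z.1 ^ 2 * (g1 z.1 * g2 z.1)) ∂mu =
      (∫ z : X, (w z).toReal *
        (2 * T.η n z.1 * (g2 z.1 * Bf z.1 (fderiv ℝ (T.η n) z.1) (fderiv ℝ g1 z.1))) ∂mu) -
      ∫ z : X, (w z).toReal *
        (2 * T.η n z.1 * (g1 z.1 * Bf z.1 (fderiv ℝ (T.η n) z.1) (fderiv ℝ g2 z.1))) ∂mu := by
    intro n
    have p1 := green_pair hGd hw hc hwc (T.hh n) (T.hcs n) (T.hs n) (T.hη n) (T.hP n) h1 h2 h2 h2
      i1 i2 i2 i2 (p := l2) (q := 0) (fun z hz => by rw [e2 z hz]; ring)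
    have p2 := green_pair hGd hw hc hwc (T.hh n) (T.hcs n) (T.hs n) (T.hη n) (T.hP n) h2 h1 h1 h1
      i2 i1 i1 i1 (p := l1) (q := 0) (fun z hz => by rw [e1 z hz]; ring)
    have eP : ∫ z : X, (w z).toReal * (T.η n z.1 ^ 2 * (g2 z.1 * g1 z.1)) ∂mu =
        ∫ z : X, (w z).toReal * (T.η n z.1 ^ 2 * (g1 z.1 * g2 z.1)) ∂mu := by
      refine integral_congr_ae (Filter.Eventually.of_forall fun z => ?_)
      simp only
      ring
    have eB : ∫ z : X, (w z).toReal * (T.η n z.1 ^ 2 *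
          Bf z.1 (fderiv ℝ g1 z.1) (fderiv ℝ g2 z.1)) ∂mu =
        ∫ z : X, (w z).toReal * (T.η n z.1 ^ 2 *
          Bf z.1 (fderiv ℝ g2 z.1) (fderiv ℝ g1 z.1)) ∂mu := by
      refine integral_congr_ae (Filter.Eventually.of_forall fun z => ?_)
      simp only
      rw [Bf_comm]
    rw [eP] at p2
    rw [eB] at p1
    linear_combination p1 - p2
  have t4 : Tendsto (fun n : ℕ => (l1 - l2) * ∫ z : X, (w z).toReal *
        (T.η n z.1 ^ 2 * (g1 z.1 * g2 z.1)) ∂mu) atTop (𝓝 (0 - 0)) := by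
    simp only [key]
    exact t3.sub t2
  have t5 := tendsto_nhds_unique (t1.const_mul (l1 - l2)) t4
  rw [sub_zero] at t5
  exact (mul_eq_zero.1 t5).resolve_left (sub_ne_zero.2 hne)

end

end Pool.Agent.Lib.H56M
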