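import Pool.Agent.Lib.H56M.G0
import Pool.Agent.Lib.H56M.L2
import Pool.Agent.Lib.H56M.N2

/-!
# G3: orthogonality of eigenfunctions with different eigenvalues
-/

namespace Pool.Agent.Lib.H56M

open Matrix hiding J
open MeasureTheory Topology Filter
open Pool.Agent.Lib.H56.Picard hiding O Gam mem_Gam star_mem_O T_mem sg_mem
open Pool.Agent.Lib.H56.Gen
open Pool.Agent.Lib.H56D hiding om wG rho Eig Good K0
open scoped ENNReal

noncomputable section

/-- Integrability against the weight. -/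
lemma g3_int {q : QD} (D : MC q) (G : Subgroup (Gam q)) [G.FiniteIndex] {e : X → ℝ}
    {d : X → ℝ} (he0 : ∀ z, 0 ≤ e z) (hed : ∀ z, e z ≤ d z) (hm : Measurable e)
    (hfin : ∫⁻ z, wG D G z * ENNReal.ofReal (d z) ∂mu ≠ ⊤) :
    Integrable (fun z : X => (wG D G z).toReal * e z) mu := by
  have hm' : Measurable (fun z : X => (wG D G z).toReal * e z) :=
    (measurable_wG D G).ennreal_toReal.mul hm
  refine ⟨hm'.aestronglyMeasurable, ?_⟩
  rw [hasFiniteIntegral_iff_ofReal (Filter.Eventually.of_forall fun z =>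
    mul_nonneg ENNReal.toReal_nonneg (he0 z))]
  refine lt_of_le_of_lt (lintegral_mono fun z => ?_) hfin.lt_top
  rw [ENNReal.ofReal_mul ENNReal.toReal_nonneg, ENNReal.ofReal_toReal (wG_ne_top D G z)]
  exact mul_le_mul' le_rfl (ENNReal.ofReal_le_ofReal (hed z))

/-- Integrability of the squares and of the energies. -/
lemma g3_good {q : QD} {D : MC q} {G : Subgroup (Gam q)} [G.FiniteIndex]
    {f : ℂ × ℂ → ℂ} {l : ℝ} (h : Good D G f l) (hne : ∃ z ∈ U, f z ≠ 0) :
    Integrable (fun z : X => (wG D G z).toReal * (f z.1).re ^ 2) mu ∧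
    Integrable (fun z : X => (wG D G z).toReal * (f z.1).im ^ 2) mu ∧
    Integrable (fun z : X => (wG D G z).toReal *
      normL z.1 (fderiv ℝ (fun z => (f z).re) z.1)) mu ∧
    Integrable (fun z : X => (wG D G z).toReal *
      normL z.1 (fderiv ℝ (fun z => (f z).im) z.1)) mu := by
  have hfc : ContinuousOn f U := h.smooth.continuousOn
  have hf1 : ContDiffOn ℝ 1 (fun z => (f z).re) U :=
    (Complex.reCLM.contDiff.comp_contDiffOn h.smooth).of_le (by norm_num)
  have hf2 : ContDiffOn ℝ 1 (fun z => (f z).im) U :=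
    (Complex.imCLM.contDiff.comp_contDiffOn h.smooth).of_le (by norm_num)
  have key := (n3_energy D h.smooth h.inv h.eig h.L2 hne).2
  have hfin : ∫⁻ z, wG D G z * ENNReal.ofReal (energy (fun z => (f z).re) z.1 +
        energy (fun z => (f z).im) z.1) ∂mu ≠ ⊤ :=
    ne_top_of_le_ne_top (ENNReal.mul_ne_top ENNReal.ofReal_ne_top h.L2) key
  have c1 : Measurable fun z : X => (f z.1).re ^ 2 :=
    ((Complex.continuous_re.comp (continuousOn_iff_continuous_domRestrict.mp hfc)).pow 2).measurable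
  have c2 : Measurable fun z : X => (f z.1).im ^ 2 :=
    ((Complex.continuous_im.comp (continuousOn_iff_continuous_domRestrict.mp hfc)).pow 2).measurable
  have c3 : Measurable fun z : X => normL z.1 (fderiv ℝ (fun z => (f z).re) z.1) :=
    (continuous_restrict (φ := fun z => normL z (fderiv ℝ (fun z => (f z).re) z))
      (continuousOn_normL hf1)).measurable
  have c4 : Measurable fun z : X => normL z.1 (fderiv ℝ (fun z => (f z).im) z.1) :=
    (continuous_restrict (φ := fun z => normL z (fderiv ℝ (fun z => (f z).im) z))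
      (continuousOn_normL hf2)).measurable
  have e1 : ∀ z : X, 0 ≤ energy (fun z => (f z).re) z.1 := fun z => normL_nonneg z.2.le _
  have e2 : ∀ z : X, 0 ≤ energy (fun z => (f z).im) z.1 := fun z => normL_nonneg z.2.le _
  refine ⟨g3_int D G (fun z => sq_nonneg _) (fun z => ?_) c1 h.L2,
    g3_int D G (fun z => sq_nonneg _) (fun z => ?_) c2 h.L2,
    g3_int D G (fun z => normL_nonneg z.2.le _) (fun z => ?_) c3 hfin,
    g3_int D G (fun z => normL_nonneg z.2.le _) (fun z => ?_) c4 hfin⟩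
  · rw [Complex.normSq_apply]
    nlinarith [sq_nonneg (f z.1).im]
  · rw [Complex.normSq_apply]
    nlinarith [sq_nonneg (f z.1).re]
  · have := e2 z
    change energy (fun z => (f z).re) z.1 ≤ _
    linarith
  · have := e1 z
    change energy (fun z => (f z).im) z.1 ≤ _
    linarith

/-- Real version. -/
theorem g3_real {q : QD} (D : MC q) {G : Subgroup (Gam q)} [G.FiniteIndex]
    {g1 g2 : ℂ × ℂ → ℝ} {l1 l2 : ℝ}
    (h1 : ContDiffOn ℝ 2 g1 U) (h2 : ContDiffOn ℝ 2 g2 U)
    (i1 : ∀ γ : Gam q, γ ∈ G → ∀ z ∈ U, g1 (act (mat γ.1) z) = g1 z)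
    (i2 : ∀ γ : Gam q, γ ∈ G → ∀ z ∈ U, g2 (act (mat γ.1) z) = g2 z)
    (e1 : ∀ z ∈ U, lapR g1 z = -(l1 * g1 z)) (e2 : ∀ z ∈ U, lapR g2 z = -(l2 * g2 z))
    (n1 : Integrable (fun z : X => (wG D G z).toReal * g1 z.1 ^ 2) mu)
    (n2 : Integrable (fun z : X => (wG D G z).toReal * g2 z.1 ^ 2) mu)
    (m1 : Integrable (fun z : X => (wG D G z).toReal * normL z.1 (fderiv ℝ g1 z.1)) mu)
    (m2 : Integrable (fun z : X => (wG D G z).toReal * normL z.1 (fderiv ℝ g2 z.1)) mu)
    (hne : l1 ≠ l2) : ∫ z : X, (wG D G z).toReal * (g1 z.1 * g2 z.1) ∂mu = 0 := by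
  obtain ⟨T⟩ := exists_cut (n3_map_le G)
  refine orth_cut (finite_sub (n3_map_le G) H56.Gen.finite_ball) T (measurable_wG D G)
    ENNReal.one_ne_top (n3_sum D G) h1 h2 ?_ ?_ e1 e2 n1 n2 m1 m2 hne
  · rintro ⟨_, γ, hγ, rfl⟩ z hz
    exact i1 γ hγ z hz
  · rintro ⟨_, γ, hγ, rfl⟩ z hz
    exact i2 γ hγ z hz

/-- Apply `orth_cut` (weight `wG D G`, translates sum to `1` by `sum_wG`, group `G.map (Gam q).subtype`, cut-offs
`exists_cut`; see `green_sub` in `H56/Gen/GreenSub.lean` for the change of group) to the four pairs of real and imaginary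
parts (`lapR_comp`); the energies are finite by `energy_level` (`∫ wG energy ≤ lam ∫ wG |f|²` via `lintegral_wG`,
`energy_comp`; if `f = 0` on `U` trivial); the integral against `rho` is
`integral_withDensity_eq_integral_toReal_smul`. See `Good_orth` in `H56D/G3.lean`. -/
theorem Good_orth {q : QD} {D : MC q} {G : Subgroup (Gam q)} [G.FiniteIndex]
    {f1 f2 : ℂ × ℂ → ℂ} {l1 l2 : ℝ}
    (h1 : Good D G f1 l1) (h2 : Good D G f2 l2) (hne : l1 ≠ l2) :
    ∫ z : X, star (f1 z.1) * f2 z.1 ∂(rho D G) = 0 := by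
  by_cases hn1 : ∃ z ∈ U, f1 z ≠ 0
  swap
  · push Not at hn1
    refine (integral_congr_ae (Filter.Eventually.of_forall fun z => ?_)).trans
      (integral_zero X ℂ)
    rw [hn1 z.1 z.2]
    simp
  by_cases hn2 : ∃ z ∈ U, f2 z ≠ 0
  swap
  · push Not at hn2
    refine (integral_congr_ae (Filter.Eventually.of_forall fun z => ?_)).trans
      (integral_zero X ℂ)
    rw [hn2 z.1 z.2]
    simp
  obtain ⟨a1, a2, a3, a4⟩ := g3_good h1 hn1
  obtain ⟨b1, b2, b3, b4⟩ := g3_good h2 hn2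
  have r1 : ContDiffOn ℝ 2 (fun z => (f1 z).re) U := Complex.reCLM.contDiff.comp_contDiffOn h1.smooth
  have s1 : ContDiffOn ℝ 2 (fun z => (f1 z).im) U := Complex.imCLM.contDiff.comp_contDiffOn h1.smooth
  have r2 : ContDiffOn ℝ 2 (fun z => (f2 z).re) U := Complex.reCLM.contDiff.comp_contDiffOn h2.smooth
  have s2 : ContDiffOn ℝ 2 (fun z => (f2 z).im) U := Complex.imCLM.contDiff.comp_contDiffOn h2.smooth
  have lre : ∀ {f : ℂ × ℂ → ℂ} {l : ℝ}, Good D G f l → ∀ z ∈ U,
      lapR (fun z => (f z).re) z = -(l * (f z).re) := by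
    intro f l h z hz
    have h3 := lapR_comp Complex.reCLM h.smooth hz
    rw [h.eig z hz] at h3
    have h4 : lapR (fun z => (f z).re) z = Complex.reCLM (-((l : ℂ) * f z)) := h3
    rw [h4]
    simp
  have lim : ∀ {f : ℂ × ℂ → ℂ} {l : ℝ}, Good D G f l → ∀ z ∈ U,
      lapR (fun z => (f z).im) z = -(l * (f z).im) := by
    intro f l h z hz
    have h3 := lapR_comp Complex.imCLM h.smooth hz
    rw [h.eig z hz] at h3
    have h4 : lapR (fun z => (f z).im) z = Complex.imCLM (-((l : ℂ) * f z)) := h3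
    rw [h4]
    simp
  have ire : ∀ {f : ℂ × ℂ → ℂ} {l : ℝ}, Good D G f l → ∀ γ : Gam q, γ ∈ G → ∀ z ∈ U,
      (fun z => (f z).re) (act (mat γ.1) z) = (fun z => (f z).re) z := by
    intro f l h γ hγ z hz
    simp only [h.inv γ hγ z hz]
  have iim : ∀ {f : ℂ × ℂ → ℂ} {l : ℝ}, Good D G f l → ∀ γ : Gam q, γ ∈ G → ∀ z ∈ U,
      (fun z => (f z).im) (act (mat γ.1) z) = (fun z => (f z).im) z := by
    intro f l h γ hγ z hz
    simp only [h.inv γ hγ z hz]
  have k1 := g3_real D r1 r2 (ire h1) (ire h2) (lre h1) (lre h2) a1 b1 a3 b3 hne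
  have k2 := g3_real D r1 s2 (ire h1) (iim h2) (lre h1) (lim h2) a1 b2 a3 b4 hne
  have k3 := g3_real D s1 r2 (iim h1) (ire h2) (lim h1) (lre h2) a2 b1 a4 b3 hne
  have k4 := g3_real D s1 s2 (iim h1) (iim h2) (lim h1) (lim h2) a2 b2 a4 b4 hne
  have j1 := n2_integrable_mul (measurable_wG D G) r1 r2 a1 b1
  have j2 := n2_integrable_mul (measurable_wG D G) r1 s2 a1 b2
  have j3 := n2_integrable_mul (measurable_wG D G) s1 r2 a2 b1
  have j4 := n2_integrable_mul (measurable_wG D G) s1 s2 a2 b2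
  rw [rho, integral_withDensity_eq_integral_toReal_smul (measurable_wG D G)
    (Filter.Eventually.of_forall fun z => lt_top_iff_ne_top.2 (wG_ne_top D G z))]
  have h5 : (fun z : X => (wG D G z).toReal • (star (f1 z.1) * f2 z.1)) = fun z : X =>
      ((((wG D G z).toReal * ((f1 z.1).re * (f2 z.1).re) : ℝ) : ℂ) +
        (((wG D G z).toReal * ((f1 z.1).im * (f2 z.1).im) : ℝ) : ℂ)) +
      ((((wG D G z).toReal * ((f1 z.1).re * (f2 z.1).im) : ℝ) : ℂ) -
        (((wG D G z).toReal * ((f1 z.1).im * (f2 z.1).re) : ℝ) : ℂ)) * Complex.I := by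
    funext z
    apply Complex.ext
    · simp
      ring
    · simp
      ring
  have p1 : Integrable (fun z : X =>
      (((wG D G z).toReal * ((f1 z.1).re * (f2 z.1).re) : ℝ) : ℂ)) mu := j1.ofReal
  have p2 : Integrable (fun z : X =>
      (((wG D G z).toReal * ((f1 z.1).re * (f2 z.1).im) : ℝ) : ℂ)) mu := j2.ofReal
  have p3 : Integrable (fun z : X =>
      (((wG D G z).toReal * ((f1 z.1).im * (f2 z.1).re) : ℝ) : ℂ)) mu := j3.ofReal
  have p4 : Integrable (fun z : X =>
      (((wG D G z).toReal * ((f1 z.1).im * (f2 z.1).im) : ℝ) : ℂ)) mu := j4.ofReal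
  have p5 : Integrable (fun z : X =>
      (((wG D G z).toReal * ((f1 z.1).re * (f2 z.1).re) : ℝ) : ℂ) +
      (((wG D G z).toReal * ((f1 z.1).im * (f2 z.1).im) : ℝ) : ℂ)) mu := p1.add p4
  have p6 : Integrable (fun z : X =>
      ((((wG D G z).toReal * ((f1 z.1).re * (f2 z.1).im) : ℝ) : ℂ) -
      (((wG D G z).toReal * ((f1 z.1).im * (f2 z.1).re) : ℝ) : ℂ)) * Complex.I) mu :=
    (p2.sub p3).mul_const _
  rw [h5, integral_add p5 p6, integral_add p1 p4,
    integral_mul_const, integral_sub p2 p3, integral_complex_ofReal, integral_complex_ofReal,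
    integral_complex_ofReal, integral_complex_ofReal]
  rw [k1, k2, k3, k4]
  simp


end

end Pool.Agent.Lib.H56M
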