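import Pool.Agent.Lib.H56M.O5

/-!
# L1: square integrability
-/

namespace Pool.Agent.Lib.H56M

open Matrix hiding J
open MeasureTheory Topology Filter
open Pool.Agent.Lib.H56.Picard hiding O Gam mem_Gam star_mem_O T_mem sg_mem
open Pool.Agent.Lib.H56.Gen
open Pool.Agent.Lib.H56D hiding om wG rho Eig Good K0
open scoped ENNReal

noncomputable section

theorem Eig_L2 {q : QD} {D : MC q} {G : Subgroup (Gam q)} {f : ℂ × ℂ → ℂ}
    {lam : ℂ} (h : Eig D G f lam) :
    ∫⁻ z : X, wG D G z * ENNReal.ofReal (Complex.normSq (f z.1)) ∂mu ≠ ⊤ := h.L2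

end

end Pool.Agent.Lib.H56M
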