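import Pool.Agent.Lib.H56M.Defs

/-!
# M1: Minkowski
-/

namespace Pool.Agent.Lib.H56M

open Matrix hiding J
open MeasureTheory Topology Filter
open Pool.Agent.Lib.H56.Picard hiding O Gam mem_Gam star_mem_O T_mem sg_mem
open Pool.Agent.Lib.H56.Gen
open Pool.Agent.Lib.H56D hiding om wG rho Eig Good K0
open scoped ENNReal

noncomputable section

/-- squared Euclidean norm -/
def m1N (y : Fin 3 → ℂ) : ℝ := ∑ i, Complex.normSq (y i)

lemma m1N_nonneg (y : Fin 3 → ℂ) : 0 ≤ m1N y :=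
  Finset.sum_nonneg fun _ _ => Complex.normSq_nonneg _

lemma m1N_pos {y : Fin 3 → ℂ} (h : y ≠ 0) : 0 < m1N y := by
  rcases (m1N_nonneg y).lt_or_eq with h1 | h1
  · exact h1
  · exfalso
    apply h
    funext i
    have h2 := (Finset.sum_eq_zero_iff_of_nonneg
      (fun i _ => Complex.normSq_nonneg (y i))).1 h1.symm i (Finset.mem_univ i)
    exact Complex.normSq_eq_zero.1 h2

lemma m1_normSq_sub (a b : ℂ) :
    Complex.normSq (a - b) ≤ 2 * Complex.normSq a + 2 * Complex.normSq b := by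
  simp only [Complex.normSq_apply, Complex.sub_re, Complex.sub_im]
  nlinarith [sq_nonneg (a.re + b.re), sq_nonneg (a.im + b.im)]

lemma m1N_sub (y z : Fin 3 → ℂ) : m1N (y - z) ≤ 2 * m1N y + 2 * m1N z := by
  unfold m1N
  rw [Finset.mul_sum, Finset.mul_sum, ← Finset.sum_add_distrib]
  exact Finset.sum_le_sum fun i _ => m1_normSq_sub _ _

lemma m1N_neg (y : Fin 3 → ℂ) : m1N (-y) = m1N y := by
  unfold m1N
  exact Finset.sum_congr rfl fun i _ => Complex.normSq_neg _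

lemma m1N_smul (t : ℝ) (y : Fin 3 → ℂ) : m1N ((t : ℂ) • y) = t ^ 2 * m1N y := by
  unfold m1N
  rw [Finset.mul_sum]
  refine Finset.sum_congr rfl fun i _ => ?_
  rw [Pi.smul_apply, smul_eq_mul, Complex.normSq_mul, Complex.normSq_ofReal]
  ring

lemma m1N_pyth (t : ℝ) (e w : Fin 3 → ℂ) (h : star e ⬝ᵥ w = 0) :
    m1N (w - (t : ℂ) • e) = m1N w + t ^ 2 * m1N e := by
  have h1 : ∀ i, Complex.normSq ((w - (t : ℂ) • e) i) = Complex.normSq (w i) +
      t ^ 2 * Complex.normSq (e i) - 2 * t * ((star e) i * w i).re := by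
    intro i
    simp only [Complex.normSq_apply, Pi.sub_apply, Pi.smul_apply, smul_eq_mul, Complex.sub_re,
      Complex.sub_im, Complex.mul_re, Complex.mul_im, Complex.ofReal_re, Complex.ofReal_im,
      Pi.star_apply, RCLike.star_def, Complex.conj_re, Complex.conj_im]
    ring
  have h2 : ∑ i, ((star e) i * w i).re = 0 := by
    rw [← Complex.re_sum]
    have : ∑ i, (star e) i * w i = 0 := h
    rw [this, Complex.zero_re]
  unfold m1N
  simp only [h1]
  rw [Finset.sum_sub_distrib, Finset.sum_add_distrib, ← Finset.mul_sum, ← Finset.mul_sum, h2]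
  ring

lemma m1N_cont : Continuous m1N := by
  unfold m1N
  exact continuous_finset_sum _ fun i _ => Complex.continuous_normSq.comp (continuous_apply i)

/-- the small ball -/
def m1V : Set (Fin 3 → ℂ) := {y | m1N y < 1 / 8}

lemma m1V_open : IsOpen m1V := isOpen_lt m1N_cont continuous_const

lemma m1V_pos : (volume : Measure (Fin 3 → ℂ)) m1V ≠ 0 := by
  refine (m1V_open.measure_pos volume ⟨0, ?_⟩).ne'
  show m1N 0 < 1 / 8
  unfold m1N
  simp

/-- real basis of `ℂ` -/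
lemma m1_linInd (q : QD) : LinearIndependent ℝ ![(1 : ℂ), el q 0 1] := by
  rw [LinearIndependent.pair_iff]
  intro s t h
  have h1 := congrArg Complex.im h
  have h2 := congrArg Complex.re h
  simp only [Complex.add_im, Complex.real_smul, Complex.mul_im, Complex.ofReal_re,
    Complex.ofReal_im, Complex.one_im, el_im, el_re, Complex.add_re, Complex.mul_re,
    Complex.one_re, Complex.zero_re, Complex.zero_im] at h1 h2
  have ht : t = 0 := by
    have h3 : t * sd q = 0 := by push_cast at h1; linarith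
    exact (mul_eq_zero.1 h3).resolve_right (sd_pos q).ne'
  subst ht
  refine ⟨?_, rfl⟩
  simpa using h2

/-- real basis of `ℂ` -/
def m1b (q : QD) : Module.Basis (Fin 2) ℝ ℂ :=
  basisOfLinearIndependentOfCardEqFinrank (m1_linInd q) (by simp [Complex.finrank_real_complex])

lemma m1b_mem (q : QD) (k : Fin 2) : m1b q k ∈ OO q := by
  unfold m1b
  rw [coe_basisOfLinearIndependentOfCardEqFinrank]
  fin_cases k
  · exact (OO q).one_mem
  · exact el_mem 0 1

/-- real basis of `ℂ³` -/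
def m1B (q : QD) : Module.Basis (Σ _ : Fin 3, Fin 2) ℝ (Fin 3 → ℂ) := Pi.basis fun _ => m1b q

lemma m1B_span (q : QD) {v : Fin 3 → ℂ} (hv : v ∈ Submodule.span ℤ (Set.range (m1B q))) :
    v ∈ O3 q := by
  induction hv using Submodule.span_induction with
  | mem x hx =>
    obtain ⟨⟨i, k⟩, rfl⟩ := hx
    intro j
    unfold m1B
    rw [Pi.basis_apply]
    by_cases h : j = i
    · subst h
      rw [Pi.single_eq_same]
      exact m1b_mem q k
    · rw [Pi.single_eq_of_ne h]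
      exact (OO q).zero_mem
  | zero => exact fun j => (OO q).zero_mem
  | add x y _ _ hx hy => exact fun j => (OO q).add_mem (hx j) (hy j)
  | smul a x _ hx => exact fun j => (OO q).toAddSubgroup.zsmul_mem (hx j) a

lemma m1_measure (g : SU21) (s : Set (Fin 3 → ℂ)) :
    (volume : Measure (Fin 3 → ℂ)) ((fun x => mat g *ᵥ x) ⁻¹' s) = volume s := by
  set f : (Fin 3 → ℂ) →ₗ[ℝ] (Fin 3 → ℂ) := (Matrix.toLin' (mat g)).restrictScalars ℝ with hf
  have hdet : LinearMap.det f = 1 := by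
    rw [hf, LinearMap.det_restrictScalars, LinearMap.det_toLin', g.2.2, map_one]
  have h1 := Measure.addHaar_preimage_linearMap (volume : Measure (Fin 3 → ℂ)) (f := f)
    (by rw [hdet]; exact one_ne_zero) s
  have h2 : (volume : Measure (Fin 3 → ℂ)) (f ⁻¹' s) = volume s := by
    rw [h1, hdet]
    simp
  exact h2

/-- Minkowski's theorem: for a lattice `g⁻¹ O³` with minimum at least `1` the vectors of norm at most
`B` are not contained in a hyperplane.
PROOF. `E = Fin 3 → ℂ` with `volume`; the lattice `L = O³` is the `ℤ`-span of a real basis of `E`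
(`el q 1 0 = 1`, `el q 0 1` in each coordinate; `ZSpan.isAddFundamentalDomain`, its volume
`V` is finite, `ZSpan.fundamentalDomain_isBounded`). Let `A = mat g⁻¹`, `|det A| = 1`, so as a real
linear map `x ↦ A *ᵥ x` has determinant of absolute value `|det A|² = 1`
(`LinearMap.det_restrictScalars`, or `Matrix.toLin'`) and preserves the volume. We may take
`∑ |e_i|² = 1`. Let `S = {x | ∃ t : ℂ, ‖t‖ < R, ∑ i, |(A x)_i - t e_i|² < 1/4}`: convex, symmetric. The
sets `S_k = {x | ∑ i, |(A x)_i - k e_i|² < 1/4}`, `k = 0, …, n` (`n < R`) are contained in `S`, pairwise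
disjoint, and translates of `S_0`, whose volume is the volume `v > 0` of
`{y | ∑ |y_i|² < 1/4}` (independent of `g`). So `vol S ≥ (n + 1) v > 2⁶ V` for `n` large (depending
only on `q`), and `MeasureTheory.exists_ne_zero_mem_lattice_of_measure_mul_two_pow_lt_measure` gives
`0 ≠ b ∈ L` in `S`: `NG g b ≤ (R + 1/2)² =: B`, `A b = y + t e` with `|y|² < 1/4`. If `⟨e, A b⟩ = 0`, then
`A b` is the component of `y` orthogonal to `e`, `NG g b = |A b|² ≤ |y|² < 1`, against `Min1`. -/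
theorem mink (q : QD) : ∃ B : ℝ, 1 ≤ B ∧ ∀ g : SU21, Min1 q g → ∀ e : Fin 3 → ℂ, e ≠ 0 →
    ∃ b ∈ O3 q, NG g b ≤ B ∧ star e ⬝ᵥ (mat g⁻¹ *ᵥ b) ≠ 0 := by
  have hV : volume (ZSpan.fundamentalDomain (m1B q)) ≠ ⊤ :=
    (ZSpan.fundamentalDomain_isBounded (m1B q)).measure_lt_top.ne
  obtain ⟨n, hn⟩ := ENNReal.exists_nat_mul_gt m1V_pos hV
  refine ⟨2 * (n : ℝ) ^ 2 + 1, by nlinarith [sq_nonneg (n : ℝ)], fun g hmin e he => ?_⟩
  set c : ℝ := (√(m1N e))⁻¹ with hc
  have hpos := m1N_pos he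
  have hc0 : c ≠ 0 := inv_ne_zero (Real.sqrt_pos.2 hpos).ne'
  set u : Fin 3 → ℂ := (c : ℂ) • e with hu
  have hu1 : m1N u = 1 := by
    rw [hu, m1N_smul, hc, inv_pow, Real.sq_sqrt hpos.le, inv_mul_cancel₀ hpos.ne']
  set S : ℕ → Set (Fin 3 → ℂ) := fun k =>
    (fun x => mat g⁻¹ *ᵥ x) ⁻¹' ((fun y => y - ((k : ℝ) : ℂ) • u) ⁻¹' m1V) with hS
  have hSv : ∀ k, volume (S k) = volume m1V := by
    intro k
    rw [hS]
    simp only [sub_eq_add_neg]
    rw [m1_measure, measure_preimage_add_right]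
  have hSo : ∀ k, IsOpen (S k) := by
    intro k
    refine m1V_open.preimage ?_ |>.preimage ?_
    · exact continuous_id.sub continuous_const
    · exact continuous_const.matrix_mulVec continuous_id
  have hdisj : ∀ k l : ℕ, k ≠ l → Disjoint (S k) (S l) := by
    intro k l hkl
    rw [Set.disjoint_left]
    intro x hxk hxl
    have h1 : m1N (mat g⁻¹ *ᵥ x - ((k : ℝ) : ℂ) • u) < 1 / 8 := hxk
    have h2 : m1N (mat g⁻¹ *ᵥ x - ((l : ℝ) : ℂ) • u) < 1 / 8 := hxl
    have h3 := m1N_sub (mat g⁻¹ *ᵥ x - ((k : ℝ) : ℂ) • u) (mat g⁻¹ *ᵥ x - ((l : ℝ) : ℂ) • u)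
    have h4 : (mat g⁻¹ *ᵥ x - ((k : ℝ) : ℂ) • u) - (mat g⁻¹ *ᵥ x - ((l : ℝ) : ℂ) • u) =
        (((l : ℝ) - (k : ℝ) : ℝ) : ℂ) • u := by
      push_cast
      module
    rw [h4, m1N_smul, hu1, mul_one] at h3
    have h5 : (1 : ℝ) ≤ ((l : ℝ) - (k : ℝ)) ^ 2 := by
      have h6 : (1 : ℤ) ≤ ((l : ℤ) - (k : ℤ)) ^ 2 := by
        have h7 : (l : ℤ) - (k : ℤ) ≠ 0 := by omega
        have := Int.one_le_abs h7
        nlinarith [sq_abs ((l : ℤ) - (k : ℤ)), abs_nonneg ((l : ℤ) - (k : ℤ))]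
      exact_mod_cast h6
    linarith
  set T : Set (Fin 3 → ℂ) := ⋃ k ∈ Finset.range n, S k with hT
  have hTv : volume T = n * volume m1V := by
    rw [hT, measure_biUnion_finset (fun k _ l _ hkl => hdisj k l hkl)
      (fun k _ => (hSo k).measurableSet)]
    simp only [hSv]
    rw [Finset.sum_const, Finset.card_range, nsmul_eq_mul]
  have hTm : MeasurableSet T :=
    Finset.measurableSet_biUnion _ fun k _ => (hSo k).measurableSet
  haveI : Countable (Submodule.span ℤ (Set.range (m1B q))).toAddSubgroup := by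
    change Countable (Submodule.span ℤ (Set.range (m1B q)))
    infer_instance
  obtain ⟨x, y, hxy, hnd⟩ := exists_pair_mem_lattice_not_disjoint_vadd
    (ZSpan.isAddFundamentalDomain' (m1B q) volume) hTm.nullMeasurableSet (by rw [hTv]; exact hn)
  obtain ⟨w, hw1, hw2⟩ := Set.not_disjoint_iff.1 hnd
  obtain ⟨s, hs, rfl⟩ := hw1
  obtain ⟨s', hs', hss⟩ := hw2
  rw [hT, Set.mem_iUnion₂] at hs hs'
  obtain ⟨k, hk, hk'⟩ := hs
  obtain ⟨l, hl, hl'⟩ := hs'
  rw [Finset.mem_range] at hk hl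
  have hss' : (y : Fin 3 → ℂ) + s' = x + s := hss
  set b : Fin 3 → ℂ := (x : Fin 3 → ℂ) - y with hb
  have hbs : b = s' - s := by
    rw [hb, sub_eq_sub_iff_add_eq_add, ← hss', add_comm]
  have hb0 : b ≠ 0 := by
    rw [hb, sub_ne_zero]
    exact fun h => hxy (Subtype.ext h)
  have hbO : b ∈ O3 q := m1B_span q (Submodule.sub_mem _ x.2 y.2)
  set z : Fin 3 → ℂ := mat g⁻¹ *ᵥ b - (((l : ℝ) - (k : ℝ) : ℝ) : ℂ) • u with hz
  have hzN : m1N z < 1 / 2 := by
    have h1 : m1N (mat g⁻¹ *ᵥ s - ((k : ℝ) : ℂ) • u) < 1 / 8 := hk'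
    have h2 : m1N (mat g⁻¹ *ᵥ s' - ((l : ℝ) : ℂ) • u) < 1 / 8 := hl'
    have h3 := m1N_sub (mat g⁻¹ *ᵥ s' - ((l : ℝ) : ℂ) • u) (mat g⁻¹ *ᵥ s - ((k : ℝ) : ℂ) • u)
    have h4 : (mat g⁻¹ *ᵥ s' - ((l : ℝ) : ℂ) • u) - (mat g⁻¹ *ᵥ s - ((k : ℝ) : ℂ) • u) = z := by
      rw [hz, hbs, Matrix.mulVec_sub]
      push_cast
      module
    rw [h4] at h3
    linarith
  have hNG : NG g b = m1N (mat g⁻¹ *ᵥ b) := rfl
  refine ⟨b, hbO, ?_, ?_⟩
  · have h1 := m1N_sub ((((l : ℝ) - (k : ℝ) : ℝ) : ℂ) • u) (-z)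
    have h2 : ((((l : ℝ) - (k : ℝ) : ℝ) : ℂ) • u) - (-z) = mat g⁻¹ *ᵥ b := by
      rw [hz]
      abel
    rw [h2, m1N_neg, m1N_smul, hu1, mul_one] at h1
    have h3 : ((l : ℝ) - (k : ℝ)) ^ 2 ≤ (n : ℝ) ^ 2 := by
      have hk2 : (k : ℝ) ≤ n := by exact_mod_cast hk.le
      have hl2 : (l : ℝ) ≤ n := by exact_mod_cast hl.le
      have hk3 : (0 : ℝ) ≤ k := Nat.cast_nonneg k
      have hl3 : (0 : ℝ) ≤ l := Nat.cast_nonneg l
      apply sq_le_sq'
      · linarith
      · linarith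
    rw [hNG]
    linarith
  · intro h
    have h0 : star u ⬝ᵥ (mat g⁻¹ *ᵥ b) = 0 := by
      rw [hu, star_smul, smul_dotProduct, h, smul_zero]
    have h1 := m1N_pyth ((l : ℝ) - (k : ℝ)) u (mat g⁻¹ *ᵥ b) h0
    rw [← hz] at h1
    have h2 := hmin b hbO hb0
    rw [hNG] at h2
    have h3 : 0 ≤ ((l : ℝ) - (k : ℝ)) ^ 2 * m1N u := mul_nonneg (sq_nonneg _) (m1N_nonneg _)
    linarith

end

end Pool.Agent.Lib.H56M
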