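import Pool.Agent.Lib.H56M.M1

/-!
# M2: three independent short vectors
-/

namespace Pool.Agent.Lib.H56M

open Matrix hiding J
open MeasureTheory Topology Filter
open Pool.Agent.Lib.H56.Picard hiding O Gam mem_Gam star_mem_O T_mem sg_mem
open Pool.Agent.Lib.H56.Gen
open Pool.Agent.Lib.H56D hiding om wG rho Eig Good K0
open scoped ENNReal

noncomputable section

/-- Apply `mink` three times. `b₁`: any `e ≠ 0`. `b₂`: `e ≠ 0` orthogonal to `x = g⁻¹ b₁` (`star e ⬝ᵥ x = 0`;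
e.g. one of `star (-x 1, x 0, 0)`, `star (-x 2, 0, x 0)`, `star (0, -x 2, x 1)`), so `x`, `y = g⁻¹ b₂` are
linearly independent (`y = c x` would give `0`; `x ≠ 0`), so `x ⨯₃ y ≠ 0`. `b₃`: `e = star (x ⨯₃ y)`, so the determinant of
the matrix with columns `x, y, g⁻¹ b₃` is nonzero; it is `det (mat g⁻¹ * b) = det b`. -/
theorem three (q : QD) : ∃ B : ℝ, 1 ≤ B ∧ ∀ g : SU21, Min1 q g →
    ∃ b : Matrix (Fin 3) (Fin 3) ℂ, (∀ i j, b i j ∈ OO q) ∧ b.det ≠ 0 ∧
      ∀ j, NG g (fun i => b i j) ≤ B := by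
  obtain ⟨B, hB, hM⟩ := mink q
  refine ⟨B, hB, fun g hg => ?_⟩
  obtain ⟨b1, m1, n1, d1⟩ := hM g hg ![1, 0, 0] (by
    intro h
    have := congrFun h 0
    simp at this)
  obtain ⟨x, hx⟩ : ∃ x, x = mat g⁻¹ *ᵥ b1 := ⟨_, rfl⟩
  rw [← hx] at d1
  have d1' : x 0 ≠ 0 := by
    simpa [dotProduct, Fin.sum_univ_three] using d1
  obtain ⟨b2, m2, n2, d2⟩ := hM g hg ![-star (x 1), star (x 0), 0] (by
    intro h
    have := congrFun h 1
    simp at this
    exact d1' this)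
  obtain ⟨y, hy⟩ : ∃ y, y = mat g⁻¹ *ᵥ b2 := ⟨_, rfl⟩
  rw [← hy] at d2
  have d2' : x 0 * y 1 - x 1 * y 0 ≠ 0 := by
    intro h
    apply d2
    simp [dotProduct, Fin.sum_univ_three]
    linear_combination h
  obtain ⟨b3, m3, n3, d3⟩ := hM g hg ![star (x 1 * y 2 - x 2 * y 1), star (x 2 * y 0 - x 0 * y 2),
    star (x 0 * y 1 - x 1 * y 0)] (by
    intro h
    have h2 : star (x 0 * y 1 - x 1 * y 0) = 0 := congrFun h 2
    rw [star_eq_zero] at h2
    exact d2' h2)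
  obtain ⟨z, hz⟩ : ∃ z, z = mat g⁻¹ *ᵥ b3 := ⟨_, rfl⟩
  rw [← hz] at d3
  have c1 : (fun i => (!![b1 0, b2 0, b3 0; b1 1, b2 1, b3 1; b1 2, b2 2, b3 2] :
      Matrix (Fin 3) (Fin 3) ℂ) i 0) = b1 := by
    funext i
    fin_cases i <;> rfl
  have c2 : (fun i => (!![b1 0, b2 0, b3 0; b1 1, b2 1, b3 1; b1 2, b2 2, b3 2] :
      Matrix (Fin 3) (Fin 3) ℂ) i 1) = b2 := by
    funext i
    fin_cases i <;> rfl
  have c3 : (fun i => (!![b1 0, b2 0, b3 0; b1 1, b2 1, b3 1; b1 2, b2 2, b3 2] :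
      Matrix (Fin 3) (Fin 3) ℂ) i 2) = b3 := by
    funext i
    fin_cases i <;> rfl
  refine ⟨!![b1 0, b2 0, b3 0; b1 1, b2 1, b3 1; b1 2, b2 2, b3 2], ?_, ?_, ?_⟩
  · intro i j
    fin_cases j
    · have := congrFun c1 i
      have h2 := m1 i
      rw [← this] at h2
      exact h2
    · have := congrFun c2 i
      have h2 := m2 i
      rw [← this] at h2
      exact h2
    · have := congrFun c3 i
      have h2 := m3 i
      rw [← this] at h2
      exact h2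
  · intro h0
    have h1 : mat g⁻¹ * !![b1 0, b2 0, b3 0; b1 1, b2 1, b3 1; b1 2, b2 2, b3 2] =
        !![x 0, y 0, z 0; x 1, y 1, z 1; x 2, y 2, z 2] := by
      rw [hx, hy, hz]
      refine Matrix.ext fun i j => ?_
      fin_cases i <;> fin_cases j <;>
        simp [Matrix.mul_apply, Matrix.mulVec, dotProduct, Fin.sum_univ_three]
    have h2 := congrArg Matrix.det h1
    rw [det_mul, h0, mul_zero, det_fin_three] at h2
    simp at h2
    apply d3
    simp [dotProduct, Fin.sum_univ_three]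
    linear_combination -h2
  · intro j
    fin_cases j
    · show NG g (fun i => (!![b1 0, b2 0, b3 0; b1 1, b2 1, b3 1; b1 2, b2 2, b3 2] :
        Matrix (Fin 3) (Fin 3) ℂ) i 0) ≤ B
      rw [c1]
      exact n1
    · show NG g (fun i => (!![b1 0, b2 0, b3 0; b1 1, b2 1, b3 1; b1 2, b2 2, b3 2] :
        Matrix (Fin 3) (Fin 3) ℂ) i 1) ≤ B
      rw [c2]
      exact n2
    · show NG g (fun i => (!![b1 0, b2 0, b3 0; b1 1, b2 1, b3 1; b1 2, b2 2, b3 2] :
        Matrix (Fin 3) (Fin 3) ℂ) i 2) ≤ B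
      rw [c3]
      exact n3

end

end Pool.Agent.Lib.H56M
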