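import Pool.Agent.Lib.H56M.Defs

/-!
# M3: finitely many orbits of short tuples
-/

namespace Pool.Agent.Lib.H56M

open Matrix hiding J
open MeasureTheory Topology Filter
open Pool.Agent.Lib.H56.Picard hiding O Gam mem_Gam star_mem_O T_mem sg_mem
open Pool.Agent.Lib.H56.Gen
open Pool.Agent.Lib.H56D hiding om wG rho Eig Good K0
open scoped ENNReal

noncomputable section

/-- column of a matrix -/
def m3col (b : Matrix (Fin 3) (Fin 3) ℂ) (j : Fin 3) : Fin 3 → ℂ := fun i => b i j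

lemma m3_gram (b : Matrix (Fin 3) (Fin 3) ℂ) (i j : Fin 3) :
    (bᴴ * J * b) i j = hf (m3col b i) (m3col b j) := by
  rw [hf_apply]
  simp [Matrix.mul_apply, Fin.sum_univ_three, J, m3col]
  ring

lemma m3_gram_vec (b : Matrix (Fin 3) (Fin 3) ℂ) (v : Fin 3 → ℂ) (i : Fin 3) :
    ((bᴴ * J) *ᵥ v) i = hf (m3col b i) v := by
  rw [hf_apply]
  simp [Matrix.mulVec, dotProduct, Matrix.mul_apply, Fin.sum_univ_three, J, m3col]
  ring

lemma m3_hf_mem {q : QD} {Z W : Fin 3 → ℂ} (hZ : Z ∈ O3 q) (hW : W ∈ O3 q) : hf Z W ∈ OO q := by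
  rw [hf_apply]
  exact (OO q).add_mem ((OO q).add_mem ((OO q).mul_mem (star_mem _ (hZ 0)) (hW 2))
    ((OO q).mul_mem (star_mem _ (hZ 1)) (hW 1))) ((OO q).mul_mem (star_mem _ (hZ 2)) (hW 0))

lemma m3_hf_bound {Z W : Fin 3 → ℂ} {r : ℝ} (hZ : ∀ i, ‖Z i‖ ≤ r) (hW : ∀ i, ‖W i‖ ≤ r) :
    ‖hf Z W‖ ≤ 3 * (r * r) := by
  have hr : 0 ≤ r := (norm_nonneg _).trans (hZ 0)
  have h : ∀ i j, ‖star (Z i) * W j‖ ≤ r * r := by
    intro i j
    rw [norm_mul, norm_star]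
    exact mul_le_mul (hZ i) (hW j) (norm_nonneg _) hr
  rw [hf_apply]
  refine (norm_add_le _ _).trans ?_
  have h1 := norm_add_le (star (Z 0) * W 2) (star (Z 1) * W 1)
  have h2 := h 0 2
  have h3 := h 1 1
  have h4 := h 2 0
  linarith

lemma m3_det_bound {A : Matrix (Fin 3) (Fin 3) ℂ} {r : ℝ} (h : ∀ i j, ‖A i j‖ ≤ r) :
    ‖A.det‖ ≤ 6 * (r * r * r) := by
  have hr : 0 ≤ r := (norm_nonneg _).trans (h 0 0)
  have h3 : ∀ i j k l m n, ‖A i j * A k l * A m n‖ ≤ r * r * r := by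
    intro i j k l m n
    rw [norm_mul, norm_mul]
    exact mul_le_mul (mul_le_mul (h i j) (h k l) (norm_nonneg _) hr) (h m n) (norm_nonneg _)
      (mul_nonneg hr hr)
  rw [Matrix.det_fin_three]
  refine (norm_sub_le _ _).trans ?_
  have e1 := norm_add_le (A 0 0 * A 1 1 * A 2 2 - A 0 0 * A 1 2 * A 2 1 - A 0 1 * A 1 0 * A 2 2 +
    A 0 1 * A 1 2 * A 2 0) (A 0 2 * A 1 0 * A 2 1)
  have e2 := norm_add_le (A 0 0 * A 1 1 * A 2 2 - A 0 0 * A 1 2 * A 2 1 - A 0 1 * A 1 0 * A 2 2)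
    (A 0 1 * A 1 2 * A 2 0)
  have e3 := norm_sub_le (A 0 0 * A 1 1 * A 2 2 - A 0 0 * A 1 2 * A 2 1) (A 0 1 * A 1 0 * A 2 2)
  have e4 := norm_sub_le (A 0 0 * A 1 1 * A 2 2) (A 0 0 * A 1 2 * A 2 1)
  have f1 := h3 0 0 1 1 2 2
  have f2 := h3 0 0 1 2 2 1
  have f3 := h3 0 1 1 0 2 2
  have f4 := h3 0 1 1 2 2 0
  have f5 := h3 0 2 1 0 2 1
  have f6 := h3 0 2 1 1 2 0
  linarith

section entries

variable {q : QD} {b : Matrix (Fin 3) (Fin 3) ℂ}

lemma m3_lift (hb : ∀ i j, b i j ∈ OO q) :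
    ∃ b' : Matrix (Fin 3) (Fin 3) (OO q), b = (OO q).subtype.mapMatrix b' :=
  ⟨fun i j => ⟨b i j, hb i j⟩, rfl⟩

lemma m3_det_mem (hb : ∀ i j, b i j ∈ OO q) : b.det ∈ OO q := by
  obtain ⟨b', rfl⟩ := m3_lift hb
  rw [← RingHom.map_det]
  exact (b'.det).2

lemma m3_adj_mem (hb : ∀ i j, b i j ∈ OO q) (i j : Fin 3) : b.adjugate i j ∈ OO q := by
  obtain ⟨b', rfl⟩ := m3_lift hb
  rw [← RingHom.map_adjugate]
  exact (b'.adjugate i j).2

end entries

/-- the norm as a natural number -/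
def m3n (x : ℂ) : ℕ := ⌊Complex.normSq x⌋₊

lemma m3n_eq {q : QD} {x : ℂ} (hx : x ∈ OO q) : ((m3n x : ℕ) : ℂ) = star x * x := by
  obtain ⟨n, hn, h⟩ := normSq_mem hx
  have h1 : ((m3n x : ℕ) : ℝ) = Complex.normSq x := by
    unfold m3n
    rw [h]
    obtain ⟨k, rfl⟩ := Int.eq_ofNat_of_zero_le hn
    simp
  have h2 : ((m3n x : ℕ) : ℂ) = ((Complex.normSq x : ℝ) : ℂ) := by
    rw [← h1]
    simp
  rw [h2, Complex.normSq_eq_conj_mul_self]
  rfl

lemma m3n_pos {q : QD} {x : ℂ} (hx : x ∈ OO q) (h0 : x ≠ 0) : m3n x ≠ 0 := by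
  intro h
  have h1 := m3n_eq hx
  rw [h, Nat.cast_zero] at h1
  rcases mul_eq_zero.1 h1.symm with h2 | h2
  · exact h0 (star_eq_zero.1 h2)
  · exact h0 h2

open Classical in
/-- residues -/
def m3res (q : QD) (M : ℕ) (x : ℂ) : ZMod M × ZMod M :=
  if h : ∃ a b : ℤ, x = el q a b then ((h.choose : ZMod M), (h.choose_spec.choose : ZMod M))
  else (0, 0)

lemma m3res_sub {q : QD} {M : ℕ} {x y : ℂ} (hx : x ∈ OO q) (hy : y ∈ OO q)
    (h : m3res q M x = m3res q M y) : ∃ z ∈ OO q, x - y = M * z := by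
  have hx' : ∃ a b : ℤ, x = el q a b := hx
  have hy' : ∃ a b : ℤ, y = el q a b := hy
  unfold m3res at h
  rw [dif_pos hx', dif_pos hy'] at h
  obtain ⟨h1, h2⟩ := Prod.ext_iff.1 h
  simp only at h1 h2
  have e1 := hx'.choose_spec.choose_spec
  have e2 := hy'.choose_spec.choose_spec
  rw [eq_comm, ZMod.intCast_eq_intCast_iff_dvd_sub] at h1 h2
  obtain ⟨c, hc⟩ := h1
  obtain ⟨d, hd⟩ := h2
  refine ⟨el q c d, el_mem c d, ?_⟩
  conv_lhs => rw [e1, e2]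
  have hM : (M : ℂ) = el q (M : ℤ) 0 := by rw [el_int]; simp
  rw [el_sub, hc, hd, hM, el_mul]
  congr 1 <;> ring

/-- The tuples `(b, v)` with `b` of nonzero determinant, whose four vectors are short for the same `g`, form
finitely many orbits of `Gam q`.
PROOF. Put `A = mat g⁻¹ * b`, entries bounded by `√B`. Invariants of `(b, v)`: (1) the Gram matrix
`bᴴ J b = Aᴴ J A` (`mat_unitary`), entries in `O = OO q`, bounded; (2) the vector `bᴴ J v`, entries in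
`O`, bounded; (3) `det b = det A ∈ O`, bounded; (4) the residues of the entries `b i j` modulo `M`,
where `M ≥ 1` is a natural number divisible in `O` by every nonzero element of `O` of absolute value at most
the bound in (3) (the product of their norms `|x|² = x · star x`, which are natural numbers). All four
take finitely many values (`finite_ball`; for (4) write the entries as `el q a b` and take `a, b` modulo `M`).
Choose one tuple `p` for each value that occurs. Let `(b, v)`, `(b', v')` have the same invariants. Then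
`T = b' * b⁻¹` has `det T = 1` and `Tᴴ J T = J`, and `T = 1 + (b' - b) * b.adjugate / det b` has entries in
`O` as `b' - b` is divisible by `M`, so by `det b`. So `T ∈ Gam q` (`mkSU`, `mem_arith`), `T b = b'`. Finally
`hf`-products of `T v - v'` with the columns of `b'` vanish: `b'ᴴ J T v = bᴴ Tᴴ J T v = bᴴ J v = b'ᴴ J v'`, and
`b'ᴴ J` is invertible, so `T v = v'`. -/
theorem finite_tuples (q : QD) (B : ℝ) :
    ∃ F : Finset (Matrix (Fin 3) (Fin 3) ℂ × (Fin 3 → ℂ)),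
      (∀ p ∈ F, (∀ i j, p.1 i j ∈ OO q) ∧ p.1.det ≠ 0 ∧ p.2 ∈ O3 q) ∧
      ∀ (g : SU21) (b : Matrix (Fin 3) (Fin 3) ℂ) (v : Fin 3 → ℂ), (∀ i j, b i j ∈ OO q) →
        b.det ≠ 0 → v ∈ O3 q → (∀ j, NG g (fun i => b i j) ≤ B) → NG g v ≤ B →
        ∃ γ : Gam q, ∃ p ∈ F, b = mat γ.1 * p.1 ∧ v = mat γ.1 *ᵥ p.2 := by
  classical
  set r : ℝ := √B with hr
  set C : ℝ := 3 * (r * r) + 6 * (r * r * r) with hC
  have hr0 : 0 ≤ r := Real.sqrt_nonneg _
  have hC1 : 3 * (r * r) ≤ C := by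
    have : 0 ≤ r * r * r := by positivity
    linarith
  have hC2 : 6 * (r * r * r) ≤ C := by
    have : 0 ≤ r * r := by positivity
    linarith
  set F1 : Set ℂ := {x | x ∈ OO q ∧ ‖x‖ ≤ C} with hF1
  have hF1fin : F1.Finite := finite_ball C
  set M : ℕ := ∏ x ∈ hF1fin.toFinset.filter (· ≠ 0), m3n x with hM
  have hM0 : M ≠ 0 := by
    rw [hM, Finset.prod_ne_zero_iff]
    intro x hx
    rw [Finset.mem_filter, Set.Finite.mem_toFinset] at hx
    exact m3n_pos hx.1.1 hx.2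
  haveI : NeZero M := ⟨hM0⟩
  have hMdvd : ∀ d ∈ F1, d ≠ 0 → ∃ c ∈ OO q, (M : ℂ) = c * d := by
    intro d hd hd0
    have hmem : d ∈ hF1fin.toFinset.filter (· ≠ 0) := by
      rw [Finset.mem_filter, Set.Finite.mem_toFinset]
      exact ⟨hd, hd0⟩
    refine ⟨star d * ((∏ x ∈ (hF1fin.toFinset.filter (· ≠ 0)).erase d, m3n x : ℕ) : ℂ), ?_, ?_⟩
    · exact (OO q).mul_mem (star_mem _ hd.1) (natCast_mem (OO q) _)
    · rw [hM, ← Finset.mul_prod_erase _ _ hmem, Nat.cast_mul, m3n_eq hd.1]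
      ring
  set S : Set (Matrix (Fin 3) (Fin 3) ℂ × (Fin 3 → ℂ)) := {p | (∀ i j, p.1 i j ∈ OO q) ∧
    p.1.det ≠ 0 ∧ p.2 ∈ O3 q ∧ ∃ g : SU21, (∀ j, NG g (m3col p.1 j) ≤ B) ∧ NG g p.2 ≤ B} with hS
  set Φ : Matrix (Fin 3) (Fin 3) ℂ × (Fin 3 → ℂ) →
      (Fin 3 → Fin 3 → ℂ) × (Fin 3 → ℂ) × ℂ × (Fin 3 → Fin 3 → ZMod M × ZMod M) := fun p =>
    (fun i j => hf (m3col p.1 i) (m3col p.1 j), fun i => hf (m3col p.1 i) p.2, p.1.det,
      fun i j => m3res q M (p.1 i j)) with hΦ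
  have hfin : (Φ '' S).Finite := by
    have h1 : ({f : Fin 3 → Fin 3 → ℂ | ∀ i, f i ∈ {f : Fin 3 → ℂ | ∀ j, f j ∈ F1}} ×ˢ
        ({f : Fin 3 → ℂ | ∀ j, f j ∈ F1} ×ˢ (F1 ×ˢ
        (Set.univ : Set (Fin 3 → Fin 3 → ZMod M × ZMod M))))).Finite :=
      (Set.Finite.pi' fun _ => Set.Finite.pi' fun _ => hF1fin).prod
        ((Set.Finite.pi' fun _ => hF1fin).prod (hF1fin.prod Set.finite_univ))
    refine h1.subset ?_
    rintro _ ⟨p, ⟨hb, hdet, hv, g, hg1, hg2⟩, rfl⟩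
    have hent : ∀ w : Fin 3 → ℂ, NG g w ≤ B → ∀ i, ‖(mat g⁻¹ *ᵥ w) i‖ ≤ r := by
      intro w hw i
      have h2 : Complex.normSq ((mat g⁻¹ *ᵥ w) i) ≤ B := by
        refine le_trans ?_ hw
        unfold NG
        exact Finset.single_le_sum (f := fun i => Complex.normSq ((mat g⁻¹ *ᵥ w) i))
          (fun i _ => Complex.normSq_nonneg _) (Finset.mem_univ i)
      rw [hr]
      apply Real.le_sqrt_of_sq_le
      rw [← Complex.normSq_eq_norm_sq]
      exact h2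
    have hcol : ∀ j, m3col p.1 j ∈ O3 q := fun j i => hb i j
    refine ⟨fun i j => ⟨m3_hf_mem (hcol i) (hcol j), ?_⟩,
      fun i => ⟨m3_hf_mem (hcol i) hv, ?_⟩, ⟨m3_det_mem hb, ?_⟩, Set.mem_univ _⟩
    · show ‖hf (m3col p.1 i) (m3col p.1 j)‖ ≤ C
      rw [← hf_mulVec (mat_unitary g⁻¹)]
      exact (m3_hf_bound (hent _ (hg1 i)) (hent _ (hg1 j))).trans hC1
    · show ‖hf (m3col p.1 i) p.2‖ ≤ C
      rw [← hf_mulVec (mat_unitary g⁻¹)]
      exact (m3_hf_bound (hent _ (hg1 i)) (hent _ hg2)).trans hC1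
    · have h2 : p.1.det = (mat g⁻¹ * p.1).det := by
        rw [Matrix.det_mul, (g⁻¹).2.2, one_mul]
      show ‖p.1.det‖ ≤ C
      rw [h2]
      refine (m3_det_bound (r := r) fun i j => ?_).trans hC2
      exact hent _ (hg1 j) i
  obtain ⟨F, hF1', hF2⟩ := Finset.subset_set_image_iff.1 (show (↑hfin.toFinset : Set _) ⊆ Φ '' S by
    rw [Set.Finite.coe_toFinset])
  refine ⟨F, fun p hp => ?_, ?_⟩
  · obtain ⟨h1, h2, h3, -⟩ := hF1' hp
    exact ⟨h1, h2, h3⟩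
  · intro g b v hb hdet hv hg1 hg2
    have hpS : (b, v) ∈ S := ⟨hb, hdet, hv, g, hg1, hg2⟩
    have h1 : Φ (b, v) ∈ F.image Φ := by
      rw [hF2, Set.Finite.mem_toFinset]
      exact Set.mem_image_of_mem _ hpS
    obtain ⟨⟨b₀, v₀⟩, hpF, hp⟩ := Finset.mem_image.1 h1
    obtain ⟨hb0, hdet0, hv0, g0, hg01, hg02⟩ := hF1' hpF
    simp only at hb0 hdet0 hv0
    rw [hΦ] at hp
    simp only [Prod.mk.injEq] at hp
    obtain ⟨e1, e2, e3, e4⟩ := hp
    have hdF : b₀.det ∈ F1 := by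
      have h2 : Φ (b₀, v₀) ∈ Φ '' S := Set.mem_image_of_mem _ (hF1' hpF)
      refine ⟨m3_det_mem hb0, ?_⟩
      have hent : ∀ w : Fin 3 → ℂ, NG g0 w ≤ B → ∀ i, ‖(mat g0⁻¹ *ᵥ w) i‖ ≤ r := by
        intro w hw i
        have h2 : Complex.normSq ((mat g0⁻¹ *ᵥ w) i) ≤ B := by
          refine le_trans ?_ hw
          unfold NG
          exact Finset.single_le_sum (f := fun i => Complex.normSq ((mat g0⁻¹ *ᵥ w) i))
            (fun i _ => Complex.normSq_nonneg _) (Finset.mem_univ i)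
        rw [hr]
        apply Real.le_sqrt_of_sq_le
        rw [← Complex.normSq_eq_norm_sq]
        exact h2
      have h3 : b₀.det = (mat g0⁻¹ * b₀).det := by
        rw [Matrix.det_mul, (g0⁻¹).2.2, one_mul]
      rw [h3]
      refine (m3_det_bound (r := r) fun i j => ?_).trans hC2
      exact hent _ (hg01 j) i
    obtain ⟨c, hc, hcM⟩ := hMdvd _ hdF hdet0
    have hE : ∀ i j, ∃ z ∈ OO q, b i j - b₀ i j = M * z := fun i j =>
      m3res_sub (hb i j) (hb0 i j) (congrFun (congrFun e4 i) j).symm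
    choose E hE1 hE2 using hE
    have hbE : b = b₀ + (M : ℂ) • Matrix.of E := by
      ext i j
      rw [Matrix.add_apply, Matrix.smul_apply, Matrix.of_apply, smul_eq_mul, ← hE2]
      ring
    set T : Matrix (Fin 3) (Fin 3) ℂ := 1 + c • (Matrix.of E * b₀.adjugate) with hT
    have hTb : T * b₀ = b := by
      rw [hT, Matrix.add_mul, Matrix.one_mul, Matrix.smul_mul, Matrix.mul_assoc,
        Matrix.adjugate_mul, Matrix.mul_smul, Matrix.mul_one, smul_smul, ← hcM, ← hbE]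
    have hTmem : ∀ i j, T i j ∈ OO q := by
      intro i j
      rw [hT, Matrix.add_apply, Matrix.smul_apply, smul_eq_mul, Matrix.mul_apply]
      refine (OO q).add_mem ?_ ((OO q).mul_mem hc ((OO q).sum_mem fun k _ =>
        (OO q).mul_mem (hE1 i k) (m3_adj_mem hb0 k j)))
      rw [Matrix.one_apply]
      split_ifs
      · exact (OO q).one_mem
      · exact (OO q).zero_mem
    have hu0 : IsUnit b₀.det := isUnit_iff_ne_zero.2 hdet0
    have hG : b₀ᴴ * J * b₀ = bᴴ * J * b := by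
      ext i j
      rw [m3_gram, m3_gram]
      exact congrFun (congrFun e1 i) j
    have hTJ : Tᴴ * J * T = J := by
      have h2 : b₀ᴴ * (Tᴴ * J * T) * b₀ = b₀ᴴ * J * b₀ := by
        rw [hG, ← hTb, conjTranspose_mul]
        simp only [Matrix.mul_assoc]
      have hu1 : IsUnit (b₀ᴴ).det := by
        rw [Matrix.det_conjTranspose]
        exact isUnit_iff_ne_zero.2 (star_ne_zero.2 hdet0)
      have h3 : (b₀ᴴ)⁻¹ * (b₀ᴴ * (Tᴴ * J * T) * b₀) * b₀⁻¹ =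
          (b₀ᴴ)⁻¹ * (b₀ᴴ * J * b₀) * b₀⁻¹ := by rw [h2]
      have h4 : ∀ Y : Matrix (Fin 3) (Fin 3) ℂ, (b₀ᴴ)⁻¹ * (b₀ᴴ * Y * b₀) * b₀⁻¹ = Y := by
        intro Y
        rw [Matrix.mul_assoc b₀ᴴ, ← Matrix.mul_assoc (b₀ᴴ)⁻¹, Matrix.nonsing_inv_mul _ hu1,
          Matrix.one_mul, Matrix.mul_assoc, Matrix.mul_nonsing_inv _ hu0, Matrix.mul_one]
      rwa [h4, h4] at h3
    have hTd : T.det = 1 := by
      have h2 := congrArg Matrix.det hTb
      rw [Matrix.det_mul, ← e3] at h2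
      exact mul_right_cancel₀ hdet0 (by rw [h2, one_mul])
    let γ : Gam q := ⟨mkSU T hTJ hTd, fun i j => hTmem i j⟩
    refine ⟨γ, (b₀, v₀), hpF, hTb.symm, ?_⟩
    show v = T *ᵥ v₀
    have h2 : (bᴴ * J) *ᵥ (T *ᵥ v₀) = (bᴴ * J) *ᵥ v := by
      have h3 : (bᴴ * J) *ᵥ v = (b₀ᴴ * J) *ᵥ v₀ := by
        funext i
        rw [m3_gram_vec, m3_gram_vec]
        exact (congrFun e2 i).symm
      rw [h3, mulVec_mulVec]
      congr 1
      rw [← hTb, conjTranspose_mul]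
      calc b₀ᴴ * Tᴴ * J * T = b₀ᴴ * (Tᴴ * J * T) := by
            simp only [Matrix.mul_assoc]
        _ = _ := by rw [hTJ]
    have h3 : (bᴴ * J).det ≠ 0 := by
      rw [Matrix.det_mul, Matrix.det_conjTranspose]
      refine mul_ne_zero (star_ne_zero.2 hdet) ?_
      simp [J, Matrix.det_fin_three]
    have h4 : (bᴴ * J) *ᵥ (v - T *ᵥ v₀) = 0 := by
      rw [Matrix.mulVec_sub, h2, sub_self]
    exact sub_eq_zero.1 (Matrix.eq_zero_of_mulVec_eq_zero h3 h4)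

end

end Pool.Agent.Lib.H56M
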