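import Pool.Agent.Lib.H56M.Defs
import Pool.Agent.Lib.H56D.S3

/-!
# M4: compactness
-/

namespace Pool.Agent.Lib.H56M

open Matrix hiding J
open MeasureTheory Topology Filter
open Pool.Agent.Lib.H56.Picard hiding O Gam mem_Gam star_mem_O T_mem sg_mem
open Pool.Agent.Lib.H56.Gen
open Pool.Agent.Lib.H56D hiding om wG rho Eig Good K0
open scoped ENNReal

noncomputable section

theorem m4_entry (B : ℝ) {b : Matrix (Fin 3) (Fin 3) ℂ} (hb : b.det ≠ 0) :
    ∃ C : ℝ, 1 ≤ C ∧ ∀ g : SU21, (∀ j, NG g (fun i => b i j) ≤ B) → ∀ i j, ‖mat g i j‖ ≤ C := by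
  obtain ⟨S, hS⟩ : ∃ S : ℝ, S = √(max B 0) := ⟨_, rfl⟩
  have hS0 : 0 ≤ S := by rw [hS]; exact Real.sqrt_nonneg _
  refine ⟨1 + S * ∑ k, ∑ j, ‖b⁻¹ k j‖, by
    have : 0 ≤ S * ∑ k, ∑ j, ‖b⁻¹ k j‖ := by positivity
    linarith, ?_⟩
  intro g hg
  -- entries of `mat g⁻¹`
  have hA : ∀ i k, ‖(mat g⁻¹ * b) i k‖ ≤ S := by
    intro i k
    have h1 := hg k
    unfold NG at h1
    have h2 : Complex.normSq ((mat g⁻¹ *ᵥ fun i => b i k) i) ≤ B :=
      le_trans (Finset.single_le_sum (f := fun i => Complex.normSq ((mat g⁻¹ *ᵥ fun i => b i k) i))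
        (fun _ _ => Complex.normSq_nonneg _) (Finset.mem_univ i)) h1
    have h3 : (mat g⁻¹ *ᵥ fun i => b i k) i = (mat g⁻¹ * b) i k := by
      rw [Matrix.mul_apply, Matrix.mulVec, dotProduct]
    rw [h3, Complex.normSq_eq_norm_sq] at h2
    rw [hS]
    apply Real.le_sqrt_of_sq_le
    exact h2.trans (le_max_left _ _)
  have hinv : ∀ i j, ‖mat g⁻¹ i j‖ ≤ 1 + S * ∑ k, ∑ j, ‖b⁻¹ k j‖ := by
    intro i j
    have h1 : mat g⁻¹ = (mat g⁻¹ * b) * b⁻¹ := by
      rw [Matrix.mul_assoc, Matrix.mul_nonsing_inv _ (isUnit_iff_ne_zero.2 hb), Matrix.mul_one]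
    have h2 : ‖mat g⁻¹ i j‖ ≤ ∑ k, S * ‖b⁻¹ k j‖ := by
      conv_lhs => rw [h1, Matrix.mul_apply]
      refine (norm_sum_le _ _).trans (Finset.sum_le_sum fun k _ => ?_)
      rw [norm_mul]
      exact mul_le_mul_of_nonneg_right (hA i k) (norm_nonneg _)
    rw [← Finset.mul_sum] at h2
    have h3 : ∑ k, ‖b⁻¹ k j‖ ≤ ∑ k, ∑ j, ‖b⁻¹ k j‖ :=
      Finset.sum_le_sum fun k _ => Finset.single_le_sum (f := fun j => ‖b⁻¹ k j‖)
        (fun _ _ => norm_nonneg _) (Finset.mem_univ j)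
    have h4 := mul_le_mul_of_nonneg_left h3 hS0
    linarith
  intro i j
  have h1 : mat g = J * (mat g⁻¹)ᴴ * J := by
    have := mat_inv g⁻¹
    rw [inv_inv] at this
    exact this
  have h2 : mat g i j = star (mat g⁻¹ (2 - j) (2 - i)) := by
    conv_lhs => rw [h1]
    fin_cases i <;> fin_cases j <;>
      simp [J, Matrix.mul_apply, Fin.sum_univ_three, Matrix.vecMul, dotProduct]
  rw [h2, norm_star]
  exact hinv _ _

/-- `mat g⁻¹ = (mat g⁻¹ * b) * b⁻¹` has bounded entries, so `mat g = J (mat g⁻¹)ᴴ J` as well (`mat_inv`):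
all entries at most `C`. Let `W = mat g *ᵥ lift o` (`|W i| ≤ 2C`), `z = act (mat g) o`, `j = jf (mat g) o = W 2`.
`height z = height o / |j|² ≥ 1/(4C²)` (`height_act`, `height o = 1`), and `hf W W = hf (lift o) (lift o) = -1`
(`hf_mulVec`, `hf_lift`) gives `1 ≤ 2 |W 0| |W 2|`, so `|j| ≥ 1/(4C)` and the coordinates of `z` are bounded
by `8 C²`. `S = {z | 1/(4C²) ≤ height z} ∩` closed ball. -/
theorem compact_of (B : ℝ) {b : Matrix (Fin 3) (Fin 3) ℂ} (hb : b.det ≠ 0) :
    ∃ S : Set (ℂ × ℂ), IsCompact S ∧ S ⊆ U ∧ ∀ g : SU21, (∀ j, NG g (fun i => b i j) ≤ B) →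
      act (mat g) o ∈ S := by
  obtain ⟨C, hC1, hC⟩ := m4_entry B hb
  have hC0 : 0 < C := by linarith
  refine ⟨Metric.closedBall 0 (8 * C ^ 2) ∩ {z | 1 / (4 * C ^ 2) ≤ height z}, ?_, ?_, ?_⟩
  · exact (isCompact_closedBall _ _).inter_right (isClosed_le continuous_const continuous_height)
  · rintro z ⟨-, hz⟩
    have h1 : 0 < 1 / (4 * C ^ 2) := by positivity
    exact lt_of_lt_of_le h1 hz
  · intro g hg
    have hE := hC g hg
    have ho : height o = 1 := by simp [height, o]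
    have hj : jf (mat g) o ≠ 0 := jf_ne_zero (mat_unitary g) o_mem
    obtain ⟨W, hW⟩ : ∃ W, W = mat g *ᵥ lift o := ⟨_, rfl⟩
    have hWb : ∀ i, ‖W i‖ ≤ 2 * C := by
      intro i
      have h1 : W i = mat g i 0 * (-(1 / 2)) + mat g i 1 * 0 + mat g i 2 * 1 := by
        rw [hW]
        simp [Matrix.mulVec, dotProduct, Fin.sum_univ_three, lift, o]
      rw [h1, mul_one]
      have h2 := norm_add_le (mat g i 0 * (-(1 / 2)) + mat g i 1 * 0) (mat g i 2 * 1)
      have h3 : ‖mat g i 0 * (-(1 / 2)) + mat g i 1 * 0‖ = ‖mat g i 0‖ / 2 := by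
        rw [mul_zero, add_zero, norm_mul, norm_neg]
        norm_num
        ring
      rw [h3, mul_one] at h2
      have h4 := hE i 0
      have h5 := hE i 2
      linarith
    have hjW : jf (mat g) o = W 2 := by rw [hW]; rfl
    have h1 : hf W W = -1 := by
      rw [hW, hf_mulVec (mat_unitary g), hf_lift, ho]
      simp
    have h2 : 1 ≤ 2 * (‖W 0‖ * ‖W 2‖) := by
      rw [hf_apply] at h1
      have h3 := congrArg Complex.re h1
      rw [Complex.add_re, Complex.add_re] at h3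
      have h4 : (star (W 1) * W 1).re = Complex.normSq (W 1) := by
        rw [Complex.star_def, ← Complex.normSq_eq_conj_mul_self, Complex.ofReal_re]
      have h5 : -(‖W 0‖ * ‖W 2‖) ≤ (star (W 0) * W 2).re := by
        have := (abs_le.1 (Complex.abs_re_le_norm (star (W 0) * W 2))).1
        rwa [norm_mul, norm_star] at this
      have h6 : -(‖W 2‖ * ‖W 0‖) ≤ (star (W 2) * W 0).re := by
        have := (abs_le.1 (Complex.abs_re_le_norm (star (W 2) * W 0))).1
        rwa [norm_mul, norm_star] at this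
      have h7 := Complex.normSq_nonneg (W 1)
      rw [h4] at h3
      have h8 : (-1 : ℂ).re = -1 := by simp
      rw [h8] at h3
      linarith
    have h3 : 1 / (4 * C) ≤ ‖W 2‖ := by
      rw [div_le_iff₀ (by positivity)]
      have h4 := mul_le_mul_of_nonneg_right (hWb 0) (norm_nonneg (W 2))
      nlinarith
    have h4 : 0 < ‖W 2‖ := lt_of_lt_of_le (by positivity) h3
    have hco : ∀ i, ‖W i / W 2‖ ≤ 8 * C ^ 2 := by
      intro i
      rw [norm_div, div_le_iff₀ h4]
      have h5 := mul_le_mul_of_nonneg_left h3 (show 0 ≤ 8 * C ^ 2 by positivity)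
      have h6 : 8 * C ^ 2 * (1 / (4 * C)) = 2 * C := by field_simp; ring
      rw [h6] at h5
      exact (hWb i).trans h5
    refine ⟨?_, ?_⟩
    · rw [mem_closedBall_zero_iff]
      have h5 : act (mat g) o = (W 0 / W 2, W 1 / W 2) := by
        rw [hW]
        rfl
      rw [h5, Prod.norm_def]
      exact max_le (hco 0) (hco 1)
    · rw [Set.mem_ofPred_eq, height_act (mat_unitary g) o_mem, ho, hjW, Complex.normSq_eq_norm_sq]
      apply one_div_le_one_div_of_le (by positivity)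
      have := pow_le_pow_left₀ (norm_nonneg _) (hWb 2) 2
      nlinarith

end

end Pool.Agent.Lib.H56M
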