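import Pool.Agent.Lib.H56M.Defs
import Pool.Agent.Lib.H56D.S3

/-!
# M5: short vectors and heights
-/

namespace Pool.Agent.Lib.H56M

open Matrix hiding J
open MeasureTheory Topology Filter
open Pool.Agent.Lib.H56.Picard hiding O Gam mem_Gam star_mem_O T_mem sg_mem
open Pool.Agent.Lib.H56.Gen
open Pool.Agent.Lib.H56D hiding om wG rho Eig Good K0
open scoped ENNReal

noncomputable section

theorem m5_inv (g : SU21) (v : Fin 3 → ℂ) : mat g *ᵥ (mat g⁻¹ *ᵥ v) = v := by
  rw [mulVec_mulVec, ← mat_mul, mul_inv_cancel, mat_one, one_mulVec]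

/-- `jf (mat g⁻¹) z = (mat g⁻¹ *ᵥ lift z) 2 = hf e₁ (mat g⁻¹ *ᵥ lift z) = hf (mat g *ᵥ e₁) (lift z)`, `height_act`. -/
theorem height_cusp (g : SU21) {z : ℂ × ℂ} (hz : z ∈ U) :
    height (act (mat g⁻¹) z) =
      height z / Complex.normSq (hf (mat g *ᵥ ![1, 0, 0]) (lift z)) := by
  have h1 : hf (mat g *ᵥ ![1, 0, 0]) (lift z) = jf (mat g⁻¹) z := by
    conv_lhs => rw [← m5_inv g (lift z)]
    rw [hf_mulVec (mat_unitary g), hf_apply, jf]
    simp
  rw [h1]
  exact height_act (mat_unitary g⁻¹) hz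

/-- `|hf v v| = |hf (g⁻¹ v) (g⁻¹ v)| ≤ ∑ |(g⁻¹ v)_i|² = NG g v < 1` (`hf_apply`, `2|ab| ≤ |a|² + |b|²`) and
`hf v v ∈ OO q`: `one_le_norm`. -/
theorem isotropic_of_short {q : QD} {g : SU21} {v : Fin 3 → ℂ} (hv : v ∈ O3 q) (h : NG g v < 1) :
    hf v v = 0 := by
  by_contra hne
  have hm : hf v v ∈ OO q := by
    rw [hf_apply]
    exact (OO q).add_mem ((OO q).add_mem ((OO q).mul_mem (star_mem _ (hv 0)) (hv 2))
      ((OO q).mul_mem (star_mem _ (hv 1)) (hv 1))) ((OO q).mul_mem (star_mem _ (hv 2)) (hv 0))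
  have h1 := one_le_norm _ hm hne
  have h2 : hf v v = hf (mat g⁻¹ *ᵥ v) (mat g⁻¹ *ᵥ v) := (hf_mulVec (mat_unitary g⁻¹) v v).symm
  unfold NG at h
  rw [h2, hf_apply] at h1
  generalize (mat g⁻¹ *ᵥ v) = x at h h1
  rw [Fin.sum_univ_three] at h
  have h3 := (norm_add_le _ _).trans (add_le_add_left
    (norm_add_le (star (x 0) * x 2) (star (x 1) * x 1)) (‖star (x 2) * x 0‖))
  simp only [norm_mul, norm_star] at h3
  simp only [Complex.normSq_eq_norm_sq] at h
  nlinarith [sq_nonneg (‖x 0‖ - ‖x 2‖)]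

/-- With `z = act (mat g) o`, `j = jf (mat g) o`: `j • lift z = mat g *ᵥ lift o`, so
`j * hf v (lift z) = hf v (mat g *ᵥ lift o) = hf (mat g⁻¹ *ᵥ v) (lift o)`, of squared absolute value at most
`NG g v * (1 + 1/4)` (Cauchy-Schwarz; `lift o = (-1/2, 0, 1)`), and `height z = 1 / |j|²`. -/
theorem height_short (g : SU21) (v : Fin 3 → ℂ) :
    Complex.normSq (hf v (lift (act (mat g) o))) ≤ 5 / 4 * NG g v * height (act (mat g) o) := by
  have hj : jf (mat g) o ≠ 0 := jf_ne_zero (mat_unitary g) o_mem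
  have hj2 : 0 < Complex.normSq (jf (mat g) o) := Complex.normSq_pos.2 hj
  have ho : height o = 1 := by simp [height, o]
  rw [height_act (mat_unitary g) o_mem, ho]
  have h1 : jf (mat g) o * hf v (lift (act (mat g) o)) = hf (mat g⁻¹ *ᵥ v) (lift o) := by
    have h2 : hf v (mat g *ᵥ lift o) = hf (mat g⁻¹ *ᵥ v) (lift o) := by
      conv_lhs => rw [← m5_inv g v]
      exact hf_mulVec (mat_unitary g) _ _
    rw [← h2, mulVec_lift hj, hf_apply, hf_apply]
    simp only [Pi.smul_apply, smul_eq_mul]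
    ring
  have h2 : Complex.normSq (hf (mat g⁻¹ *ᵥ v) (lift o)) ≤ 5 / 4 * NG g v := by
    unfold NG
    rw [hf_apply, Fin.sum_univ_three]
    generalize (mat g⁻¹ *ᵥ v) = x
    simp only [lift, o, Matrix.cons_val_zero, Matrix.cons_val_one, Matrix.cons_val]
    simp only [mul_one, mul_zero, add_zero, Complex.normSq_apply, Complex.add_re, Complex.add_im,
      Complex.star_def, Complex.mul_re, Complex.mul_im, Complex.conj_re, Complex.conj_im,
      Complex.neg_re, Complex.neg_im, Complex.div_ofNat_re, Complex.div_ofNat_im, Complex.one_re,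
      Complex.one_im]
    nlinarith [sq_nonneg ((x 0).re * 2 + (x 2).re), sq_nonneg ((x 0).re + 2 * (x 2).re),
      sq_nonneg ((x 0).im + 2 * (x 2).im), sq_nonneg ((x 0).im * 2 + (x 2).im),
      sq_nonneg (x 1).re, sq_nonneg (x 1).im,
      sq_nonneg ((x 0).re), sq_nonneg ((x 2).re), sq_nonneg ((x 0).im), sq_nonneg ((x 2).im)]
  rw [← h1, map_mul] at h2
  rw [mul_one_div, le_div_iff₀ hj2]
  linarith

end

end Pool.Agent.Lib.H56M
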