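import Pool.Agent.Lib.H56M.Defs

/-!
# M6: rational elements moving the cusp at infinity
-/

namespace Pool.Agent.Lib.H56M

open Matrix hiding J
open MeasureTheory Topology Filter
open Pool.Agent.Lib.H56.Picard hiding O Gam mem_Gam star_mem_O T_mem sg_mem
open Pool.Agent.Lib.H56.Gen
open Pool.Agent.Lib.H56D hiding om wG rho Eig Good K0
open scoped ENNReal

noncomputable section

theorem m6_one {a : ℂ} (ha : a ≠ 0) :
    (!![a, 0, 0; 0, star a / a, 0; 0, 0, 1 / star a] : Matrix (Fin 3) (Fin 3) ℂ)ᴴ * J *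
      !![a, 0, 0; 0, star a / a, 0; 0, 0, 1 / star a] = J := by
  have ha' : (starRingEnd ℂ) a ≠ 0 := by simpa using ha
  ext i j
  fin_cases i <;> fin_cases j <;>
    simp [J, Matrix.mul_apply, Fin.sum_univ_three, ha, ha', Complex.star_def]

theorem m6_two {a b c : ℂ} (hc : c ≠ 0) (h0 : star a * c + star b * b + star c * a = 0) :
    (!![a, star b / c, 1 / star c; b, -(star c / c), 0; c, 0, 0] : Matrix (Fin 3) (Fin 3) ℂ)ᴴ * J *
      !![a, star b / c, 1 / star c; b, -(star c / c), 0; c, 0, 0] = J := by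
  have hc' : (starRingEnd ℂ) c ≠ 0 := by simpa using hc
  simp only [Complex.star_def] at h0
  ext i j
  fin_cases i <;> fin_cases j
  · simp [J, Matrix.mul_apply, Fin.sum_univ_three, Complex.star_def]
    linear_combination h0
  · simp [J, Matrix.mul_apply, Fin.sum_univ_three, Complex.star_def]
    field_simp
    ring
  · simp [J, Matrix.mul_apply, Fin.sum_univ_three, hc, hc', Complex.star_def]
  · simp [J, Matrix.mul_apply, Fin.sum_univ_three, Complex.star_def]
    field_simp
    ring
  · simp [J, Matrix.mul_apply, Fin.sum_univ_three, hc, hc', Complex.star_def]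
  · simp [J, Matrix.mul_apply, Fin.sum_univ_three, hc, hc', Complex.star_def]
  · simp [J, Matrix.mul_apply, Fin.sum_univ_three, hc, hc', Complex.star_def]
  · simp [J, Matrix.mul_apply, Fin.sum_univ_three, hc, hc', Complex.star_def]
  · simp [J, Matrix.mul_apply, Fin.sum_univ_three, hc, hc', Complex.star_def]

/-- If `v 2 = 0` then `v 1 = 0` (`hf v v = |v 1|²`) and `g = diag(a, ā/a, 1/ā)`, `a = v 0`, `N = |a|²`
(a positive natural number). If `v 2 ≠ 0`: `l = v 1 / v 2`, `w = v 0 / v 2`, `2 Re w = -|l|²`,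
`a = -v 2`, `g = TM l w * (-J) * diag(a, ā/a, 1/ā)`: the first column is `-a (w, l, 1) = v`, the
determinant is `1`, `gᴴ J g = J`; `N = |v 2|⁴` (or more). Use `mkSU` from `H56/Picard/Heis.lean`. -/
theorem exists_elt {q : QD} {v : Fin 3 → ℂ} (hv : v ∈ O3 q) (hv0 : v ≠ 0) (h0 : hf v v = 0) :
    ∃ g : SU21, ∃ N : ℕ, 1 ≤ N ∧ (∀ i j, (N : ℂ) * mat g i j ∈ OO q) ∧
      mat g *ᵥ ![1, 0, 0] = v := by
  rw [hf_apply] at h0
  have hN : ∀ x : ℂ, x ∈ OO q → x ≠ 0 → ∃ N : ℕ, 1 ≤ N ∧ (N : ℂ) = star x * x := by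
    intro x hx hx0
    obtain ⟨n, hn0, hn⟩ := normSq_mem hx
    have h1 : 1 ≤ n := by
      have := one_le_normSq hx hx0
      rw [hn] at this
      exact_mod_cast this
    obtain ⟨N, rfl⟩ := Int.eq_ofNat_of_zero_le hn0
    refine ⟨N, by exact_mod_cast h1, ?_⟩
    rw [Complex.star_def, ← Complex.normSq_eq_conj_mul_self, hn]
    simp
  by_cases h2 : v 2 = 0
  · have h1 : v 1 = 0 := by
      rw [h2] at h0
      simp at h0
      exact h0
    have ha : v 0 ≠ 0 := by
      intro h
      apply hv0
      funext i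
      fin_cases i
      · exact h
      · exact h1
      · exact h2
    have ha' : star (v 0) ≠ 0 := by simpa using ha
    obtain ⟨N, hN1, hN2⟩ := hN _ (hv 0) ha
    have hs := star_mem _ (hv 0)
    refine ⟨mkSU _ (m6_one ha) ?_, N, hN1, ?_, ?_⟩
    · rw [det_fin_three]
      simp
      field_simp
      exact div_self ha'
    · intro i j
      rw [mat_mkSU, hN2]
      fin_cases i <;> fin_cases j
      · simp only [Matrix.of_apply, Matrix.cons_val', Matrix.cons_val_zero, Matrix.cons_val_fin_one,
          Fin.zero_eta, Fin.isValue]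
        exact (OO q).mul_mem ((OO q).mul_mem hs (hv 0)) (hv 0)
      · simp
      · simp
      · simp
      · have : star (v 0) * v 0 * (star (v 0) / v 0) = star (v 0) * star (v 0) := by
          field_simp
        simp only [Matrix.of_apply, Matrix.cons_val', Matrix.cons_val_one, Matrix.cons_val_zero,
          Matrix.cons_val_fin_one, Fin.mk_one, Fin.isValue]
        rw [this]
        exact (OO q).mul_mem hs hs
      · simp
      · simp
      · simp
      · have : star (v 0) * v 0 * (1 / star (v 0)) = v 0 := by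
          field_simp
        have h5 : (!![v 0, 0, 0; 0, star (v 0) / v 0, 0; 0, 0, 1 / star (v 0)] :
          Matrix (Fin 3) (Fin 3) ℂ) 2 2 = 1 / star (v 0) := rfl
        show star (v 0) * v 0 * (!![v 0, 0, 0; 0, star (v 0) / v 0, 0; 0, 0, 1 / star (v 0)] :
          Matrix (Fin 3) (Fin 3) ℂ) 2 2 ∈ OO q
        rw [h5, this]
        exact hv 0
    · rw [mat_mkSU]
      funext i
      fin_cases i
      · simp [Matrix.mulVec, dotProduct, Fin.sum_univ_three]
      · simp [Matrix.mulVec, dotProduct, Fin.sum_univ_three, h1]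
      · simp [Matrix.mulVec, dotProduct, Fin.sum_univ_three, h2]
  · have h2' : star (v 2) ≠ 0 := by simpa using h2
    obtain ⟨N, hN1, hN2⟩ := hN _ (hv 2) h2
    have s1 := star_mem _ (hv 1)
    have s2 := star_mem _ (hv 2)
    refine ⟨mkSU _ (m6_two (a := v 0) (b := v 1) h2 h0) ?_, N, hN1, ?_, ?_⟩
    · rw [det_fin_three]
      simp
      field_simp
      exact div_self h2'
    · have e1 : star (v 2) * v 2 * (star (v 1) / v 2) = star (v 2) * star (v 1) := by
        field_simp
      have e2 : star (v 2) * v 2 * (1 / star (v 2)) = v 2 := by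
        field_simp
      have e3 : star (v 2) * v 2 * (-(star (v 2) / v 2)) = -(star (v 2) * star (v 2)) := by
        field_simp
      have hNm : star (v 2) * v 2 ∈ OO q := (OO q).mul_mem s2 (hv 2)
      obtain ⟨X, hX⟩ : ∃ X : Matrix (Fin 3) (Fin 3) ℂ, X = !![v 0, star (v 1) / v 2, 1 / star (v 2);
          v 1, -(star (v 2) / v 2), 0; v 2, 0, 0] := ⟨_, rfl⟩
      have x00 : X 0 0 = v 0 := by rw [hX]; rfl
      have x01 : X 0 1 = star (v 1) / v 2 := by rw [hX]; rfl
      have x02 : X 0 2 = 1 / star (v 2) := by rw [hX]; rfl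
      have x10 : X 1 0 = v 1 := by rw [hX]; rfl
      have x11 : X 1 1 = -(star (v 2) / v 2) := by rw [hX]; rfl
      have x12 : X 1 2 = 0 := by rw [hX]; rfl
      have x20 : X 2 0 = v 2 := by rw [hX]; rfl
      have x21 : X 2 1 = 0 := by rw [hX]; rfl
      have x22 : X 2 2 = 0 := by rw [hX]; rfl
      intro i j
      rw [mat_mkSU, hN2, ← hX]
      fin_cases i <;> fin_cases j
      · show star (v 2) * v 2 * X 0 0 ∈ OO q
        rw [x00]
        exact (OO q).mul_mem hNm (hv 0)
      · show star (v 2) * v 2 * X 0 1 ∈ OO q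
        rw [x01, e1]
        exact (OO q).mul_mem s2 s1
      · show star (v 2) * v 2 * X 0 2 ∈ OO q
        rw [x02, e2]
        exact hv 2
      · show star (v 2) * v 2 * X 1 0 ∈ OO q
        rw [x10]
        exact (OO q).mul_mem hNm (hv 1)
      · show star (v 2) * v 2 * X 1 1 ∈ OO q
        rw [x11, e3]
        exact (OO q).neg_mem ((OO q).mul_mem s2 s2)
      · show star (v 2) * v 2 * X 1 2 ∈ OO q
        rw [x12, mul_zero]
        exact (OO q).zero_mem
      · show star (v 2) * v 2 * X 2 0 ∈ OO q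
        rw [x20]
        exact (OO q).mul_mem hNm (hv 2)
      · show star (v 2) * v 2 * X 2 1 ∈ OO q
        rw [x21, mul_zero]
        exact (OO q).zero_mem
      · show star (v 2) * v 2 * X 2 2 ∈ OO q
        rw [x22, mul_zero]
        exact (OO q).zero_mem
    · rw [mat_mkSU]
      funext i
      fin_cases i
      · simp [Matrix.mulVec, dotProduct, Fin.sum_univ_three]
      · simp [Matrix.mulVec, dotProduct, Fin.sum_univ_three]
      · simp [Matrix.mulVec, dotProduct, Fin.sum_univ_three]

end

end Pool.Agent.Lib.H56M
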