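import Pool.Agent.Lib.H56M.M2
import Pool.Agent.Lib.H56M.M3
import Pool.Agent.Lib.H56M.M5
import Pool.Agent.Lib.H56M.M6

/-!
# M7: finitely many cusps
-/

namespace Pool.Agent.Lib.H56M

open Matrix hiding J
open MeasureTheory Topology Filter
open Pool.Agent.Lib.H56.Picard hiding O Gam mem_Gam star_mem_O T_mem sg_mem
open Pool.Agent.Lib.H56.Gen
open Pool.Agent.Lib.H56D hiding om wG rho Eig Good K0
open scoped ENNReal

noncomputable section

/-- Euclidean norm squared. -/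
def m7_E (x : Fin 3 → ℂ) : ℝ := ∑ i, Complex.normSq (x i)

theorem m7_E_smul (c : ℂ) (x : Fin 3 → ℂ) : m7_E (c • x) = Complex.normSq c * m7_E x := by
  unfold m7_E
  rw [Finset.mul_sum]
  refine Finset.sum_congr rfl fun i _ => ?_
  rw [Pi.smul_apply, smul_eq_mul, map_mul]

theorem m7_E_pos {x : Fin 3 → ℂ} (hx : x ≠ 0) : 0 < m7_E x := by
  obtain ⟨i, hi⟩ := Function.ne_iff.1 hx
  exact Finset.sum_pos' (fun _ _ => Complex.normSq_nonneg _)
    ⟨i, Finset.mem_univ i, Complex.normSq_pos.2 hi⟩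

theorem m7_finite (q : QD) (R : ℝ) : {x : Fin 3 → ℂ | x ∈ O3 q ∧ m7_E x ≤ R}.Finite := by
  have h1 := finite_ball (q := q) (√R)
  refine (Set.Finite.pi' (fun _ : Fin 3 => h1)).subset ?_
  rintro x ⟨hx, hE⟩ i
  refine ⟨hx i, ?_⟩
  apply Real.le_sqrt_of_sq_le
  rw [← Complex.normSq_eq_norm_sq]
  exact le_trans (Finset.single_le_sum (f := fun i => Complex.normSq (x i))
    (fun _ _ => Complex.normSq_nonneg _) (Finset.mem_univ i)) hE

/-- minimal vector on an isotropic line -/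
theorem m7_min {q : QD} {w : Fin 3 → ℂ} (hw : w ∈ O3 q) (hw0 : w ≠ 0) :
    ∃ w' ∈ O3 q, w' ≠ 0 ∧ (∃ c : ℂ, w' = c • w) ∧
      ∀ x ∈ O3 q, x ≠ 0 → (∃ c : ℂ, x = c • w) → m7_E w' ≤ m7_E x := by
  obtain ⟨S, hS⟩ : ∃ S : Set (Fin 3 → ℂ), S = {x | x ∈ O3 q ∧ m7_E x ≤ m7_E w} ∩
    {x | x ≠ 0 ∧ ∃ c : ℂ, x = c • w} := ⟨_, rfl⟩
  have hf : S.Finite := by
    rw [hS]
    exact (m7_finite q _).subset Set.inter_subset_left
  have hne : S.Nonempty := by
    rw [hS]
    exact ⟨w, ⟨hw, le_refl _⟩, hw0, 1, (one_smul _ _).symm⟩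
  obtain ⟨w', hw', hmin⟩ := Set.exists_min_image S m7_E hf hne
  rw [hS] at hw'
  refine ⟨w', hw'.1.1, hw'.2.1, hw'.2.2, fun x hx hx0 hxc => ?_⟩
  by_cases h : m7_E x ≤ m7_E w
  · exact hmin x (by rw [hS]; exact ⟨⟨hx, h⟩, hx0, hxc⟩)
  · exact hw'.1.2.trans (le_of_not_ge h)

/-- Let `B` be from `three`, `F` the second components of `finite_tuples q B` that are nonzero and
isotropic. Given `w`, choose a nonzero `w' ∈ O³ ∩ ℂ w` of minimal Euclidean norm (the elements of `O³` of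
norm at most that of `w` are finite in number: `finite_ball`), `w = a • w'`, `1 ≤ ‖a‖`, and `g` with
`mat g *ᵥ e₁ = w'` (`exists_elt`). Then `Min1 q g`: let `0 ≠ x ∈ O³`, `NG g x < 1`, `y = mat g⁻¹ *ᵥ x`. `hf x x = 0`
(as in `isotropic_of_short`), `y 2 = hf e₁ y = hf w' x ∈ OO q` has absolute value `< 1`, so `y 2 = 0`
(`one_le_norm`), so `|y 1|² = hf y y = 0`, `y = (s, 0, 0)`, `x = s • w'`, `|s| < 1`, against the minimality of
`w'`. By `three` there is `b`; `NG g w' = 1 ≤ B`; `finite_tuples` for `(b, w')`: `w' = mat γ *ᵥ p.2`. -/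
theorem finite_cusps (q : QD) : ∃ F : Finset (Fin 3 → ℂ),
    (∀ v ∈ F, v ∈ O3 q ∧ v ≠ 0 ∧ hf v v = 0) ∧ ∀ w ∈ O3 q, w ≠ 0 → hf w w = 0 →
      ∃ γ : Gam q, ∃ v ∈ F, ∃ a : ℂ, 1 ≤ ‖a‖ ∧ w = a • (mat γ.1 *ᵥ v) := by
  classical
  obtain ⟨B, hB, hthree⟩ := three q
  obtain ⟨F, hF1, hF2⟩ := finite_tuples q B
  refine ⟨(F.image Prod.snd).filter (fun v => v ≠ 0 ∧ hf v v = 0), ?_, ?_⟩
  · intro v hv
    rw [Finset.mem_filter, Finset.mem_image] at hv
    obtain ⟨⟨p, hp, rfl⟩, h1, h2⟩ := hv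
    exact ⟨(hF1 p hp).2.2, h1, h2⟩
  · intro w hw hw0 hww
    obtain ⟨w', hm, hn0, ⟨c, hc⟩, hmin⟩ := m7_min hw hw0
    have hc0 : c ≠ 0 := by
      rintro rfl
      rw [zero_smul] at hc
      exact hn0 hc
    have hiso : hf w' w' = 0 := by
      rw [hc, hf_smul, hww, mul_zero]
    have ha : w = c⁻¹ • w' := by
      rw [hc, smul_smul, inv_mul_cancel₀ hc0, one_smul]
    have hE0 := m7_E_pos hn0
    have ha1 : 1 ≤ ‖c⁻¹‖ := by
      have h1 := hmin w hw hw0 ⟨1, (one_smul _ _).symm⟩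
      rw [ha, m7_E_smul] at h1
      have h2 : 1 ≤ Complex.normSq c⁻¹ := by
        by_contra hcon
        push Not at hcon
        have := mul_lt_mul_of_pos_right hcon hE0
        linarith
      rw [Complex.normSq_eq_norm_sq] at h2
      nlinarith [norm_nonneg c⁻¹]
    obtain ⟨g, N, -, -, hg⟩ := exists_elt hm hn0 hiso
    have hMin : Min1 q g := by
      intro x hx hx0
      by_contra hcon
      push Not at hcon
      have hxx := isotropic_of_short hx hcon
      obtain ⟨y, hy⟩ : ∃ y, y = mat g⁻¹ *ᵥ x := ⟨_, rfl⟩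
      have hxy : x = mat g *ᵥ y := by rw [hy, m5_inv]
      have hN : m7_E y < 1 := by rw [hy]; exact hcon
      have hle : ∀ i, Complex.normSq (y i) < 1 := fun i =>
        lt_of_le_of_lt (Finset.single_le_sum (f := fun i => Complex.normSq (y i))
          (fun _ _ => Complex.normSq_nonneg _) (Finset.mem_univ i)) hN
      have hy2 : y 2 = 0 := by
        have h1 : hf w' x = y 2 := by
          rw [← hg, hxy, hf_mulVec (mat_unitary g), hf_apply]
          simp
        have h2 : y 2 ∈ OO q := by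
          rw [← h1, hf_apply]
          exact (OO q).add_mem ((OO q).add_mem ((OO q).mul_mem (star_mem _ (hm 0)) (hx 2))
            ((OO q).mul_mem (star_mem _ (hm 1)) (hx 1))) ((OO q).mul_mem (star_mem _ (hm 2)) (hx 0))
        by_contra h3
        have h4 := one_le_normSq h2 h3
        linarith [hle 2]
      have hy1 : y 1 = 0 := by
        have h1 : hf y y = 0 := by
          rw [← hxx, hxy, hf_mulVec (mat_unitary g)]
        rw [hf_apply, hy2] at h1
        simpa using h1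
      have hys : y = (y 0) • ![1, 0, 0] := by
        funext i
        fin_cases i
        · simp
        · simpa using hy1
        · simpa using hy2
      have hxs : x = (y 0) • w' := by
        rw [hxy, ← hg]
        conv_lhs => rw [hys]
        rw [mulVec_smul]
      have h1 := hmin x hx hx0 ⟨y 0 * c, by rw [hxs, hc, smul_smul]⟩
      rw [hxs, m7_E_smul] at h1
      have h2 := mul_lt_mul_of_pos_right (hle 0) hE0
      linarith
    obtain ⟨b, hb1, hb2, hb3⟩ := hthree g hMin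
    have hNw : NG g w' ≤ B := by
      have h1 : mat g⁻¹ *ᵥ w' = ![1, 0, 0] := by
        rw [← hg, mulVec_mulVec, ← mat_mul, inv_mul_cancel, mat_one, one_mulVec]
      unfold NG
      rw [h1, Fin.sum_univ_three]
      simpa using hB
    obtain ⟨γ, p, hp, -, hγ⟩ := hF2 g b w' hb1 hb2 hm hb3 hNw
    refine ⟨γ, p.2, ?_, c⁻¹, ha1, ?_⟩
    · rw [Finset.mem_filter, Finset.mem_image]
      refine ⟨⟨p, hp, rfl⟩, ?_, ?_⟩
      · intro h
        rw [h, mulVec_zero] at hγ
        exact hn0 hγ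
      · rw [← hf_mulVec (mat_unitary γ.1), ← hγ, hiso]
    · rw [← hγ]
      exact ha

end

end Pool.Agent.Lib.H56M
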