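import Pool.Agent.Lib.H56M.Defs
import Pool.Agent.Lib.H56.Gen.LevelData

/-!
# M8: a lattice of translations of level M
-/

namespace Pool.Agent.Lib.H56M

open Matrix hiding J
open MeasureTheory Topology Filter
open Pool.Agent.Lib.H56.Picard hiding O Gam mem_Gam star_mem_O T_mem sg_mem
open Pool.Agent.Lib.H56.Gen
open Pool.Agent.Lib.H56D hiding om wG rho Eig Good K0
open scoped ENNReal

noncomputable section

/-- even case -/
def m8even (q : QD) (M : ℕ) (hM : 1 ≤ M) (s : ℤ) (hs : q.t = s + s) : LD q where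
  p := (M, 0)
  x1 := (2, 0)
  x2 := (0, 2)
  s1 := (2, 0)
  s2 := (2 * q.t, -2)
  y1 := (-2 * M, 0)
  y2 := (-2 * M * q.n, 0)
  z := (-s, 1)
  m := M
  hp0 := by
    have h : (0 : ℤ) < M := by exact_mod_cast hM
    simp only [np]
    nlinarith [mul_pos h h]
  hs1 := by
    simp only [pm, cp]
    ext <;> ring
  hs2 := by
    simp only [pm, cp]
    ext <;> ring
  r1 := by
    simp only [np, tp, pm]
    ring
  r2 := by
    simp only [np, tp, pm]
    ring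
  hz := by
    simp only [tp, pm, hs]
    ring
  hz' := by
    simp only [pm]
    ring
  hm := by exact_mod_cast hM
  cov := by
    have h : (0 : ℤ) < M := by exact_mod_cast hM
    simp only [dp, pm]
    nlinarith [mul_pos h h]
  cen := by
    intro a b _
    simp only [pm]
    exact ⟨b, by ring⟩

/-- odd case -/
def m8odd (q : QD) (M : ℕ) (hM : 1 ≤ M) (s : ℤ) (hs : q.t = 2 * s + 1) : LD q where
  p := (M, 0)
  x1 := (2, 0)
  x2 := (0, 2)
  s1 := (2, 0)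
  s2 := (2 * q.t, -2)
  y1 := (-2 * M, 0)
  y2 := (-2 * M * q.n, 0)
  z := (-q.t, 2)
  m := 2 * M
  hp0 := by
    have h : (0 : ℤ) < M := by exact_mod_cast hM
    simp only [np]
    nlinarith [mul_pos h h]
  hs1 := by
    simp only [pm, cp]
    ext <;> ring
  hs2 := by
    simp only [pm, cp]
    ext <;> ring
  r1 := by
    simp only [np, tp, pm]
    ring
  r2 := by
    simp only [np, tp, pm]
    ring
  hz := by
    simp only [tp, pm]
    ring
  hz' := by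
    simp only [pm]
    ring
  hm := by
    have h : (0 : ℤ) < M := by exact_mod_cast hM
    linarith
  cov := by
    have h : (0 : ℤ) < M := by exact_mod_cast hM
    simp only [dp, pm]
    nlinarith [mul_pos h h]
  cen := by
    intro a b hab
    have h : (0 : ℤ) < M := by exact_mod_cast hM
    simp only [tp, pm] at hab ⊢
    have h1 : (M : ℤ) * (2 * a + q.t * b) = 0 := by linear_combination hab
    have h2 : 2 * a + q.t * b = 0 := by
      rcases mul_eq_zero.1 h1 with h3 | h3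
      · omega
      · exact h3
    rw [hs] at h2
    refine ⟨-a - s * b, ?_⟩
    linear_combination (M : ℤ) * h2

lemma m8_mem (q : QD) {M : ℕ} (K : Cusp q) (hK : K.p = M) (b : Gam q) (hb : b ∈ K.B)
    (i j : Fin 3) : ∃ x ∈ OO q, mat b.1 i j - (1 : Matrix (Fin 3) (Fin 3) ℂ) i j = M * x := by
  obtain ⟨m, n, w, hw, -, hTM⟩ := hb
  have hl := K.lv_mem m n
  rw [hK] at hw hl
  have hsl : star (K.lv m n) ∈ PO q (M : ℂ) := by
    obtain ⟨x, hx, h⟩ := hl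
    refine ⟨star x, star_mem x hx, ?_⟩
    rw [h, star_mul']
    simp
  have h0 := (PO q (M : ℂ)).zero_mem
  rw [hTM]
  show TM (K.lv m n) w i j - (1 : Matrix (Fin 3) (Fin 3) ℂ) i j ∈ PO q (M : ℂ)
  have e00 : TM (K.lv m n) w 0 0 - (1 : Matrix (Fin 3) (Fin 3) ℂ) 0 0 = 0 := by simp [TM]
  have e01 : TM (K.lv m n) w 0 1 - (1 : Matrix (Fin 3) (Fin 3) ℂ) 0 1 = -star (K.lv m n) := by
    simp [TM]
  have e02 : TM (K.lv m n) w 0 2 - (1 : Matrix (Fin 3) (Fin 3) ℂ) 0 2 = w := by simp [TM]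
  have e10 : TM (K.lv m n) w 1 0 - (1 : Matrix (Fin 3) (Fin 3) ℂ) 1 0 = 0 := by simp [TM]
  have e11 : TM (K.lv m n) w 1 1 - (1 : Matrix (Fin 3) (Fin 3) ℂ) 1 1 = 0 := by simp [TM]
  have e12 : TM (K.lv m n) w 1 2 - (1 : Matrix (Fin 3) (Fin 3) ℂ) 1 2 = K.lv m n := by simp [TM]
  have e20 : TM (K.lv m n) w 2 0 - (1 : Matrix (Fin 3) (Fin 3) ℂ) 2 0 = 0 := by simp [TM]
  have e21 : TM (K.lv m n) w 2 1 - (1 : Matrix (Fin 3) (Fin 3) ℂ) 2 1 = 0 := by simp [TM]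
  have e22 : TM (K.lv m n) w 2 2 - (1 : Matrix (Fin 3) (Fin 3) ℂ) 2 2 = 0 := by simp [TM]
  fin_cases i <;> fin_cases j
  · show TM (K.lv m n) w 0 0 - (1 : Matrix (Fin 3) (Fin 3) ℂ) 0 0 ∈ PO q (M : ℂ)
    rw [e00]
    exact h0
  · show TM (K.lv m n) w 0 1 - (1 : Matrix (Fin 3) (Fin 3) ℂ) 0 1 ∈ PO q (M : ℂ)
    rw [e01]
    exact (PO q (M : ℂ)).neg_mem hsl
  · show TM (K.lv m n) w 0 2 - (1 : Matrix (Fin 3) (Fin 3) ℂ) 0 2 ∈ PO q (M : ℂ)
    rw [e02]
    exact hw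
  · show TM (K.lv m n) w 1 0 - (1 : Matrix (Fin 3) (Fin 3) ℂ) 1 0 ∈ PO q (M : ℂ)
    rw [e10]
    exact h0
  · show TM (K.lv m n) w 1 1 - (1 : Matrix (Fin 3) (Fin 3) ℂ) 1 1 ∈ PO q (M : ℂ)
    rw [e11]
    exact h0
  · show TM (K.lv m n) w 1 2 - (1 : Matrix (Fin 3) (Fin 3) ℂ) 1 2 ∈ PO q (M : ℂ)
    rw [e12]
    exact hl
  · show TM (K.lv m n) w 2 0 - (1 : Matrix (Fin 3) (Fin 3) ℂ) 2 0 ∈ PO q (M : ℂ)
    rw [e20]
    exact h0
  · show TM (K.lv m n) w 2 1 - (1 : Matrix (Fin 3) (Fin 3) ℂ) 2 1 ∈ PO q (M : ℂ)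
    rw [e21]
    exact h0
  · show TM (K.lv m n) w 2 2 - (1 : Matrix (Fin 3) (Fin 3) ℂ) 2 2 ∈ PO q (M : ℂ)
    rw [e22]
    exact h0

/-- Take `LD.K` of the integer data `p = (M, 0)`, `x1 = (2, 0)`, `x2 = (0, 2)`, `s1 = (2, 0)`,
`s2 = (2 t, -2)` (conjugate of `2ω`), `y1 = (-2M, 0)`, `y2 = (-2 M n, 0)` (`e1 = 2M`, `e2 = 2Mω`,
`2 Re w1 = -4M²`, `2 Re w2 = -4 M² n`), and the centre: if `t` is even `z = (-t/2, 1)`, `m = M`; if `t` is
odd `z = (-t, 2)`, `m = 2M` (`q.t = t`, `q.n = n`). An element of `K.B` is `TM l w` with `l, w ∈ M O`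
(`lv_mem`, `mem_B`), so its entries are congruent to those of `1`. -/
theorem exists_cusp (q : QD) {M : ℕ} (hM : 1 ≤ M) : ∃ K : Cusp q, K.p = M ∧
    ∀ b : Gam q, b ∈ K.B → ∀ i j, ∃ x ∈ OO q, mat b.1 i j - (1 : Matrix (Fin 3) (Fin 3) ℂ) i j = M * x := by
  rcases Int.even_or_odd' q.t with ⟨s, hs | hs⟩
  · have h0 : (m8even q M hM s (by omega)).K.p = M := by
      show el q (M : ℤ) 0 = M
      rw [el_int]
      simp
    exact ⟨(m8even q M hM s (by omega)).K, h0, fun b hb i j => m8_mem q _ h0 b hb i j⟩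
  · have h0 : (m8odd q M hM s hs).K.p = M := by
      show el q (M : ℤ) 0 = M
      rw [el_int]
      simp
    exact ⟨(m8odd q M hM s hs).K, h0, fun b hb i j => m8_mem q _ h0 b hb i j⟩

end

end Pool.Agent.Lib.H56M
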