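import Pool.Agent.Lib.H56M.M4
import Pool.Agent.Lib.H56M.M5
import Pool.Agent.Lib.H56M.M7
import Pool.Agent.Lib.H56M.M8

/-!
# M9: the cusp data exist
-/

namespace Pool.Agent.Lib.H56M

open Matrix hiding J
open MeasureTheory Topology Filter
open Pool.Agent.Lib.H56.Picard hiding O Gam mem_Gam star_mem_O T_mem sg_mem
open Pool.Agent.Lib.H56.Gen
open Pool.Agent.Lib.H56D hiding om wG rho Eig Good K0
open scoped ENNReal

noncomputable section

lemma m9_hf_smul (a : ℂ) (v w : Fin 3 → ℂ) : hf (a • v) w = star a * hf v w := by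
  simp only [hf_apply, Pi.smul_apply, smul_eq_mul, star_mul']
  ring

lemma m9_inv (g : SU21) (i j : Fin 3) : mat g⁻¹ i j = star (mat g j.rev i.rev) := by
  rw [mat_inv]
  fin_cases i <;> fin_cases j <;>
    simp [J, Matrix.mul_apply, Fin.sum_univ_three, Matrix.vecMul, dotProduct]

/-- Every point in the two cases. Let `B`, `F₀` be from `three`, `finite_tuples q B`, `F` from
`finite_cusps`. `z = act (mat g) o` (`exists_act_o`). CASE 1: some `0 ≠ w ∈ O³` has `NG g w < 1`: it is isotropic,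
`w = a • (γ v)`, `v ∈ F`; if `mat g' *ᵥ e₁ = v` then (`height_cusp` for `γ g'`)
`height (act (mat g'⁻¹) (act (mat γ⁻¹) z)) = |a|² height z / |hf w (lift z)|² ≥ 4/5` (`height_short`). CASE 2:
`Min1 q g`: `three`, `finite_tuples` (with `v` the first column of `b`): `b = mat γ * p.1`, so
`NG (γ⁻¹ g) (p.1) ≤ B` and `act (mat γ⁻¹) z` lies in the compact set of `compact_of` for `p.1`; `S` is their
union over `F₀`. -/
theorem cover (q : QD) {g : (Fin 3 → ℂ) → SU21} {F : Finset (Fin 3 → ℂ)}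
    (hF : ∀ v ∈ F, mat (g v) *ᵥ ![1, 0, 0] = v)
    (hF2 : ∀ w ∈ O3 q, w ≠ 0 → hf w w = 0 →
      ∃ γ : Gam q, ∃ v ∈ F, ∃ a : ℂ, 1 ≤ ‖a‖ ∧ w = a • (mat γ.1 *ᵥ v)) :
    ∃ S : Set (ℂ × ℂ), IsCompact S ∧ S ⊆ U ∧ ∀ z ∈ U, ∃ γ : Gam q,
      (∃ v ∈ F, 4 / 5 ≤ height (act (mat (g v)⁻¹) (act (mat γ.1) z))) ∨ act (mat γ.1) z ∈ S := by
  classical
  obtain ⟨B, hB, hthree⟩ := three q
  obtain ⟨F₀, hF₀, hfin⟩ := finite_tuples q B
  have hcomp : ∀ p : {p // p ∈ F₀}, ∃ S : Set (ℂ × ℂ), IsCompact S ∧ S ⊆ U ∧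
      ∀ g : SU21, (∀ j, NG g (fun i => p.1.1 i j) ≤ B) → act (mat g) o ∈ S :=
    fun p => compact_of B (hF₀ p.1 p.2).2.1
  choose T hT1 hT2 hT3 using hcomp
  refine ⟨⋃ p, T p, isCompact_iUnion hT1, Set.iUnion_subset hT2, ?_⟩
  intro z hz
  obtain ⟨g', rfl⟩ := exists_act_o hz
  by_cases hmin : Min1 q g'
  · obtain ⟨b, hb1, hb2, hb3⟩ := hthree g' hmin
    obtain ⟨γ, p, hp, hbp, -⟩ := hfin g' b (fun i => b i 0) hb1 hb2 (fun i => hb1 i 0) hb3 (hb3 0)
    refine ⟨γ⁻¹, Or.inr (Set.mem_iUnion.2 ⟨⟨p, hp⟩, ?_⟩)⟩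
    have h1 : act (mat (γ⁻¹ : Gam q).1) (act (mat g') o) = act (mat (γ.1⁻¹ * g')) o := by
      rw [← act_act _ _ o_mem]
      rfl
    rw [h1]
    apply hT3
    intro j
    refine le_trans (le_of_eq ?_) (hb3 j)
    unfold NG
    have h2 : mat (γ.1⁻¹ * g')⁻¹ *ᵥ (fun i => p.1 i j) = mat g'⁻¹ *ᵥ (fun i => b i j) := by
      have h3 : (γ.1⁻¹ * g')⁻¹ = g'⁻¹ * γ.1 := by group
      have h4 : (fun i => b i j) = mat γ.1 *ᵥ (fun i => p.1 i j) := by
        funext i
        rw [hbp]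
        rfl
      rw [h3, h4, mat_mul, mulVec_mulVec]
    rw [h2]
  · unfold Min1 at hmin
    push Not at hmin
    obtain ⟨w, hw, hw0, hlt⟩ := hmin
    have hiso := isotropic_of_short hw hlt
    obtain ⟨γ, v, hv, a, ha, hwa⟩ := hF2 w hw hw0 hiso
    refine ⟨γ⁻¹, Or.inl ⟨v, hv, ?_⟩⟩
    have hz' : act (mat g') o ∈ U := hz
    have h1 : act (mat (g v)⁻¹) (act (mat (γ⁻¹ : Gam q).1) (act (mat g') o)) =
        act (mat (γ.1 * g v)⁻¹) (act (mat g') o) := by
      have h2 : (γ.1 * g v)⁻¹ = (g v)⁻¹ * γ.1⁻¹ := mul_inv_rev _ _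
      rw [h2, ← act_act _ _ hz']
      rfl
    rw [h1]
    have h3 := height_cusp (γ.1 * g v) hz'
    have h4 : mat (γ.1 * g v) *ᵥ ![1, 0, 0] = mat γ.1 *ᵥ v := by
      rw [mat_mul, ← mulVec_mulVec, hF v hv]
    rw [h4] at h3
    have hpos : 0 < height (act (mat (γ.1 * g v)⁻¹) (act (mat g') o)) :=
      height_act_pos (mat_unitary _) hz'
    have hz0 : 0 < height (act (mat g') o) := hz'
    rw [h3] at hpos ⊢
    set x := Complex.normSq (hf (mat γ.1 *ᵥ v) (lift (act (mat g') o))) with hx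
    have hx0 : 0 < x := by
      rcases (Complex.normSq_nonneg (hf (mat γ.1 *ᵥ v) (lift (act (mat g') o)))).lt_or_eq
        with h | h
      · exact h
      · rw [← hx] at h
        rw [← h, div_zero] at hpos
        exact absurd hpos (lt_irrefl _)
    have h5 := height_short g' w
    have h6 : Complex.normSq (hf w (lift (act (mat g') o))) = Complex.normSq a * x := by
      rw [hwa, m9_hf_smul, Complex.normSq_mul, hx]
      congr 1
      exact Complex.normSq_conj a
    rw [h6] at h5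
    have h7 : 1 ≤ Complex.normSq a := by
      rw [Complex.normSq_eq_norm_sq]
      nlinarith [norm_nonneg a]
    rw [le_div_iff₀ hx0]
    nlinarith

/-- `F` from `finite_cusps`, nonempty (apply it to `w = e₁`). For `v ∈ F` choose `g v`, `N v` by `exists_elt`;
enumerate `F` (`F.equivFin`), `r = F.card`. `N = (∏ N v)²` (`N v` divides the product, so
`(∏ N) g`, `(∏ N) g⁻¹ = (∏ N) J gᴴ J` have entries in `O`). `K` from `exists_cusp` with `M = N`:
`g b g⁻¹ = 1 + g (b - 1) g⁻¹ ∈ M₃(O)`. `h = min (1/2) (m/2)`, `m > 0` the minimum over the compact set `S` of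
`cover` of the height of `(g v₀)⁻¹ z` for one `v₀ ∈ F` (`height_cusp` or `contDiffAt_act` for continuity). -/
theorem exists_MC (q : QD) : Nonempty (MC q) := by
  classical
  obtain ⟨F, hF1, hF2⟩ := finite_cusps q
  have hex : ∀ v : Fin 3 → ℂ, ∃ gN : SU21 × ℕ, v ∈ F → (1 ≤ gN.2 ∧
      (∀ i j, (gN.2 : ℂ) * mat gN.1 i j ∈ OO q) ∧ mat gN.1 *ᵥ ![1, 0, 0] = v) := by
    intro v
    by_cases hv : v ∈ F
    · obtain ⟨h1, h2, h3⟩ := hF1 v hv
      obtain ⟨g, N, h4, h5, h6⟩ := exists_elt h1 h2 h3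
      exact ⟨(g, N), fun _ => ⟨h4, h5, h6⟩⟩
    · exact ⟨(1, 0), fun h => absurd h hv⟩
  choose gN hgN using hex
  let g : (Fin 3 → ℂ) → SU21 := fun v => (gN v).1
  have hg : ∀ v ∈ F, mat (g v) *ᵥ ![1, 0, 0] = v := fun v hv => (hgN v hv).2.2
  obtain ⟨S, hS1, hS2, hS3⟩ := cover q hg hF2
  -- a cusp
  obtain ⟨γ₀, v₀, hv₀, a₀, -, -⟩ := hF2 ![1, 0, 0] (by
    intro i
    fin_cases i
    · exact (OO q).one_mem
    · exact (OO q).zero_mem
    · exact (OO q).zero_mem) (by
    intro h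
    have := congrFun h 0
    simp at this) (by simp [hf_apply])
  -- the denominator
  let P : ℕ := ∏ v ∈ F, (gN v).2
  have hP0 : 1 ≤ P := by
    apply Nat.one_le_iff_ne_zero.2
    rw [Finset.prod_ne_zero_iff]
    intro v hv
    have := (hgN v hv).1
    omega
  have hPg : ∀ v ∈ F, ∀ i j, (P : ℂ) * mat (g v) i j ∈ OO q := by
    intro v hv i j
    have h1 : (P : ℂ) = ((∏ u ∈ F.erase v, (gN u).2 : ℕ) : ℂ) * ((gN v).2 : ℂ) := by
      rw [← Nat.cast_mul, mul_comm, Finset.mul_prod_erase F (fun u => (gN u).2) hv]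
    rw [h1, mul_assoc]
    exact (OO q).mul_mem (natCast_mem (OO q) _) ((hgN v hv).2.1 i j)
  have hPg' : ∀ v ∈ F, ∀ i j, (P : ℂ) * mat (g v)⁻¹ i j ∈ OO q := by
    intro v hv i j
    rw [m9_inv]
    have h1 := star_mem _ (hPg v hv j.rev i.rev)
    rw [star_mul'] at h1
    have h2 : star (P : ℂ) = P := by simp
    rwa [h2] at h1
  have hN1 : 1 ≤ P ^ 2 := Nat.one_le_pow _ _ hP0
  obtain ⟨K, hKp, hK⟩ := exists_cusp q hN1
  -- the height on the compact set
  obtain ⟨m, hm0, hm⟩ : ∃ m : ℝ, 0 < m ∧ ∀ z ∈ S, m ≤ height (act (mat (g v₀)⁻¹) z) := by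
    rcases S.eq_empty_or_nonempty with h | h
    · exact ⟨1, one_pos, fun z hz => by rw [h] at hz; exact absurd hz (Set.notMem_empty z)⟩
    · have hcont : ContinuousOn (fun z => height (act (mat (g v₀)⁻¹) z)) S := by
        intro z hz
        have h1 : ContinuousAt (act (mat (g v₀)⁻¹)) z :=
          (contDiffAt_act (g v₀)⁻¹ (hS2 hz)).continuousAt
        have h2 : Continuous height := by
          unfold height
          fun_prop
        exact (h2.continuousAt.comp h1).continuousWithinAt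
      obtain ⟨z₀, hz₀, hmin⟩ := hS1.exists_isMinOn h hcont
      exact ⟨_, act_mem_U (g v₀)⁻¹ (hS2 hz₀), fun z hz => hmin hz⟩
  let e : Fin F.card ≃ F := F.equivFin.symm
  refine ⟨{ r := F.card
            g := fun i => g (e i).1
            K := K
            N := P ^ 2
            hN := hN1
            rat := ?_
            den := ?_
            tr := ?_
            lev := ?_
            h := min (1 / 2) (m / 2)
            hh := lt_min (by norm_num) (by linarith)
            h1 := (min_le_left _ _).trans (by norm_num)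
            high := ?_ }⟩
  · intro i k l
    have h1 : ((P ^ 2 : ℕ) : ℂ) * mat (g (e i).1) k l = (P : ℂ) * ((P : ℂ) * mat (g (e i).1) k l) := by
      push_cast
      ring
    rw [h1]
    exact (OO q).mul_mem (natCast_mem (OO q) _) (hPg _ (e i).2 k l)
  · intro i j γ k l
    have h1 : ((P ^ 2 : ℕ) : ℂ) * mat ((g (e j).1)⁻¹ * γ.1 * g (e i).1) k l =
        ∑ b, (∑ a, ((P : ℂ) * mat (g (e j).1)⁻¹ k a) * mat γ.1 a b) *
          ((P : ℂ) * mat (g (e i).1) b l) := by
      rw [mat_mul, mat_mul, Matrix.mul_apply, Finset.mul_sum]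
      refine Finset.sum_congr rfl fun b _ => ?_
      rw [Matrix.mul_apply]
      have h2 : ∑ a, ((P : ℂ) * mat (g (e j).1)⁻¹ k a) * mat γ.1 a b =
          (P : ℂ) * ∑ a, mat (g (e j).1)⁻¹ k a * mat γ.1 a b := by
        rw [Finset.mul_sum]
        exact Finset.sum_congr rfl fun a _ => by ring
      rw [h2]
      push_cast
      ring
    rw [h1]
    exact (OO q).sum_mem fun b _ => (OO q).mul_mem ((OO q).sum_mem fun a _ =>
      (OO q).mul_mem (hPg' _ (e j).2 k a) (γ.2 a b)) (hPg _ (e i).2 b l)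
  · intro i b hb
    have hb' := hK b hb
    choose x hx hbx using hb'
    intro k l
    have h0 : mat (g (e i).1) * mat (g (e i).1)⁻¹ = 1 := by
      rw [← mat_mul, mul_inv_cancel, mat_one]
    have h1 : mat (g (e i).1 * b.1 * (g (e i).1)⁻¹) k l = (1 : Matrix (Fin 3) (Fin 3) ℂ) k l +
        ∑ t, (∑ a, ((P : ℂ) * mat (g (e i).1) k a) * x a t) *
          ((P : ℂ) * mat (g (e i).1)⁻¹ t l) := by
      have h2 : mat b.1 = 1 + Matrix.of (fun a t => ((P ^ 2 : ℕ) : ℂ) * x a t) := by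
        refine Matrix.ext fun a t => ?_
        rw [Matrix.add_apply, Matrix.of_apply]
        show mat b.1 a t = (1 : Matrix (Fin 3) (Fin 3) ℂ) a t + ((P ^ 2 : ℕ) : ℂ) * x a t
        rw [← hbx]
        ring
      rw [mat_mul, mat_mul, h2, mul_add, mul_one, add_mul, h0, Matrix.add_apply, Matrix.mul_apply]
      congr 1
      refine Finset.sum_congr rfl fun t _ => ?_
      rw [Matrix.mul_apply]
      have h3 : ∑ a, mat (g (e i).1) k a *
          Matrix.of (fun a t => ((P ^ 2 : ℕ) : ℂ) * x a t) a t =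
          (P : ℂ) * ∑ a, ((P : ℂ) * mat (g (e i).1) k a) * x a t := by
        rw [Finset.mul_sum]
        refine Finset.sum_congr rfl fun a _ => ?_
        rw [Matrix.of_apply]
        push_cast
        ring
      rw [h3]
      ring
    rw [h1]
    refine (OO q).add_mem ?_ ((OO q).sum_mem fun t _ => (OO q).mul_mem ((OO q).sum_mem fun a _ =>
      (OO q).mul_mem (hPg _ (e i).2 k a) (hx a t)) (hPg' _ (e i).2 t l))
    rw [Matrix.one_apply]
    split_ifs
    · exact (OO q).one_mem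
    · exact (OO q).zero_mem
  · intro i A hA
    rw [hKp] at hA
    choose x hx hbx using hA
    intro k l
    have h1 : (mat (g (e i).1) * A * mat (g (e i).1)⁻¹) k l =
        ∑ t, (∑ a, ((P : ℂ) * mat (g (e i).1) k a) * x a t) *
          ((P : ℂ) * mat (g (e i).1)⁻¹ t l) := by
      rw [Matrix.mul_apply]
      refine Finset.sum_congr rfl fun t _ => ?_
      rw [Matrix.mul_apply]
      have h3 : ∑ a, mat (g (e i).1) k a * A a t =
          (P : ℂ) * ∑ a, ((P : ℂ) * mat (g (e i).1) k a) * x a t := by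
        rw [Finset.mul_sum]
        refine Finset.sum_congr rfl fun a _ => ?_
        rw [hbx]
        push_cast
        ring
      rw [h3]
      ring
    rw [h1]
    exact (OO q).sum_mem fun t _ => (OO q).mul_mem ((OO q).sum_mem fun a _ =>
      (OO q).mul_mem (hPg _ (e i).2 k a) (hx a t)) (hPg' _ (e i).2 t l)
  · intro z
    obtain ⟨γ, h⟩ := hS3 z.1 z.2
    rcases h with ⟨v, hv, h⟩ | h
    · refine ⟨γ, e.symm ⟨v, hv⟩, ?_⟩
      rw [Equiv.apply_symm_apply]
      refine lt_of_le_of_lt (min_le_left _ _) (lt_of_lt_of_le (by norm_num) h)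
    · refine ⟨γ, e.symm ⟨v₀, hv₀⟩, ?_⟩
      rw [Equiv.apply_symm_apply]
      refine lt_of_le_of_lt (min_le_right _ _) (lt_of_lt_of_le (by linarith) (hm _ h))

end

end Pool.Agent.Lib.H56M
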