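import Pool.Agent.Lib.H56M.Defs

/-!
# N1: the energy inequality from cut-offs
-/

namespace Pool.Agent.Lib.H56M

open Matrix hiding J
open MeasureTheory Topology Filter
open Pool.Agent.Lib.H56.Picard hiding O Gam mem_Gam star_mem_O T_mem sg_mem
open Pool.Agent.Lib.H56.Gen
open Pool.Agent.Lib.H56D hiding om wG rho Eig Good K0
open scoped ENNReal

noncomputable section

/-- The two inequalities at a fixed cut-off. -/
lemma n1_fixed {G : Subgroup SU21} (hGd : ∀ B : ℝ, {γ : G | ∀ i j, ‖mat γ.1 i j‖ ≤ B}.Finite)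
    (T : Cut G) {w : X → ENNReal} (hw : Measurable w) {c : ENNReal} (hc : c ≠ ⊤)
    (hwc : ∀ᵐ z ∂mu, ∑' γ : G, w (γ • z) = c)
    {f g : ℂ × ℂ → ℝ} (hf : ContDiffOn ℝ 2 f U) (hg : ContDiffOn ℝ 2 g U)
    (hfinv : ∀ γ : G, ∀ z ∈ U, f (act (mat γ.1) z) = f z)
    (hginv : ∀ γ : G, ∀ z ∈ U, g (act (mat γ.1) z) = g z)
    {a b : ℝ} (hlf : ∀ z ∈ U, lapR f z = -(a * f z - b * g z))
    (hlg : ∀ z ∈ U, lapR g z = -(a * g z + b * f z))
    (hL2 : Integrable (fun z : X => (w z).toReal * (f z.1 ^ 2 + g z.1 ^ 2)) mu)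
    (n : ℕ) {ε : ℝ} (hε : 0 < ε) :
    let η := T.η n
    let D := ∫ z : X, (w z).toReal * (η z.1 ^ 2 *
      (normL z.1 (fderiv ℝ f z.1) + normL z.1 (fderiv ℝ g z.1))) ∂mu
    let A := ∫ z : X, (w z).toReal * (η z.1 ^ 2 * (f z.1 ^ 2 + g z.1 ^ 2)) ∂mu
    let δ := ∫ z : X, (w z).toReal * (f z.1 ^ 2 + g z.1 ^ 2) ∂mu
    Integrable (fun z : X => (w z).toReal * (η z.1 ^ 2 *
      (normL z.1 (fderiv ℝ f z.1) + normL z.1 (fderiv ℝ g z.1)))) mu ∧
    D ≤ a * A + (ε * D + T.δ n / ε * δ) ∧ |b| * A ≤ ε * D + T.δ n / ε * δ := by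
  intro η D A δ
  have hC0 : 0 ≤ T.δ n := T.δ0 n
  set C := T.δ n with hCdef
  have hh := T.hh n
  have hcs := T.hcs n
  have hs := T.hs n
  have hP : ∀ z ∈ U, Per G (T.h n) z = η z ^ 2 := T.hP n
  have hη : ContDiffOn ℝ 1 η U := T.hη n
  have hf1 : ContDiffOn ℝ 1 f U := hf.of_le (by norm_num)
  have hg1 : ContDiffOn ℝ 1 g U := hg.of_le (by norm_num)
  -- pair identities
  have p11 := green_pair hGd hw hc hwc hh hcs hs hη hP hf hf hf hg hfinv hfinv hfinv hginv
    (p := a) (q := -b) (fun z hz => by rw [hlf z hz]; ring)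
  have p22 := green_pair hGd hw hc hwc hh hcs hs hη hP hg hg hf hg hginv hginv hfinv hginv
    (p := b) (q := a) (fun z hz => by rw [hlg z hz]; ring)
  have p21 := green_pair hGd hw hc hwc hh hcs hs hη hP hg hf hf hg hginv hfinv hfinv hginv
    (p := a) (q := -b) (fun z hz => by rw [hlf z hz]; ring)
  have p12 := green_pair hGd hw hc hwc hh hcs hs hη hP hf hg hf hg hfinv hginv hfinv hginv
    (p := b) (q := a) (fun z hz => by rw [hlg z hz]; ring)
  -- integrability
  obtain ⟨-, iff', -⟩ := unf_inv hGd hw hc hwc hh hcs hs hη hP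
    (E := fun z => f z * f z) (hf.continuousOn.mul hf.continuousOn)
    (fun γ z hz => by rw [hfinv γ z hz])
  obtain ⟨-, igg, -⟩ := unf_inv hGd hw hc hwc hh hcs hs hη hP
    (E := fun z => g z * g z) (hg.continuousOn.mul hg.continuousOn)
    (fun γ z hz => by rw [hginv γ z hz])
  obtain ⟨-, dff, -⟩ := unf_inv hGd hw hc hwc hh hcs hs hη hP
    (E := fun z => Bf z (fderiv ℝ f z) (fderiv ℝ f z)) (continuousOn_Bf hf1 hf1)
    (Bf_invariant hf1 hf1 hfinv hfinv)
  obtain ⟨-, dgg, -⟩ := unf_inv hGd hw hc hwc hh hcs hs hη hP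
    (E := fun z => Bf z (fderiv ℝ g z) (fderiv ℝ g z)) (continuousOn_Bf hg1 hg1)
    (Bf_invariant hg1 hg1 hginv hginv)
  obtain ⟨-, gff, -⟩ := unf_grad hGd hw hc hwc hh hcs hs hη hP hf1 hf1 hfinv hfinv
  obtain ⟨-, ggg, -⟩ := unf_grad hGd hw hc hwc hh hcs hs hη hP hg1 hg1 hginv hginv
  obtain ⟨-, gfg, -⟩ := unf_grad hGd hw hc hwc hh hcs hs hη hP hf1 hg1 hfinv hginv
  obtain ⟨-, ggf, -⟩ := unf_grad hGd hw hc hwc hh hcs hs hη hP hg1 hf1 hginv hfinv
  have iD : Integrable (fun z : X => (w z).toReal * (η z.1 ^ 2 *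
      (normL z.1 (fderiv ℝ f z.1) + normL z.1 (fderiv ℝ g z.1)))) mu := by
    refine (dff.add dgg).congr (Filter.Eventually.of_forall fun z => ?_)
    simp only [Pi.add_apply, Bf_self]
    ring
  have eD : D = ∫ z : X, (w z).toReal * (η z.1 ^ 2 * Bf z.1 (fderiv ℝ f z.1) (fderiv ℝ f z.1)) ∂mu +
      ∫ z : X, (w z).toReal * (η z.1 ^ 2 * Bf z.1 (fderiv ℝ g z.1) (fderiv ℝ g z.1)) ∂mu := by
    rw [← integral_add dff dgg]
    refine integral_congr_ae (Filter.Eventually.of_forall fun z => ?_)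
    simp only [Bf_self]
    ring
  have eA : A = ∫ z : X, (w z).toReal * (η z.1 ^ 2 * (f z.1 * f z.1)) ∂mu +
      ∫ z : X, (w z).toReal * (η z.1 ^ 2 * (g z.1 * g z.1)) ∂mu := by
    rw [← integral_add iff' igg]
    refine integral_congr_ae (Filter.Eventually.of_forall fun z => ?_)
    simp only
    ring
  have eP : ∫ z : X, (w z).toReal * (η z.1 ^ 2 * (f z.1 * g z.1)) ∂mu =
      ∫ z : X, (w z).toReal * (η z.1 ^ 2 * (g z.1 * f z.1)) ∂mu := by
    refine integral_congr_ae (Filter.Eventually.of_forall fun z => ?_)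
    simp only
    ring
  have eB : ∫ z : X, (w z).toReal * (η z.1 ^ 2 * Bf z.1 (fderiv ℝ f z.1) (fderiv ℝ g z.1)) ∂mu =
      ∫ z : X, (w z).toReal * (η z.1 ^ 2 * Bf z.1 (fderiv ℝ g z.1) (fderiv ℝ f z.1)) ∂mu := by
    refine integral_congr_ae (Filter.Eventually.of_forall fun z => ?_)
    simp only
    rw [Bf_comm]
  set G1 := ∫ z : X, (w z).toReal *
    (2 * η z.1 * (f z.1 * Bf z.1 (fderiv ℝ η z.1) (fderiv ℝ f z.1))) ∂mu with hG1
  set G2 := ∫ z : X, (w z).toReal *
    (2 * η z.1 * (g z.1 * Bf z.1 (fderiv ℝ η z.1) (fderiv ℝ g z.1))) ∂mu with hG2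
  set G3 := ∫ z : X, (w z).toReal *
    (2 * η z.1 * (f z.1 * Bf z.1 (fderiv ℝ η z.1) (fderiv ℝ g z.1))) ∂mu with hG3
  set G4 := ∫ z : X, (w z).toReal *
    (2 * η z.1 * (g z.1 * Bf z.1 (fderiv ℝ η z.1) (fderiv ℝ f z.1))) ∂mu with hG4
  have eq1 : D = a * A - (G1 + G2) := by
    rw [eD, eA]
    linear_combination p11 + p22 - b * eP
  have eq2 : b * A = G3 - G4 := by
    rw [eA]
    linear_combination p21 - p12 + eB - a * eP
  -- pointwise bounds
  have hbound : ∀ (z : X) (x : ℝ), x ^ 2 ≤ ((f z.1 ^ 2 + g z.1 ^ 2) * normL z.1 (fderiv ℝ η z.1)) *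
      (normL z.1 (fderiv ℝ f z.1) + normL z.1 (fderiv ℝ g z.1)) →
      |(w z).toReal * (2 * η z.1 * x)| ≤ ε * ((w z).toReal * (η z.1 ^ 2 *
        (normL z.1 (fderiv ℝ f z.1) + normL z.1 (fderiv ℝ g z.1)))) +
        C / ε * ((w z).toReal * (f z.1 ^ 2 + g z.1 ^ 2)) := by
    intro z x hx
    have hz := z.2
    have hn1 := normL_nonneg hz.le (fderiv ℝ f z.1)
    have hn2 := normL_nonneg hz.le (fderiv ℝ g z.1)
    have hn3 := normL_nonneg hz.le (fderiv ℝ η z.1)
    have hy := young_aux (η := η z.1) hε (by positivity) (by positivity) hx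
    have hc1 : normL z.1 (fderiv ℝ η z.1) ≤ C := T.grad n z.1 hz
    have hw0 : 0 ≤ (w z).toReal := ENNReal.toReal_nonneg
    rw [abs_mul, abs_of_nonneg hw0]
    have h5 : (f z.1 ^ 2 + g z.1 ^ 2) * normL z.1 (fderiv ℝ η z.1) / ε ≤
        C / ε * (f z.1 ^ 2 + g z.1 ^ 2) := by
      rw [div_mul_eq_mul_div]
      have h6 : (f z.1 ^ 2 + g z.1 ^ 2) * normL z.1 (fderiv ℝ η z.1) ≤
          C * (f z.1 ^ 2 + g z.1 ^ 2) := by
        rw [mul_comm C]
        exact mul_le_mul_of_nonneg_left hc1 (by positivity)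
      gcongr
    calc (w z).toReal * |2 * η z.1 * x| ≤ (w z).toReal * (ε * (η z.1 ^ 2 *
          (normL z.1 (fderiv ℝ f z.1) + normL z.1 (fderiv ℝ g z.1))) +
          (f z.1 ^ 2 + g z.1 ^ 2) * normL z.1 (fderiv ℝ η z.1) / ε) := by gcongr
      _ ≤ (w z).toReal * (ε * (η z.1 ^ 2 *
          (normL z.1 (fderiv ℝ f z.1) + normL z.1 (fderiv ℝ g z.1))) +
          C / ε * (f z.1 ^ 2 + g z.1 ^ 2)) := by gcongr
      _ = _ := by ring
  have iRHS : Integrable (fun z : X => ε * ((w z).toReal * (η z.1 ^ 2 *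
        (normL z.1 (fderiv ℝ f z.1) + normL z.1 (fderiv ℝ g z.1)))) +
        C / ε * ((w z).toReal * (f z.1 ^ 2 + g z.1 ^ 2))) mu :=
    (iD.const_mul ε).add (hL2.const_mul (C / ε))
  have eRHS : ∫ z : X, (ε * ((w z).toReal * (η z.1 ^ 2 *
        (normL z.1 (fderiv ℝ f z.1) + normL z.1 (fderiv ℝ g z.1)))) +
        C / ε * ((w z).toReal * (f z.1 ^ 2 + g z.1 ^ 2))) ∂mu =
      ε * D + C / ε * δ := by
    rw [integral_add (iD.const_mul ε) (hL2.const_mul (C / ε)), integral_const_mul,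
      integral_const_mul]
  have cs : ∀ (z : X) (s t x y : ℝ), s ^ 2 + t ^ 2 = f z.1 ^ 2 + g z.1 ^ 2 →
      x ^ 2 ≤ normL z.1 (fderiv ℝ η z.1) * normL z.1 (fderiv ℝ f z.1) →
      y ^ 2 ≤ normL z.1 (fderiv ℝ η z.1) * normL z.1 (fderiv ℝ g z.1) →
      (s * x + t * y) ^ 2 ≤ ((f z.1 ^ 2 + g z.1 ^ 2) * normL z.1 (fderiv ℝ η z.1)) *
      (normL z.1 (fderiv ℝ f z.1) + normL z.1 (fderiv ℝ g z.1)) := by
    intro z s t x y hst hx hy
    calc (s * x + t * y) ^ 2 ≤ (s ^ 2 + t ^ 2) * (x ^ 2 + y ^ 2) := by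
          nlinarith [sq_nonneg (s * y - t * x)]
      _ ≤ (s ^ 2 + t ^ 2) * (normL z.1 (fderiv ℝ η z.1) * normL z.1 (fderiv ℝ f z.1) +
          normL z.1 (fderiv ℝ η z.1) * normL z.1 (fderiv ℝ g z.1)) := by gcongr
      _ = _ := by rw [hst]; ring
  have hG12 : |G1 + G2| ≤ ε * D + C / ε * δ := by
    rw [← eRHS, hG1, hG2, ← integral_add gff ggg]
    refine (abs_integral_le_integral_abs).trans ?_
    refine integral_mono_of_nonneg (Filter.Eventually.of_forall fun z => abs_nonneg _) iRHS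
      (Filter.Eventually.of_forall fun z => ?_)
    simp only
    have hx : (w z).toReal * (2 * η z.1 * (f z.1 * Bf z.1 (fderiv ℝ η z.1) (fderiv ℝ f z.1))) +
        (w z).toReal * (2 * η z.1 * (g z.1 * Bf z.1 (fderiv ℝ η z.1) (fderiv ℝ g z.1))) =
        (w z).toReal * (2 * η z.1 * (f z.1 * Bf z.1 (fderiv ℝ η z.1) (fderiv ℝ f z.1) +
          g z.1 * Bf z.1 (fderiv ℝ η z.1) (fderiv ℝ g z.1))) := by ring
    rw [hx]
    exact hbound z _ (cs z _ _ _ _ rfl (Bf_sq_le z.2.le _ _) (Bf_sq_le z.2.le _ _))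
  have hG34 : |G3 - G4| ≤ ε * D + C / ε * δ := by
    rw [← eRHS, hG3, hG4, ← integral_sub gfg ggf]
    refine (abs_integral_le_integral_abs).trans ?_
    refine integral_mono_of_nonneg (Filter.Eventually.of_forall fun z => abs_nonneg _) iRHS
      (Filter.Eventually.of_forall fun z => ?_)
    simp only
    have hx : (w z).toReal * (2 * η z.1 * (f z.1 * Bf z.1 (fderiv ℝ η z.1) (fderiv ℝ g z.1))) -
        (w z).toReal * (2 * η z.1 * (g z.1 * Bf z.1 (fderiv ℝ η z.1) (fderiv ℝ f z.1))) =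
        (w z).toReal * (2 * η z.1 * (-g z.1 * Bf z.1 (fderiv ℝ η z.1) (fderiv ℝ f z.1) +
          f z.1 * Bf z.1 (fderiv ℝ η z.1) (fderiv ℝ g z.1))) := by ring
    rw [hx]
    exact hbound z _ (cs z _ _ _ _ (by ring) (Bf_sq_le z.2.le _ _) (Bf_sq_le z.2.le _ _))
  refine ⟨iD, ?_, ?_⟩
  · rw [abs_le] at hG12
    linarith [hG12.1]
  · have hA0 : 0 ≤ A := integral_nonneg fun z => by
      have : 0 ≤ (w z).toReal := ENNReal.toReal_nonneg
      positivity
    have h8 : |b| * A = |b * A| := by rw [abs_mul, abs_of_nonneg hA0]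
    rw [h8, eq2]
    exact hG34

/-- **The energy inequality** for any discrete group with cut-offs. This is `green_sub_aux` (with
`green_fixed`) of `H56/Gen/GreenSub1.lean`: copy the two proofs with `η = cutH ..` replaced by `T.η n`,
`exists_test` by the fields `T.h n`, `T.hh`, `T.hcs`, `T.hs`, `T.hP`, `hGd` given. The bound of the gradient term
is simpler: instead of `C/ε δ`, `δ = ∫_{TR R} w (f² + g²)` (`normL_fderiv_cutH`), use `T.grad`: it is at most
`T.δ n / ε * ∫ w (f² + g²)`, which tends to `0` by `T.δlim`; `hev` is `T.ev`. -/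
theorem green_cut {G : Subgroup SU21} (hGd : ∀ B : ℝ, {γ : G | ∀ i j, ‖mat γ.1 i j‖ ≤ B}.Finite)
    (T : Cut G) {w : X → ENNReal} (hw : Measurable w) {c : ENNReal} (hc0 : c ≠ 0) (hc : c ≠ ⊤)
    (hwc : ∀ᵐ z ∂mu, ∑' γ : G, w (γ • z) = c)
    {f : ℂ × ℂ → ℂ} (hf : ContDiffOn ℝ 2 f U)
    (hinv : ∀ γ : G, ∀ z ∈ U, f (act (mat γ.1) z) = f z) {lam : ℂ}
    (heig : ∀ z ∈ U, laplacian f z = -(lam * f z))
    (hL2 : ∫⁻ z, w z * ENNReal.ofReal (Complex.normSq (f z.1)) ∂mu ≠ ⊤)
    (hne : ∃ z ∈ U, f z ≠ 0) :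
    lam.im = 0 ∧
    ∫⁻ z, w z * ENNReal.ofReal (energy (fun z => (f z).re) z.1 +
        energy (fun z => (f z).im) z.1) ∂mu ≤
      ENNReal.ofReal lam.re * ∫⁻ z, w z * ENNReal.ofReal (Complex.normSq (f z.1)) ∂mu := by
  have hcount := countable_sub hGd
  set f1 : ℂ × ℂ → ℝ := fun z => (f z).re with hf1
  set f2 : ℂ × ℂ → ℝ := fun z => (f z).im with hf2
  have hf1d : ContDiffOn ℝ 2 f1 U := Complex.reCLM.contDiff.comp_contDiffOn hf
  have hf2d : ContDiffOn ℝ 2 f2 U := Complex.imCLM.contDiff.comp_contDiffOn hf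
  have hf1i : ∀ γ : G, ∀ z ∈ U, f1 (act (mat γ.1) z) = f1 z := fun γ z hz => by
    simp only [hf1, hinv γ z hz]
  have hf2i : ∀ γ : G, ∀ z ∈ U, f2 (act (mat γ.1) z) = f2 z := fun γ z hz => by
    simp only [hf2, hinv γ z hz]
  have hl1 : ∀ z ∈ U, lapR f1 z = -(lam.re * f1 z - lam.im * f2 z) := by
    intro z hz
    have h := lapR_comp Complex.reCLM hf hz
    rw [heig z hz] at h
    have h' : lapR f1 z = Complex.reCLM (-(lam * f z)) := h
    rw [h']
    simp [hf1, hf2]
  have hl2 : ∀ z ∈ U, lapR f2 z = -(lam.re * f2 z + lam.im * f1 z) := by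
    intro z hz
    have h := lapR_comp Complex.imCLM hf hz
    rw [heig z hz] at h
    have h' : lapR f2 z = Complex.imCLM (-(lam * f z)) := h
    rw [h']
    simp [hf1, hf2]
  have hnsq : ∀ z, Complex.normSq (f z) = f1 z ^ 2 + f2 z ^ 2 := by
    intro z
    rw [Complex.normSq_apply]
    ring
  have hfin : ∀ᵐ z ∂mu, w z ≠ ⊤ := by
    filter_upwards [hwc] with z hz
    have h1 : w ((1 : G) • z) ≤ c := by
      rw [← hz]
      exact ENNReal.le_tsum _
    rw [one_smul] at h1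
    exact ne_top_of_le_ne_top hc h1
  -- real and extended versions of the integrals
  have hconv : ∀ φ : X → ℝ, (∀ z, 0 ≤ φ z) →
      (fun z => w z * ENNReal.ofReal (φ z)) =ᵐ[mu] fun z => ENNReal.ofReal ((w z).toReal * φ z) := by
    intro φ hφ
    filter_upwards [hfin] with z hz
    rw [ENNReal.ofReal_mul ENNReal.toReal_nonneg, ENNReal.ofReal_toReal hz]
  have hc1 : Continuous fun z : X => f1 z.1 := continuous_restrict hf1d.continuousOn
  have hc2 : Continuous fun z : X => f2 z.1 := continuous_restrict hf2d.continuousOn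
  have hF2m : Measurable fun z : X => (w z).toReal * (f1 z.1 ^ 2 + f2 z.1 ^ 2) :=
    hw.ennreal_toReal.mul ((hc1.pow 2).add (hc2.pow 2)).measurable
  have hF20 : ∀ z : X, 0 ≤ (w z).toReal * (f1 z.1 ^ 2 + f2 z.1 ^ 2) := fun z =>
    mul_nonneg ENNReal.toReal_nonneg (by positivity)
  have hN1 : ∫⁻ z, w z * ENNReal.ofReal (Complex.normSq (f z.1)) ∂mu =
      ∫⁻ z : X, ENNReal.ofReal ((w z).toReal * (f1 z.1 ^ 2 + f2 z.1 ^ 2)) ∂mu := by
    simp only [hnsq]
    exact lintegral_congr_ae (hconv (fun z => f1 z.1 ^ 2 + f2 z.1 ^ 2) fun z => by positivity)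
  have hint : Integrable (fun z : X => (w z).toReal * (f1 z.1 ^ 2 + f2 z.1 ^ 2)) mu := by
    refine ⟨hF2m.aestronglyMeasurable, ?_⟩
    rw [hasFiniteIntegral_iff_ofReal (Filter.Eventually.of_forall hF20), ← hN1]
    exact hL2.lt_top
  set N := ∫ z : X, (w z).toReal * (f1 z.1 ^ 2 + f2 z.1 ^ 2) ∂mu with hN
  have hN0 : 0 ≤ N := integral_nonneg hF20
  have hN2 : ∫⁻ z, w z * ENNReal.ofReal (Complex.normSq (f z.1)) ∂mu = ENNReal.ofReal N := by
    rw [hN1, ofReal_integral_eq_lintegral_ofReal hint (Filter.Eventually.of_forall hF20)]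
  -- positivity of the norm
  have hNpos : 0 < N := by
    by_contra hcon
    have hN00 : N = 0 := le_antisymm (not_lt.mp hcon) hN0
    have h1 := unfold_lintegral (G := G) hw hwc
      (Φ := fun z : X => ENNReal.ofReal (f1 z.1 ^ 2 + f2 z.1 ^ 2))
      (ENNReal.measurable_ofReal.comp ((hc1.pow 2).add (hc2.pow 2)).measurable)
    have h2 : ∫⁻ z, w z * ∑' γ : G,
        ENNReal.ofReal (f1 (γ • z : X).1 ^ 2 + f2 (γ • z : X).1 ^ 2) ∂mu = 0 := by
      have h3 : ∀ z : X, ∀ γ : G,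
          ENNReal.ofReal (f1 (γ • z : X).1 ^ 2 + f2 (γ • z : X).1 ^ 2) =
            ENNReal.ofReal (f1 z.1 ^ 2 + f2 z.1 ^ 2) := by
        intro z γ
        have h4 : (γ • z : X).1 = act (mat γ.1) z.1 := rfl
        rw [h4, hf1i γ z.1 z.2, hf2i γ z.1 z.2]
      simp only [h3]
      have h5 : ∫⁻ z, w z * ENNReal.ofReal (Complex.normSq (f z.1)) ∂mu = 0 := by
        rw [hN2, hN00, ENNReal.ofReal_zero]
      simp only [hnsq] at h5
      have hm5 : Measurable fun z : X => w z * ENNReal.ofReal (f1 z.1 ^ 2 + f2 z.1 ^ 2) :=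
        hw.mul (ENNReal.measurable_ofReal.comp ((hc1.pow 2).add (hc2.pow 2)).measurable)
      rw [lintegral_eq_zero_iff hm5] at h5
      refine (lintegral_congr_ae ?_).trans lintegral_zero
      filter_upwards [h5] with z hz
      simp only [Pi.zero_apply, mul_eq_zero] at hz ⊢
      rcases hz with hz | hz
      · exact Or.inl hz
      · right
        rw [hz]
        simp
    rw [h2] at h1
    have h6 : ∫⁻ z : X, ENNReal.ofReal (f1 z.1 ^ 2 + f2 z.1 ^ 2) ∂mu = 0 := by
      rcases mul_eq_zero.mp h1 with h | h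
      · exact absurd h hc0
      · exact h
    have hF2c : Continuous fun z : X => f1 z.1 ^ 2 + f2 z.1 ^ 2 := (hc1.pow 2).add (hc2.pow 2)
    have h7 : (fun z : X => f1 z.1 ^ 2 + f2 z.1 ^ 2) =ᵐ[mu] fun _ => 0 := by
      have hm6 : Measurable fun z : X => ENNReal.ofReal (f1 z.1 ^ 2 + f2 z.1 ^ 2) :=
        ENNReal.measurable_ofReal.comp hF2c.measurable
      rw [lintegral_eq_zero_iff hm6] at h6
      filter_upwards [h6] with z hz
      have h8 : f1 z.1 ^ 2 + f2 z.1 ^ 2 ≤ 0 := ENNReal.ofReal_eq_zero.mp hz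
      exact le_antisymm h8 (by positivity)
    have h8 : (fun z : X => f1 z.1 ^ 2 + f2 z.1 ^ 2) = fun _ => 0 :=
      (Continuous.ae_eq_iff_eq mu hF2c continuous_const).mp h7
    obtain ⟨z0, hz0, hfz0⟩ := hne
    have h9 := congrFun h8 (⟨z0, hz0⟩ : X)
    simp only at h9
    rw [← hnsq, Complex.normSq_eq_zero] at h9
    exact hfz0 h9
  obtain ⟨B, hB⟩ := T.δlim.bddAbove_range
  have hB' : ∀ n, T.δ n ≤ B := fun n => hB ⟨n, rfl⟩
  have hB0 : 0 ≤ B := (T.δ0 0).trans (hB' 0)
  set C := B + 1 with hCdef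
  have hCpos : 0 < C := by linarith
  have hC0 : 0 ≤ C := hCpos.le
  set η : ℕ → ℂ × ℂ → ℝ := T.η with hη
  have hηc : ∀ n, Continuous fun z : X => η n z.1 := fun n =>
    continuous_restrict (T.hη n).continuousOn
  have hηm : ∀ n z, η n z ∈ Set.Icc (0 : ℝ) 1 := T.mem
  have hη2 : ∀ n z, η n z ^ 2 ≤ 1 := fun n z => by
    have := hηm n z
    exact pow_le_one₀ this.1 this.2
  have hev : ∀ z : X, ∀ᶠ n : ℕ in Filter.atTop, η n z.1 = 1 ∧ True := by
    intro z
    filter_upwards [T.ev z.1 z.2] with n hn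
    exact ⟨hn, trivial⟩
  set F : X → ℝ := fun z => (w z).toReal * (f1 z.1 ^ 2 + f2 z.1 ^ 2) with hF
  set E : X → ℝ := fun z => normL z.1 (fderiv ℝ f1 z.1) + normL z.1 (fderiv ℝ f2 z.1) with hE
  have hf11 : ContDiffOn ℝ 1 f1 U := hf1d.of_le (by norm_num)
  have hf21 : ContDiffOn ℝ 1 f2 U := hf2d.of_le (by norm_num)
  have hEc : Continuous E := continuous_restrict (φ := fun z => normL z (fderiv ℝ f1 z) +
    normL z (fderiv ℝ f2 z)) ((continuousOn_normL hf11).add (continuousOn_normL hf21))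
  have hE0 : ∀ z, 0 ≤ E z := fun z => add_nonneg (normL_nonneg z.2.le _) (normL_nonneg z.2.le _)
  set D : ℕ → ℝ := fun n => ∫ z : X, (w z).toReal * (η n z.1 ^ 2 * E z) ∂mu with hD
  set A : ℕ → ℝ := fun n => ∫ z : X, (w z).toReal * (η n z.1 ^ 2 * (f1 z.1 ^ 2 + f2 z.1 ^ 2)) ∂mu
    with hA
  set δ : ℕ → ℝ := fun n => T.δ n / C * N with hδ
  have hfix : ∀ n : ℕ, ∀ ε : ℝ, 0 < ε → Integrable (fun z : X => (w z).toReal *
      (η n z.1 ^ 2 * E z)) mu ∧ D n ≤ lam.re * A n + (ε * D n + C / ε * δ n) ∧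
      |lam.im| * A n ≤ ε * D n + C / ε * δ n := by
    intro n ε hε
    have e1 : C / ε * δ n = T.δ n / ε * N := by
      simp only [hδ]
      field_simp
    rw [e1]
    exact n1_fixed hGd T hw hc hwc hf1d hf2d hf1i hf2i hl1 hl2 hint n hε
  -- limits
  have hAlim : Filter.Tendsto A Filter.atTop (𝓝 N) := by
    refine tendsto_integral_of_dominated_convergence F (fun n => ?_) hint
      (fun n => Filter.Eventually.of_forall fun z => ?_) (Filter.Eventually.of_forall fun z => ?_)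
    · exact (hw.ennreal_toReal.mul (((hηc n).pow 2).mul
        ((hc1.pow 2).add (hc2.pow 2))).measurable).aestronglyMeasurable
    · have h1 : 0 ≤ (w z).toReal := ENNReal.toReal_nonneg
      rw [Real.norm_eq_abs, abs_of_nonneg (by positivity)]
      have h2 := hη2 n z.1
      have h3 : 0 ≤ f1 z.1 ^ 2 + f2 z.1 ^ 2 := by positivity
      simp only [hF]
      gcongr
      nlinarith
    · refine tendsto_const_nhds.congr' ?_
      filter_upwards [hev z] with n hn
      rw [hn.1]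
      simp
  have hδlim : Filter.Tendsto δ Filter.atTop (𝓝 0) := by
    have h := (T.δlim.div_const C).mul_const N
    rw [zero_div, zero_mul] at h
    exact h
  have hδN : ∀ n, δ n ≤ N := by
    intro n
    have h1 : T.δ n / C ≤ 1 := by
      rw [div_le_one hCpos]
      linarith [hB' n]
    calc T.δ n / C * N ≤ 1 * N := mul_le_mul_of_nonneg_right h1 hN0
      _ = N := one_mul N
  have hδ0 : ∀ n, 0 ≤ δ n := fun n => mul_nonneg (div_nonneg (T.δ0 n) hC0) hN0
  have hA0 : ∀ n, 0 ≤ A n := fun n => integral_nonneg fun z =>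
    mul_nonneg ENNReal.toReal_nonneg (by positivity)
  have hAN : ∀ n, A n ≤ N := by
    intro n
    refine integral_mono_of_nonneg (Filter.Eventually.of_forall fun z =>
      mul_nonneg ENNReal.toReal_nonneg (by positivity)) hint
      (Filter.Eventually.of_forall fun z => ?_)
    have h1 : 0 ≤ (w z).toReal := ENNReal.toReal_nonneg
    have h2 := hη2 n z.1
    have h3 : 0 ≤ f1 z.1 ^ 2 + f2 z.1 ^ 2 := by positivity
    simp only
    gcongr
    nlinarith
  have hD0 : ∀ n, 0 ≤ D n := fun n => integral_nonneg fun z =>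
    mul_nonneg ENNReal.toReal_nonneg (mul_nonneg (sq_nonneg _) (hE0 z))
  -- uniform bound
  set M0 := 2 * |lam.re| * N + 4 * C * N with hM0
  have hDM : ∀ n, D n ≤ M0 := by
    intro n
    have h1 := (hfix n (1 / 2) (by norm_num)).2.1
    have h2 : lam.re * A n ≤ |lam.re| * N := by
      calc lam.re * A n ≤ |lam.re| * A n := mul_le_mul_of_nonneg_right (le_abs_self _) (hA0 n)
        _ ≤ |lam.re| * N := mul_le_mul_of_nonneg_left (hAN n) (abs_nonneg _)
    have h3 : C / (1 / 2) * δ n ≤ 2 * C * N := by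
      have : C / (1 / 2) = 2 * C := by ring
      rw [this]
      exact mul_le_mul_of_nonneg_left (hδN n) (by positivity)
    rw [hM0]
    linarith
  have hM00 : 0 ≤ M0 := by positivity
  constructor
  · -- the eigenvalue is real
    by_contra him
    have hb : 0 < |lam.im| := abs_pos.mpr him
    have hbN : 0 < |lam.im| * N := mul_pos hb hNpos
    set ε := |lam.im| * N / (2 * (M0 + 1)) with hε
    have hε0 : 0 < ε := by positivity
    have h1 : ∀ n, |lam.im| * A n ≤ ε * M0 + C / ε * δ n := by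
      intro n
      have h2 := (hfix n ε hε0).2.2
      have h3 : ε * D n ≤ ε * M0 := mul_le_mul_of_nonneg_left (hDM n) hε0.le
      linarith
    have h4 : |lam.im| * N ≤ ε * M0 + C / ε * 0 :=
      le_of_tendsto_of_tendsto' (hAlim.const_mul _)
        (tendsto_const_nhds.add (hδlim.const_mul _)) h1
    have h5 : ε * M0 < |lam.im| * N := by
      rw [hε, div_mul_eq_mul_div, div_lt_iff₀ (by positivity)]
      nlinarith
    linarith
  · -- the energy bound
    have hV : ∫⁻ z, w z * ENNReal.ofReal (energy f1 z.1 + energy f2 z.1) ∂mu =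
        ∫⁻ z, ENNReal.ofReal ((w z).toReal * E z) ∂mu :=
      lintegral_congr_ae (hconv E hE0)
    rw [hV, hN2, ← ENNReal.ofReal_mul' hN0]
    have hFatou : ∀ ε : ℝ, 0 < ε → ε < 1 →
        ∫⁻ z, ENNReal.ofReal ((w z).toReal * E z) ∂mu ≤
          ENNReal.ofReal (lam.re * N / (1 - ε)) := by
      intro ε hε0 hε1
      have h1ε : 0 < 1 - ε := by linarith
      have h1 : ∀ n, D n ≤ (lam.re * A n + C / ε * δ n) / (1 - ε) := by
        intro n
        have h2 := (hfix n ε hε0).2.1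
        rw [le_div_iff₀ h1ε]
        linarith
      have h3 : ∀ z : X, ENNReal.ofReal ((w z).toReal * E z) ≤
          Filter.liminf (fun n => ENNReal.ofReal ((w z).toReal * (η n z.1 ^ 2 * E z)))
            Filter.atTop := by
        intro z
        have h4 : Filter.Tendsto (fun n => ENNReal.ofReal ((w z).toReal * (η n z.1 ^ 2 * E z)))
            Filter.atTop (𝓝 (ENNReal.ofReal ((w z).toReal * E z))) := by
          refine tendsto_const_nhds.congr' ?_
          filter_upwards [hev z] with n hn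
          rw [hn.1]
          simp
        rw [h4.liminf_eq]
      calc ∫⁻ z, ENNReal.ofReal ((w z).toReal * E z) ∂mu
          ≤ ∫⁻ z, Filter.liminf (fun n => ENNReal.ofReal ((w z).toReal * (η n z.1 ^ 2 * E z)))
            Filter.atTop ∂mu := lintegral_mono h3
        _ ≤ Filter.liminf (fun n => ∫⁻ z, ENNReal.ofReal ((w z).toReal * (η n z.1 ^ 2 * E z)) ∂mu)
            Filter.atTop := by
            refine lintegral_liminf_le fun n => ?_
            exact ENNReal.measurable_ofReal.comp (hw.ennreal_toReal.mul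
              (((hηc n).pow 2).mul hEc).measurable)
        _ = Filter.liminf (fun n => ENNReal.ofReal (D n)) Filter.atTop := by
            congr 1
            funext n
            rw [hD]
            simp only
            rw [ofReal_integral_eq_lintegral_ofReal (hfix n 1 one_pos).1
              (Filter.Eventually.of_forall fun z => mul_nonneg ENNReal.toReal_nonneg
                (mul_nonneg (sq_nonneg _) (hE0 z)))]
        _ ≤ Filter.liminf (fun n => ENNReal.ofReal ((lam.re * A n + C / ε * δ n) / (1 - ε)))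
            Filter.atTop :=
            Filter.liminf_le_liminf (Filter.Eventually.of_forall fun n =>
              ENNReal.ofReal_le_ofReal (h1 n))
        _ = ENNReal.ofReal ((lam.re * N + C / ε * 0) / (1 - ε)) := by
            apply Filter.Tendsto.liminf_eq
            exact (ENNReal.continuous_ofReal.tendsto _).comp
              (((hAlim.const_mul _).add (hδlim.const_mul _)).div_const _)
        _ = ENNReal.ofReal (lam.re * N / (1 - ε)) := by rw [mul_zero, add_zero]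
    have hlim : Filter.Tendsto (fun ε : ℝ => ENNReal.ofReal (lam.re * N / (1 - ε)))
        (𝓝[>] 0) (𝓝 (ENNReal.ofReal (lam.re * N / (1 - 0)))) := by
      refine (ENNReal.continuous_ofReal.tendsto _).comp ?_
      refine Filter.Tendsto.mono_left ?_ nhdsWithin_le_nhds
      refine Filter.Tendsto.div tendsto_const_nhds ?_ (by norm_num)
      exact (continuous_const.sub continuous_id).tendsto 0
    rw [sub_zero, div_one] at hlim
    refine ge_of_tendsto hlim ?_
    filter_upwards [Ioo_mem_nhdsGT (show (0 : ℝ) < 1 by norm_num)] with ε hε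
    exact hFatou ε hε.1 hε.2

end

end Pool.Agent.Lib.H56M
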