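import Pool.Agent.Lib.H56M.Defs

/-!
# W1: the weight with several cusps
-/

namespace Pool.Agent.Lib.H56M

open Matrix hiding J
open MeasureTheory Topology Filter
open Pool.Agent.Lib.H56.Picard hiding O Gam mem_Gam star_mem_O T_mem sg_mem
open Pool.Agent.Lib.H56.Gen
open Pool.Agent.Lib.H56D hiding om wG rho Eig Good K0
open scoped ENNReal

noncomputable section

/-! ### Auxiliary lemmas -/

/-- `height_mul_le` with a general lower bound for the entry. -/
theorem w1_height_mul_le (g : SU21) {z : ℂ × ℂ} (hz : z ∈ U) {c : ℝ} (hc : 0 < c)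
    (h1 : c ≤ ‖mat g 2 0‖) : height (act (mat g) z) * height z ≤ 4 / c ^ 2 := by
  have hz' := mem_U.mp hz
  have hj := jf_ne_zero (mat_unitary g) hz'
  have hn : 0 < Complex.normSq (jf (mat g) z) := Complex.normSq_pos.mpr hj
  have h2 := row_two_bound g hz
  have h3 := Complex.normSq_nonneg (mat g 2 1 - mat g 2 0 * star z.2)
  have h4 : c ^ 2 ≤ Complex.normSq (mat g 2 0) := by
    rw [Complex.normSq_eq_norm_sq]
    exact pow_le_pow_left₀ hc.le h1 2
  rw [height_act (mat_unitary g) hz', div_mul_eq_mul_div, div_le_iff₀ hn]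
  have h5 : height z / 2 * c ^ 2 ≤ 2 / height z * Complex.normSq (jf (mat g) z) := by
    have : height z / 2 * c ^ 2 ≤ height z / 2 * Complex.normSq (mat g 2 0) := by gcongr
    linarith
  have h6 : height z * (height z / 2 * c ^ 2) ≤
      height z * (2 / height z * Complex.normSq (jf (mat g) z)) :=
    mul_le_mul_of_nonneg_left h5 hz'.le
  have h7 : height z * (2 / height z * Complex.normSq (jf (mat g) z)) =
      2 * Complex.normSq (jf (mat g) z) := by field_simp
  rw [h7] at h6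
  have hc2 : 0 < c ^ 2 := by positivity
  rw [div_mul_eq_mul_div, le_div_iff₀ hc2]
  nlinarith [h6]

variable {q : QD}

/-- Nonzero entries of a matrix with denominator `N`. -/
theorem w1_entry {N : ℕ} (hN : 1 ≤ N) {x : ℂ} (hx : (N : ℂ) * x ∈ OO q) (h0 : x ≠ 0) :
    (1 : ℝ) / N ≤ ‖x‖ := by
  have hN0 : (N : ℂ) ≠ 0 := by
    have : N ≠ 0 := by omega
    exact_mod_cast this
  have h1 := one_le_norm (q := q) _ hx (mul_ne_zero hN0 h0)
  rw [norm_mul, Complex.norm_natCast] at h1
  have hN1 : (0 : ℝ) < N := by exact_mod_cast (by omega : 0 < N)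
  rw [div_le_iff₀ hN1]
  linarith

/-- The automorphy factor of an upper triangular element. -/
theorem w1_jf_of_zero (g : SU21) (h0 : mat g 2 0 = 0) (z : ℂ × ℂ) :
    jf (mat g) z = mat g 2 2 := by
  rw [jf_apply, h0, row_two_one_of_zero g h0]
  ring

/-- The third row of an element with denominator `N` bounds the height. -/
theorem w1_height (g : SU21) {N : ℕ} (hN : 1 ≤ N) (hg : ∀ k l, (N : ℂ) * mat g k l ∈ OO q)
    {z : ℂ × ℂ} (hz : z ∈ U) :
    height (act (mat g) z) ≤ 4 * (N : ℝ) ^ 2 / height z + (N : ℝ) ^ 2 * height z := by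
  have hz' := mem_U.mp hz
  have hN1 : (0 : ℝ) < N := by exact_mod_cast (by omega : 0 < N)
  by_cases h0 : mat g 2 0 = 0
  · have hj := jf_ne_zero (mat_unitary g) hz'
    rw [w1_jf_of_zero g h0] at hj
    have h1 := w1_entry hN (hg 2 2) hj
    have h2 : (1 / (N : ℝ)) ^ 2 ≤ Complex.normSq (mat g 2 2) := by
      rw [Complex.normSq_eq_norm_sq]
      exact pow_le_pow_left₀ (by positivity) h1 2
    have h3 : height (act (mat g) z) ≤ (N : ℝ) ^ 2 * height z := by
      rw [height_act (mat_unitary g) hz', w1_jf_of_zero g h0,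
        div_le_iff₀ (Complex.normSq_pos.mpr hj)]
      have h4 : (N : ℝ) ^ 2 * height z * (1 / (N : ℝ)) ^ 2 = height z := by
        field_simp
      calc height z = (N : ℝ) ^ 2 * height z * (1 / (N : ℝ)) ^ 2 := h4.symm
        _ ≤ _ := by gcongr
    have h5 : 0 ≤ 4 * (N : ℝ) ^ 2 / height z := by positivity
    linarith
  · have h1 := w1_entry hN (hg 2 0) h0
    have h2 := w1_height_mul_le g hz (by positivity : (0 : ℝ) < 1 / N) h1
    have h3 : height (act (mat g) z) ≤ 4 * (N : ℝ) ^ 2 / height z := by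
      rw [le_div_iff₀ hz']
      have h4 : 4 / (1 / (N : ℝ)) ^ 2 = 4 * (N : ℝ) ^ 2 := by field_simp
      rwa [h4] at h2
    have h5 : 0 ≤ (N : ℝ) ^ 2 * height z := by positivity
    linarith

theorem w1_B_le_stab (K : Cusp q) : K.B ≤ stab (OO q) star_mem := by
  rintro γ ⟨m, n, w, -, -, h⟩
  show mat γ.1 2 0 = 0
  rw [h]
  simp [TM]

variable (D : MC q)

/-- Product of the two elements moving a point between two cusps. -/
theorem w1_smul (i j : Fin D.r) (γ : Gam q) (w : X) :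
    ((D.g j)⁻¹ • (γ • (D.g i • w : X) : X) : X) = ((D.g j)⁻¹ * γ.1 * D.g i) • w := by
  have h1 : (γ • (D.g i • w : X) : X) = γ.1 • (D.g i • w : X) := rfl
  rw [h1, smul_smul, smul_smul, mul_assoc]

theorem w1_bxi_le_one (i : Fin D.r) (z : X) : bxi D i z ≤ 1 := by
  have h1 : bx D.K.Box ((D.g i)⁻¹ • z : X).1 ≤ 1 := by
    unfold bx
    split_ifs <;> simp
  have h2 : above D.h (height ((D.g i)⁻¹ • z : X).1) ≤ 1 := by
    unfold above
    exact Set.indicator_le_self' (fun _ _ => zero_le) _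
  calc bxi D i z ≤ 1 * 1 := mul_le_mul' h1 h2
    _ = 1 := one_mul 1

theorem w1_bxi_ne_zero {i : Fin D.r} {z : X} (h : bxi D i z ≠ 0) :
    ((D.g i)⁻¹ • z : X).1 ∈ D.K.Box ∧ D.h < height ((D.g i)⁻¹ • z : X).1 := by
  constructor
  · by_contra hc
    apply h
    have : bx D.K.Box ((D.g i)⁻¹ • z : X).1 = 0 := if_neg hc
    rw [bxi, this, zero_mul]
  · by_contra hc
    apply h
    have : above D.h (height ((D.g i)⁻¹ • z : X).1) = 0 := Set.indicator_of_notMem hc _
    rw [bxi, this, mul_zero]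

theorem w1_bxi_eq_one {i : Fin D.r} {z : X} (h1 : ((D.g i)⁻¹ • z : X).1 ∈ D.K.Box)
    (h2 : D.h < height ((D.g i)⁻¹ • z : X).1) : bxi D i z = 1 := by
  have e1 : bx D.K.Box ((D.g i)⁻¹ • z : X).1 = 1 := if_pos h1
  have e2 : above D.h (height ((D.g i)⁻¹ • z : X).1) = 1 :=
    Set.indicator_of_mem (show height ((D.g i)⁻¹ • z : X).1 ∈ Set.Ioi D.h from h2) _
  rw [bxi, e1, e2, mul_one]

/-! ### The weight -/

theorem measurable_bxi (i : Fin D.r) : Measurable (bxi D i) :=
  ((measurable_bx (measurableSet_Box D.K)).comp (measurable_const_smul (D.g i)⁻¹)).mul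
    ((measurable_above D.h).comp (measurable_height.comp (measurable_const_smul (D.g i)⁻¹)))

theorem measurable_ind : Measurable (ind D) :=
  Finset.measurable_sum _ fun i _ => measurable_bxi D i

/-- `D.high`: `w = g_i⁻¹ γ z` has height `> h`; `Cusp.exists_unique_B` gives `b ∈ K.B` with `b w` in the box, and
`b g_i⁻¹ γ = g_i⁻¹ (g_i b g_i⁻¹) γ` with `g_i b g_i⁻¹ ∈ Gam q` (`D.tr`); `b` preserves heights (`height_stab`, see
`exists_box` in `H56D/O3.lean`). -/
theorem exists_box (z : X) : ∃ γ : Gam q, ∃ i, ((D.g i)⁻¹ • (γ • z : X) : X).1 ∈ D.K.Box ∧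
    D.h < height ((D.g i)⁻¹ • (γ • z : X) : X).1 := by
  obtain ⟨γ, i, hγ⟩ := D.high z
  obtain ⟨b, hb, -⟩ := D.K.exists_unique_B (z := ((D.g i)⁻¹ • (γ • z : X) : X).1)
    ((D.g i)⁻¹ • (γ • z : X) : X).2
  have hb' : (b.1.1 • ((D.g i)⁻¹ • (γ • z : X) : X) : X).1 ∈ D.K.Box := hb
  set c : Gam q := ⟨D.g i * b.1.1 * (D.g i)⁻¹, D.tr i b.1 b.2⟩ with hc
  have key : ((D.g i)⁻¹ • ((c * γ) • z : X) : X) = b.1.1 • ((D.g i)⁻¹ • (γ • z : X) : X) := by
    have h1 : ((c * γ) • z : X) = (D.g i * b.1.1 * (D.g i)⁻¹) • (γ.1 • z : X) := by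
      rw [smul_smul]
      rfl
    have h2 : (γ • z : X) = γ.1 • z := rfl
    rw [h1, h2, smul_smul, smul_smul, smul_smul, smul_smul]
    congr 1
    group
  refine ⟨c * γ, i, ?_, ?_⟩
  · rw [key]
    exact hb'
  · rw [key]
    have h3 := height_stab one_le_norm (⟨b.1, w1_B_le_stab D.K b.2⟩ : stab (OO q) star_mem)
      ((D.g i)⁻¹ • (γ • z : X) : X)
    have h4 : (b.1.1 • ((D.g i)⁻¹ • (γ • z : X) : X) : X) =
      (⟨b.1, w1_B_le_stab D.K b.2⟩ : stab (OO q) star_mem) • ((D.g i)⁻¹ • (γ • z : X) : X) := rfl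
    rw [h4, h3]
    exact hγ

/-- From `exists_box`: one term is `1`. -/
theorem one_le_cnt (z : X) : 1 ≤ cnt D z := by
  obtain ⟨γ, i, h1, h2⟩ := exists_box D z
  refine le_trans ?_ (ENNReal.le_tsum γ)
  rw [← w1_bxi_eq_one D h1 h2]
  exact Finset.single_le_sum (f := fun i => bxi D i (γ • z)) (fun _ _ => zero_le)
    (Finset.mem_univ i)

/-- The heights of `g_i⁻¹ γ z`. For a fixed index `j` write `z = g_j w`; the third row `ρ` of
`δ = g_i⁻¹ γ g_j` is nonzero (`δ` is invertible) and `N ρ` has entries in `OO q` (`D.den`), so some entry of `ρ` has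
absolute value at least `1/N` (`one_le_norm`). `ρ` is the row of a matrix preserving `J`; as in
`height_bounded` (`H56/Picard`, via `row_bound`) this bounds `|jf δ w| = |ρ · lift w|` from below in terms of `w`
only. -/
theorem height_le (z : X) : ∃ M : ℝ, ∀ (γ : Gam q) (i : Fin D.r),
    height ((D.g i)⁻¹ • (γ • z : X) : X).1 ≤ M := by
  obtain ⟨-, j, -⟩ := D.high z
  set w : X := (D.g j)⁻¹ • z with hw
  refine ⟨4 * (D.N : ℝ) ^ 2 / height w.1 + (D.N : ℝ) ^ 2 * height w.1, fun γ i => ?_⟩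
  have h1 : z = D.g j • w := by rw [hw, smul_inv_smul]
  have h2 : ((D.g i)⁻¹ • (γ • z : X) : X) = ((D.g i)⁻¹ * γ.1 * D.g j) • w := by
    rw [h1]
    exact w1_smul D j i γ w
  rw [h2, smul_val]
  exact w1_height _ D.hN (D.den j i γ) w.2

/-- Finitely many nonzero terms: if `bxi D i (γ z) ≠ 0` then `g_i⁻¹ γ z` lies in the compact set of
`Box_compact D.K D.h M`, so `γ z` lies in a compact subset of `U`, and `exists_entry_bound` (from a point to
a compact set) with `finite_entries` gives finitely many `γ`; each term is at most the number of cusps. -/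
theorem cnt_ne_top (z : X) : cnt D z ≠ ⊤ := by
  obtain ⟨M, hM⟩ := height_le D z
  obtain ⟨K, hK, hKU, hKc⟩ := Box_compact D.K D.h M D.hh
  obtain ⟨B, hB⟩ := exists_entry_bound (K := {z.1}) (L := K) isCompact_singleton
    (Set.singleton_subset_iff.2 z.2) hK hKU
  have hfin : {γ : Gam q | ∃ i, ((D.g i)⁻¹ • (γ • z : X) : X).1 ∈ K}.Finite := by
    have h1 : {γ : Gam q | ∃ i, ((D.g i)⁻¹ • (γ • z : X) : X).1 ∈ K} ⊆
        ⋃ i : Fin D.r, {γ : Gam q | ∀ k l, ‖mat γ.1 k l‖ ≤ ∑ a, ∑ b, ‖mat (D.g i) a b‖ * B} := by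
      rintro γ ⟨i, hi⟩
      rw [Set.mem_iUnion]
      refine ⟨i, fun k l => ?_⟩
      have h2 : act (mat ((D.g i)⁻¹ * γ.1)) z.1 ∈ K := by
        have h3 : ((D.g i)⁻¹ • (γ • z : X) : X) = ((D.g i)⁻¹ * γ.1) • z := by
          rw [mul_smul]
          rfl
        rw [h3] at hi
        exact hi
      have h4 := hB z.1 rfl _ h2
      have h5 : mat γ.1 = mat (D.g i) * mat ((D.g i)⁻¹ * γ.1) := by
        rw [← mat_mul, mul_inv_cancel_left]
      rw [h5, Matrix.mul_apply]
      calc ‖∑ b, mat (D.g i) k b * mat ((D.g i)⁻¹ * γ.1) b l‖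
          ≤ ∑ b, ‖mat (D.g i) k b * mat ((D.g i)⁻¹ * γ.1) b l‖ := norm_sum_le _ _
        _ ≤ ∑ b, ‖mat (D.g i) k b‖ * B := by
            refine Finset.sum_le_sum fun b _ => ?_
            rw [norm_mul]
            exact mul_le_mul_of_nonneg_left (h4 b l) (norm_nonneg _)
        _ ≤ ∑ a, ∑ b, ‖mat (D.g i) a b‖ * B := by
            have hB0 : 0 ≤ B := (norm_nonneg _).trans (h4 0 0)
            exact Finset.single_le_sum (f := fun a => ∑ b, ‖mat (D.g i) a b‖ * B)
              (fun a _ => Finset.sum_nonneg fun b _ => mul_nonneg (norm_nonneg _) hB0)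
              (Finset.mem_univ k)
    exact (Set.finite_iUnion fun i => finite_entries H56.Gen.finite_ball _).subset h1
  refine tsum_ne_top_of_finite hfin.toFinset (fun γ hγ => ?_) fun γ => ?_
  · refine Finset.sum_eq_zero fun i _ => ?_
    by_contra hne
    have h1 := w1_bxi_ne_zero D hne
    apply hγ
    rw [Set.Finite.mem_toFinset]
    exact ⟨i, hKc _ h1.1 h1.2.le (hM γ i)⟩
  · exact ENNReal.sum_ne_top.2 fun i _ => ne_top_of_le_ne_top ENNReal.one_ne_top
      (w1_bxi_le_one D i _)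

/-- `Equiv.mulRight`. -/
theorem cnt_smul (γ : Gam q) (z : X) : cnt D (γ • z) = cnt D z := by
  unfold cnt
  rw [← (Equiv.mulRight γ).tsum_eq (fun a : Gam q => ind D (a • z))]
  refine tsum_congr fun a => ?_
  have e : ((Equiv.mulRight γ) a • z : X) = a • (γ • z) := mul_smul a γ z
  rw [e]

/-- `Gam q` is countable (`countable_arith`). -/
theorem measurable_cnt : Measurable (cnt D) := by
  have : Countable (Gam q) := countable_arith H56.Gen.finite_ball
  exact Measurable.tsum fun γ => (measurable_ind D).comp (measurable_const_smul γ)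

theorem measurable_om : Measurable (om D) := (measurable_ind D).mul (measurable_cnt D).inv

/-- `∑ ind (γ z) (cnt (γ z))⁻¹ = cnt z (cnt z)⁻¹ = 1`. -/
theorem sum_om (z : X) : ∑' γ : Gam q, om D (γ • z) = 1 := by
  have h3 : cnt D z ≠ 0 := by
    intro h0
    have h1 := one_le_cnt D z
    rw [h0] at h1
    exact absurd h1 (by simp)
  unfold om
  simp only [cnt_smul]
  rw [ENNReal.tsum_mul_right]
  exact ENNReal.mul_inv_cancel h3 (cnt_ne_top D z)

theorem om_le_one (z : X) : om D z ≤ 1 := by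
  have h1 : om D ((1 : Gam q) • z) ≤ 1 := by
    rw [← sum_om D z]
    exact ENNReal.le_tsum _
  rwa [one_smul] at h1

theorem om_eq (z : X) : om D z = ∑ i, bxi D i z * (cnt D z)⁻¹ := by
  rw [om, ind, Finset.sum_mul]

/-- `(cnt)⁻¹ ≤ 1`. -/
theorem om_le (z : X) : om D z ≤ ∑ i, bxi D i z := by
  rw [om_eq]
  refine Finset.sum_le_sum fun i _ => ?_
  calc bxi D i z * (cnt D z)⁻¹ ≤ bxi D i z * 1 := by
        gcongr
        exact ENNReal.inv_le_one.2 (one_le_cnt D z)
    _ = _ := mul_one _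

end

end Pool.Agent.Lib.H56M
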