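import Pool.Agent.Lib.H56M.Z3
import Pool.Agent.Lib.H56M.M9
import Pool.Agent.Lib.H80C.BR
import Pool.Agent.Lib.H80S.BR2
import Pool.Agent.Lib.H89D.I2C
import Pool.Agent.Lib.H89D.I3

/-!
# R3: the density theorem for every imaginary quadratic order
-/

namespace Pool.Agent.Lib.H56M

open Matrix hiding J
open MeasureTheory Topology Filter
open Pool.Agent.Lib.H56.Picard hiding O Gam mem_Gam star_mem_O T_mem sg_mem
open Pool.Agent.Lib.H56.Gen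
open scoped ENNReal

noncomputable section

/-- The density theorem for every imaginary quadratic order. -/
theorem density {q : QD} (D : MC q) {ε : ℝ} (hε : 0 < ε) :
    ∃ C : ℝ, ∀ n : ℕ, 1 ≤ n → ∀ ν : ℝ, 0 < ν → ν ≤ 1 → ∀ (m : ℕ)
      (f : Fin m → ℂ × ℂ → ℂ) (lam : Fin m → ℂ), (∀ i, Eig D (GamN q (n : ℂ)) (f i) (lam i)) →
      (∀ i, (lam i).re ≤ 1 - ν ^ 2) →
      (∀ c : Fin m → ℂ, (∀ z ∈ U, ∑ i, c i * f i z = 0) → c = 0) →
      (m : ℝ) ≤ C * ν⁻¹ ^ 2 * ((GamN q (n : ℂ)).index : ℝ) ^ (1 - ν + ε) := by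
  refine density_of D ?_ ?_ (fun n hn => Pool.Agent.Lib.H89D.le_index q n hn) hε
  · intro ε K hε hK
    exact Pool.Agent.Lib.H89D.count_sum_of (Pool.Agent.Lib.H80C.count_gam q) hε hK
  · intro ε hε
    obtain ⟨C, -, h⟩ := Pool.Agent.Lib.H89D.index_bound q hε
    exact ⟨C, h⟩

open Pool.Agent.Lib.H80S in
/-- The density theorem in the form of the statement. -/
theorem density_S {t n : ℤ} (h : t ^ 2 < 4 * n) {ε : ℝ} (hε : 0 < ε) :
    ∃ C : ℝ, ∀ N : ℕ, 1 ≤ N → ∀ ν : ℝ, 0 < ν → ν ≤ 1 → ∀ (m : ℕ)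
      (f : Fin m → ℂ × ℂ → ℂ) (lam : Fin m → ℂ), (∀ j, AutForm t n N (f j) (lam j)) →
      (∀ j, (lam j).re ≤ 1 - ν ^ 2) →
      (∀ c : Fin m → ℂ, (∀ z : ℂ × ℂ, 0 < Pool.Agent.Lib.H80S.height z → ∑ j, c j * f j z = 0) →
        c = 0) →
      (m : ℝ) ≤ C * ν⁻¹ ^ 2 * (Pool.Agent.Lib.H80S.index t n N : ℝ) ^ (1 - ν + ε) := by
  obtain ⟨D⟩ := exists_MC (qq t n h)
  obtain ⟨C, hC⟩ := density D hε
  refine ⟨C, fun N hN ν hν hν1 m f lam hf hlam hli => ?_⟩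
  rw [index_eq h N]
  refine hC N hN ν hν hν1 m f lam (fun j => ?_) hlam hli
  exact ⟨(hf j).smooth, fun γ hγ z hz => inv_of h (hf j) γ hγ z hz, (hf j).eig,
    L2_of_cover h D hN (hf j)⟩

end

end Pool.Agent.Lib.H56M
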